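import Pool.Agent.RTW.Defs

set_option autoImplicit false

/-!
# RTW/Dl: the digital line lemma

PROOF PLAN.  Section 2 of /team-store/rot_5dd2d4_proof.md.  `dg_even`: `m / b` is even iff `m % (2 b) < b` (`m = 2 b (m / (2 b)) + r`, `Nat.div_mod_unique` or `omega` with `Nat.div_add_mod`).
`digline`: `n k = ⌊k al + x⌋`; `L` = the largest of `(n k - n j - 1) / (k - j)`, `U` = the least of `(n k - n j + 1) / (k - j)` over `j < k ≤ N` (finite sets of pairs, `Finset.exists_max_image`, `exists_min_image`; nonempty since `N ≥ 1`); `L < al < U`.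
With `L = p / u`, `U = p' / u'` put `b = u + u'`, `a = p + p'`, `m = a / b`: `L < m < U`.  `k0` = place of the maximum of `n k - k m`, `c = b n k0 - k0 a`.  Then `⌊(a j + c) / b⌋ = n j` for all `j ≤ N`; `j = 0`: `0 ≤ c < b`.
Replace `a` by `a % (2 b)` (the floor changes by an even number).
-/

namespace Pool.Agent.RTW

open Pool.Agent.PQE Pool.Agent.FRN Pool.Agent.TRN

theorem dg_even (a b c k : ℕ) (hb : 1 ≤ b) : dg a b c k = decide (Even ((a * k + c) / b)) := by
  unfold dg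
  generalize a * k + c = m
  rw [decide_eq_decide, Nat.even_iff, ← Nat.mod_mul_left_div_self m b 2]
  exact (Nat.div_eq_zero_iff_lt hb).symm

/-- the sign of the digit is `(-1) ^ ⌊(a k + c) / b⌋` -/
theorem sn_dg (a b c k : ℕ) (hb : 1 ≤ b) : sn (dg a b c k) = (-1) ^ ((a * k + c) / b) := by
  rw [dg_even a b c k hb]
  unfold sn
  rcases Nat.even_or_odd ((a * k + c) / b) with h | h
  · rw [decide_eq_true h, if_pos rfl, h.neg_one_pow]
  · rw [decide_eq_false (Nat.not_even_iff_odd.2 h), if_neg (by simp), h.neg_one_pow]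

private theorem Dl_sg (m : ℤ) (t : ℤ) : sg (m - 2 * t) = sg m := by
  unfold sg
  have h : Even (m - 2 * t) ↔ Even m := by
    rw [Int.even_sub]
    have : Even (2 * t) := even_two_mul t
    tauto
  by_cases h1 : Even m
  · rw [if_pos h1, if_pos (h.2 h1)]
  · rw [if_neg h1, if_neg (fun h2 => h1 (h.1 h2))]

private theorem Dl_pow (m : ℕ) : ((-1) ^ m : ℤ) = sg (m : ℤ) := by
  unfold sg
  rcases Nat.even_or_odd m with h | h
  · rw [h.neg_one_pow, if_pos (by exact_mod_cast h)]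
  · rw [h.neg_one_pow, if_neg]
    rw [Int.even_coe_nat]
    exact Nat.not_even_iff_odd.2 h

/-- the integer form -/
private theorem Dl_int (al x : ℝ) (N : ℕ) (hN : 1 ≤ N) :
    ∃ (b : ℕ) (a c : ℤ), 1 ≤ b ∧ b ≤ 2 * N ∧ ∀ k ≤ N, (b : ℤ) * ⌊(k : ℝ) * al + x⌋ ≤ a * k + c ∧
      a * k + c < b * (⌊(k : ℝ) * al + x⌋ + 1) := by
  set n : ℕ → ℤ := fun k => ⌊(k : ℝ) * al + x⌋ with hn
  have hlo : ∀ k : ℕ, (n k : ℝ) ≤ k * al + x := fun k => Int.floor_le _
  have hup : ∀ k : ℕ, (k : ℝ) * al + x < n k + 1 := fun k => Int.lt_floor_add_one _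
  set P : Finset (ℕ × ℕ) := ((Finset.range (N + 1)) ×ˢ (Finset.range (N + 1))).filter fun p => p.1 < p.2 with hP
  have hPne : P.Nonempty := by
    refine ⟨(0, 1), ?_⟩
    rw [hP, Finset.mem_filter, Finset.mem_product, Finset.mem_range, Finset.mem_range]
    exact ⟨⟨by simp, by simp; omega⟩, by simp⟩
  have hPmem : ∀ p : ℕ × ℕ, p ∈ P ↔ (p.1 ≤ N ∧ p.2 ≤ N) ∧ p.1 < p.2 := by
    intro p
    rw [hP, Finset.mem_filter, Finset.mem_product, Finset.mem_range, Finset.mem_range]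
    omega
  obtain ⟨p, hp, hpmax⟩ := P.exists_max_image (fun p => ((n p.2 : ℝ) - n p.1 - 1) / ((p.2 : ℝ) - p.1)) hPne
  obtain ⟨r, hr, hrmin⟩ := P.exists_min_image (fun p => ((n p.2 : ℝ) - n p.1 + 1) / ((p.2 : ℝ) - p.1)) hPne
  rw [hPmem] at hp hr
  set L : ℝ := ((n p.2 : ℝ) - n p.1 - 1) / ((p.2 : ℝ) - p.1) with hL
  set U : ℝ := ((n r.2 : ℝ) - n r.1 + 1) / ((r.2 : ℝ) - r.1) with hU
  have hpd : (0 : ℝ) < (p.2 : ℝ) - p.1 := by
    have : (p.1 : ℝ) < p.2 := by exact_mod_cast hp.2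
    linarith
  have hrd : (0 : ℝ) < (r.2 : ℝ) - r.1 := by
    have : (r.1 : ℝ) < r.2 := by exact_mod_cast hr.2
    linarith
  have hLal : L < al := by
    rw [hL, div_lt_iff₀ hpd]
    have h1 := hlo p.2
    have h2 := hup p.1
    nlinarith
  have halU : al < U := by
    rw [hU, lt_div_iff₀ hrd]
    have h1 := hup r.2
    have h2 := hlo r.1
    nlinarith
  have hLp : L * ((p.2 : ℝ) - p.1) = (n p.2 : ℝ) - n p.1 - 1 := by
    rw [hL]
    field_simp
  have hUr : U * ((r.2 : ℝ) - r.1) = (n r.2 : ℝ) - n r.1 + 1 := by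
    rw [hU]
    field_simp
  set b : ℕ := (p.2 - p.1) + (r.2 - r.1) with hb
  set a : ℤ := (n p.2 - n p.1 - 1) + (n r.2 - n r.1 + 1) with ha
  have hbr : (b : ℝ) = ((p.2 : ℝ) - p.1) + ((r.2 : ℝ) - r.1) := by
    rw [hb]
    push_cast [Nat.cast_sub hp.2.le, Nat.cast_sub hr.2.le]
    ring
  have har : (a : ℝ) = L * ((p.2 : ℝ) - p.1) + U * ((r.2 : ℝ) - r.1) := by
    rw [hLp, hUr, ha]
    push_cast
    ring
  have hb0 : (0 : ℝ) < b := by
    rw [hbr]
    linarith
  set m : ℝ := (a : ℝ) / b with hm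
  have hmb : m * b = a := by
    rw [hm]
    field_simp
  have hLm : L < m := by
    rw [hm, lt_div_iff₀ hb0, har, hbr]
    nlinarith
  have hmU : m < U := by
    rw [hm, div_lt_iff₀ hb0, har, hbr]
    nlinarith
  have key1 : ∀ j k : ℕ, j < k → k ≤ N → (n k : ℝ) - n j - 1 < ((k : ℝ) - j) * m := by
    intro j k hjk hk
    have h1 := hpmax (j, k) ((hPmem _).2 ⟨⟨by simp; omega, by simpa using hk⟩, hjk⟩)
    have hd : (0 : ℝ) < (k : ℝ) - j := by
      have : (j : ℝ) < k := by exact_mod_cast hjk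
      linarith
    have h2 : ((n k : ℝ) - n j - 1) / ((k : ℝ) - j) < m := lt_of_le_of_lt h1 hLm
    rw [div_lt_iff₀ hd] at h2
    linarith
  have key2 : ∀ j k : ℕ, j < k → k ≤ N → ((k : ℝ) - j) * m < (n k : ℝ) - n j + 1 := by
    intro j k hjk hk
    have h1 := hrmin (j, k) ((hPmem _).2 ⟨⟨by simp; omega, by simpa using hk⟩, hjk⟩)
    have hd : (0 : ℝ) < (k : ℝ) - j := by
      have : (j : ℝ) < k := by exact_mod_cast hjk
      linarith
    have h2 : m < ((n k : ℝ) - n j + 1) / ((k : ℝ) - j) := lt_of_lt_of_le hmU h1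
    rw [lt_div_iff₀ hd] at h2
    linarith
  obtain ⟨k0, hk0, hk0max⟩ := (Finset.range (N + 1)).exists_max_image (fun k => (n k : ℝ) - k * m) ⟨0, by simp⟩
  rw [Finset.mem_range] at hk0
  refine ⟨b, a, b * n k0 - k0 * a, by omega, by omega, ?_⟩
  intro k hk
  have h1 : (n k : ℝ) - k * m ≤ n k0 - k0 * m := hk0max k (Finset.mem_range.2 (by omega))
  have h2 : (n k0 : ℝ) - n k - 1 < ((k0 : ℝ) - k) * m := by
    rcases lt_trichotomy k k0 with h | h | h
    · exact key1 k k0 h (by omega)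
    · rw [h]
      norm_num
    · have := key2 k0 k h hk
      linarith
  have e1 : ((a * k + (b * n k0 - k0 * a) : ℤ) : ℝ) = b * (k * m + (n k0 - k0 * m)) := by
    push_cast
    rw [← hmb]
    ring
  constructor
  · have : ((b * n k : ℤ) : ℝ) ≤ ((a * k + (b * n k0 - k0 * a) : ℤ) : ℝ) := by
      rw [e1]
      push_cast
      exact mul_le_mul_of_nonneg_left (by linarith) hb0.le
    exact_mod_cast this
  · have : ((a * k + (b * n k0 - k0 * a) : ℤ) : ℝ) < ((b * (n k + 1) : ℤ) : ℝ) := by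
      rw [e1]
      push_cast
      exact mul_lt_mul_of_pos_left (by linarith) hb0
    exact_mod_cast this

theorem digline (al x : ℝ) (h0 : 0 < al) (h1 : al < 1) (hx0 : 0 ≤ x) (hx1 : x < 1) (N : ℕ) (hN : 1 ≤ N) :
    ∃ a b c : ℕ, 1 ≤ b ∧ b ≤ 2 * N ∧ a < 2 * b ∧ c < b ∧ ∀ k ≤ N, sn (dg a b c k) = sg ⌊(k : ℝ) * al + x⌋ := by
  obtain ⟨b, a, c, hb1, hb2, hk⟩ := Dl_int al x N hN
  have hb0 : (0 : ℤ) < 2 * b := by omega
  have hc := hk 0 (Nat.zero_le _)
  rw [Nat.cast_zero, zero_mul, zero_add, Int.floor_eq_zero_iff.2 ⟨hx0, hx1⟩] at hc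
  have hc0 : 0 ≤ c ∧ c < b := by
    constructor
    · have := hc.1
      push_cast at this
      linarith
    · have := hc.2
      push_cast at this
      linarith
  refine ⟨(a % (2 * b)).toNat, b, c.toNat, hb1, hb2, ?_, ?_, ?_⟩
  · have h2 := Int.emod_nonneg a hb0.ne'
    have h3 := Int.emod_lt_of_pos a hb0
    omega
  · omega
  · intro k hkN
    have h4 := hk k hkN
    rw [sn_dg _ _ _ _ hb1, Dl_pow]
    have h2 := Int.emod_nonneg a hb0.ne'
    have h5 : (((((a % (2 * b)).toNat * k + c.toNat) / b : ℕ)) : ℤ) = ⌊(k : ℝ) * al + x⌋ - 2 * (a / (2 * b) * k) := by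
      push_cast
      rw [Int.toNat_of_nonneg h2, Int.toNat_of_nonneg hc0.1]
      have h6 : a % (2 * b) = a - 2 * b * (a / (2 * b)) := by
        have := Int.emod_add_mul_ediv a (2 * b)
        linarith
      rw [h6]
      rw [Int.ediv_eq_iff_of_pos (by omega)]
      constructor
      · have e : (⌊(k : ℝ) * al + x⌋ - 2 * (a / (2 * b) * k)) * b = b * ⌊(k : ℝ) * al + x⌋ - 2 * b * (a / (2 * b)) * k := by ring
        rw [e]
        have := h4.1
        linarith
      · have e : (⌊(k : ℝ) * al + x⌋ - 2 * (a / (2 * b) * k)) * b + b = b * (⌊(k : ℝ) * al + x⌋ + 1) - 2 * b * (a / (2 * b)) * k := by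
          ring
        rw [e]
        have := h4.2
        linarith
    rw [h5, Dl_sg]

end Pool.Agent.RTW
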