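import Pool.Agent.RTW.Zw
import Pool.Agent.RTW.Dl

set_option autoImplicit false

/-!
# RTW/Bb: the polynomials of rotation words

PROOF PLAN.  `pre`: `rot` gives `x`; `digline` with `al = q.arg / π` (`arg_pos`) gives `a, b, c` with `sn (dg a b c k) = sg ⌊k al + x⌋ = - d k` for `1 ≤ k ≤ N`; for `k = 0` both are `1` (`Ext.d0`).
`cf_zero_gt` (B1): the sequence `cf a b c N` has values `0, 1, -1`, is `1` at `0` and `0` at `N + 1`: `strict` (Ra).  `cf_zero_near` (B2): `zero_near` (Zr) for `cf a b c N`.  `pn_eq`: the sum over `range (N + 1)`; the term `k = 0` of `pn` is `(-1) ^ (c / b) = 1` as `c < b`; `sn_dg`.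
-/

namespace Pool.Agent.RTW

open Pool.Agent.PQE Pool.Agent.FRN Pool.Agent.TRN

/-- the polynomial `2 - ∑_{k ≤ N} (-1) ^ ⌊(a k + c) / b⌋ z ^ k` -/
noncomputable def pn (N a b c : ℕ) (z : ℂ) : ℂ := 2 - ∑ k ∈ Finset.range (N + 1), (-1) ^ ((a * k + c) / b) * z ^ k

private theorem Bb_sn (e : Bool) : sn e = 1 ∨ sn e = -1 := by
  cases e
  · right
    rfl
  · left
    rfl

private theorem Bb_cases (a b c N k : ℕ) : cf a b c N k = 0 ∨ cf a b c N k = 1 ∨ cf a b c N k = -1 := by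
  unfold cf
  by_cases h0 : k = 0
  · rw [if_pos h0]
    exact Or.inr (Or.inl rfl)
  · rw [if_neg h0]
    by_cases h1 : k ≤ N
    · rw [if_pos h1]
      rcases Bb_sn (dg a b c k) with h | h <;> rw [h] <;> norm_num
    · rw [if_neg h1]
      exact Or.inl rfl

private theorem Bb_abs (a b c N k : ℕ) : |cf a b c N k| ≤ 1 := by
  rcases Bb_cases a b c N k with h | h | h <;> rw [h] <;> norm_num

private theorem Bb_hs {N a b c : ℕ} (hc : c < b) (z : ℂ) :
    HasSum (fun k : ℕ => (cf a b c N k : ℂ) * z ^ k) (pn N a b c z) := by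
  have hb : 1 ≤ b := by omega
  have h1 : ∀ k ∉ Finset.range (N + 1), (cf a b c N k : ℂ) * z ^ k = 0 := by
    intro k hk
    rw [Finset.mem_range] at hk
    unfold cf
    rw [if_neg (by omega), if_neg (by omega)]
    simp
  have h2 : HasSum (fun k : ℕ => (cf a b c N k : ℂ) * z ^ k) (∑ k ∈ Finset.range (N + 1), (cf a b c N k : ℂ) * z ^ k) :=
    hasSum_sum_of_ne_finset_zero h1
  have h3 : ∑ k ∈ Finset.range (N + 1), (cf a b c N k : ℂ) * z ^ k = pn N a b c z := by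
    unfold pn
    rw [Finset.sum_range_succ', Finset.sum_range_succ']
    have e0 : cf a b c N 0 = 1 := if_pos rfl
    have e1 : (a * 0 + c) / b = 0 := by
      rw [mul_zero, zero_add]
      exact Nat.div_eq_of_lt hc
    rw [e0, e1]
    have e2 : ∑ k ∈ Finset.range N, (cf a b c N (k + 1) : ℂ) * z ^ (k + 1) =
        -∑ k ∈ Finset.range N, (-1) ^ ((a * (k + 1) + c) / b) * z ^ (k + 1) := by
      rw [← Finset.sum_neg_distrib]
      refine Finset.sum_congr rfl fun k hk => ?_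
      rw [Finset.mem_range] at hk
      unfold cf
      rw [if_neg (by omega), if_pos (by omega), sn_dg _ _ _ _ hb]
      push_cast
      ring
    rw [e2]
    push_cast
    ring
  rw [h3] at h2
  exact h2

theorem pn_eq {N a b c : ℕ} (hc : c < b) (z : ℂ) : fs (cf a b c N) z = pn N a b c z := (Bb_hs hc z).tsum_eq

theorem pre {q : ℂ} {d : ℕ → ℤ} (h : Mi q d) {N : ℕ} (hN : 1 ≤ N) :
    ∃ a b c : ℕ, 1 ≤ b ∧ b ≤ 2 * N ∧ a < 2 * b ∧ c < b ∧ ∀ k ≤ N, cf a b c N k = d k := by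
  obtain ⟨x, hx0, hx1, -, hd⟩ := rot h
  obtain ⟨ha0, ha1⟩ := arg_pos h
  obtain ⟨a, b, c, h1, h2, h3, h4, h5⟩ := digline (q.arg / Real.pi) x ha0 ha1 hx0 hx1 N hN
  refine ⟨a, b, c, h1, h2, h3, h4, fun k hk => ?_⟩
  unfold cf
  by_cases h0 : k = 0
  · rw [if_pos h0, h0, h.ext.d0]
    norm_num
  · rw [if_neg h0, if_pos hk, h5 k hk, hd k (by omega)]
    push_cast
    ring

theorem pn_gt {N a b c : ℕ} (hc : c < b) {z : ℂ} (him : z.im ≠ 0) (_hz : ‖z‖ < 1) (h : pn N a b c z = 0) : rho < ‖z‖ := by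
  have h1 := Bb_hs (N := N) (a := a) hc z
  rw [h] at h1
  refine strict him (c := cf a b c N) (if_pos rfl) (Bb_abs a b c N) h1 (k := N + 1) (by omega) ?_
  unfold cf
  rw [if_neg (by omega), if_neg (by omega)]
  norm_num

theorem pn_near {q : ℂ} {d : ℕ → ℤ} (h : Mi q d) {N : ℕ} (hN : 131 ≤ N) :
    ∃ a b c : ℕ, 1 ≤ b ∧ b ≤ 2 * N ∧ a < 2 * b ∧ c < b ∧ ∃ z : ℂ, z.im ≠ 0 ∧ ‖z‖ < 1 ∧ pn N a b c z = 0 ∧ ‖z - q‖ ≤ rho ^ N := by
  obtain ⟨a, b, c, h1, h2, h3, h4, h5⟩ := pre h (N := N) (by omega)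
  obtain ⟨ζ, hζ1, hζ2⟩ := zero_near h.ext (Bb_abs a b c N) (by omega) h5
  have hball : ‖ζ - q‖ ≤ 1 / 10 ^ 20 := (hζ1.trans (pow_small h.ext (by omega))).trans (by norm_num)
  obtain ⟨-, -, m3, m4⟩ := zero_mem h.ext (if_pos rfl) (Bb_cases a b c N) hball hζ2
  refine ⟨a, b, c, h1, h2, h3, h4, ζ, ?_, m4, ?_, ?_⟩
  · intro h0
    rw [h0] at m3
    norm_num at m3
  · rw [← pn_eq h4]
    exact hζ2
  · rw [rho_eq h]
    exact hζ1

end Pool.Agent.RTW
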