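import Pool.Agent.RTW.Defs

set_option autoImplicit false

/-!
# RTW/Rs: roots and shifts

PROOF PLAN.  `ss_eq`: `rt4 m` is the largest `s` with `s ^ 4 ≤ m`, see the specification in FRN (grep `rt4` in Pool/Agent/FRN, e.g. FRN/Rt or the file that proves correctness; otherwise prove it: the fold over the powers of two, largest first); `s ^ 4 ≤ m ^ 2` iff `s ^ 2 ≤ m`.  `fF_eq`: `dv4 W n = n / 4 ^ W.length`, `4 ^ 35 = 2 ^ 70`.
-/

namespace Pool.Agent.RTW

open Pool.Agent.PQE Pool.Agent.FRN Pool.Agent.TRN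

/-- the powers of two, largest first -/
private def Rs_pl : ℕ → List ℕ
  | 0 => [1]
  | k + 1 => 2 ^ (k + 1) :: Rs_pl k

private theorem Rs_pl_head (k : ℕ) : (Rs_pl k).headD 1 = 2 ^ k := by
  cases k with
  | zero => simp [Rs_pl]
  | succ k => simp [Rs_pl]

private theorem Rs_pws_aux (l : List Bool) : ∀ k : ℕ,
    l.foldl (fun p _ => (2 * p.headD 1) :: p) (Rs_pl k) = Rs_pl (k + l.length) := by
  induction l with
  | nil => intro k; simp
  | cons b l ih =>
    intro k
    have h : (2 * (Rs_pl k).headD 1) :: Rs_pl k = Rs_pl (k + 1) := by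
      rw [Rs_pl_head, Rs_pl, pow_succ, mul_comm]
    rw [List.foldl_cons, h, ih (k + 1), List.length_cons]
    congr 1
    omega

private theorem Rs_pws (l : List Bool) : pws l = Rs_pl l.length := by
  have h := Rs_pws_aux l 0
  rw [zero_add] at h
  exact h

private theorem Rs_fold (n : ℕ) : ∀ (k s : ℕ), s ^ 4 ≤ n → n < (s + 2 ^ (k + 1)) ^ 4 →
    ((Rs_pl k).foldl (fun s p => if decide ((s + p) * (s + p) * ((s + p) * (s + p)) ≤ n) then s + p else s) s) ^ 4 ≤ n ∧
    n < ((Rs_pl k).foldl (fun s p => if decide ((s + p) * (s + p) * ((s + p) * (s + p)) ≤ n) then s + p else s) s + 1) ^ 4 := by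
  intro k
  induction k with
  | zero =>
    intro s h1 h2
    have e : ∀ x : ℕ, x * x * (x * x) = x ^ 4 := fun x => by ring
    simp only [Rs_pl, List.foldl_cons, List.foldl_nil, e, decide_eq_true_eq]
    split_ifs with h
    · refine ⟨h, ?_⟩
      have : s + 2 ^ (0 + 1) = s + 1 + 1 := by norm_num
      rw [this] at h2
      exact h2
    · exact ⟨h1, not_le.mp h⟩
  | succ k ih =>
    intro s h1 h2
    have e : ∀ x : ℕ, x * x * (x * x) = x ^ 4 := fun x => by ring
    rw [Rs_pl, List.foldl_cons]
    apply ih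
    · rw [e]
      by_cases h : (s + 2 ^ (k + 1)) ^ 4 ≤ n
      · rw [if_pos (by simpa using h)]
        exact h
      · rw [if_neg (by simpa using h)]
        exact h1
    · rw [e]
      by_cases h : (s + 2 ^ (k + 1)) ^ 4 ≤ n
      · rw [if_pos (by simpa using h)]
        have : s + 2 ^ (k + 1) + 2 ^ (k + 1) = s + 2 ^ (k + 1 + 1) := by ring
        rw [this]
        exact h2
      · rw [if_neg (by simpa using h)]
        exact not_le.mp h

private theorem Rs_size (n : ℕ) : n < (0 + 2 ^ ((Computability.encodeNat n).length + 1)) ^ 4 := by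
  have h1 : n < 2 ^ (Computability.encodeNat n).length := by
    rw [Pool.Agent.PQE.bits_length]
    exact Nat.lt_size_self n
  have h2 : 2 ^ (Computability.encodeNat n).length ≤ 2 ^ ((Computability.encodeNat n).length + 1) :=
    Nat.pow_le_pow_right (by norm_num) (Nat.le_succ _)
  have h3 : 2 ^ ((Computability.encodeNat n).length + 1) ≤
      (2 ^ ((Computability.encodeNat n).length + 1)) ^ 4 := Nat.le_self_pow (by norm_num) _
  rw [zero_add]
  omega

private theorem Rs_spec (n : ℕ) : rt4 n ^ 4 ≤ n ∧ n < (rt4 n + 1) ^ 4 := by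
  have h := Rs_fold n (Computability.encodeNat n).length 0 (by simp) (Rs_size n)
  rw [← Rs_pws] at h
  exact h

private theorem Rs_dv4 (W : List ℕ) : ∀ n : ℕ, dv4 W n = n / 4 ^ W.length := by
  induction W with
  | nil => intro n; simp [dv4]
  | cons a W ih =>
    intro n
    have h : dv4 (a :: W) n = dv4 W (n / 2 / 2) := by
      unfold dv4
      rw [List.foldl_cons]
    rw [h, ih, List.length_cons, pow_succ, Nat.div_div_eq_div_mul, Nat.div_div_eq_div_mul]
    congr 1
    ring

/-- the least value of the square of the modulus -/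
def mm (x : List Bool) : ℕ := (am ((pts x).map fun p => (nn p, p))).1

private theorem Rs_ss (x : List Bool) : ss x = rt4 (mm x * mm x) := rfl

theorem ss_le (x : List Bool) : ss x * ss x ≤ mm x := by
  have h := (Rs_spec (mm x * mm x)).1
  rw [← Rs_ss] at h
  have e : ss x ^ 4 = (ss x * ss x) ^ 2 := by ring
  have e2 : mm x * mm x = mm x ^ 2 := by ring
  rw [e, e2] at h
  exact (Nat.pow_le_pow_iff_left (by norm_num)).mp h

theorem lt_ss (x : List Bool) : mm x < (ss x + 1) * (ss x + 1) := by
  have h := (Rs_spec (mm x * mm x)).2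
  rw [← Rs_ss] at h
  have e : (ss x + 1) ^ 4 = ((ss x + 1) * (ss x + 1)) ^ 2 := by ring
  have e2 : mm x * mm x = mm x ^ 2 := by ring
  rw [e, e2] at h
  exact (Nat.pow_lt_pow_iff_left (by norm_num)).mp h

theorem fF_eq (x : List Bool) : fF x = (ss x + 590295810358705651712) / 2 ^ 70 := by
  have h : fF x = dv4 (List.range 35) (ss x + 590295810358705651712) := rfl
  rw [h, Rs_dv4, List.length_range]
  norm_num

end Pool.Agent.RTW
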