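import Pool.Agent.RTW.Pv

set_option autoImplicit false

/-!
# RTW/Wd: the list of words

`wds_good`: the words of the list `wds x` start with the signs of the minimal points. `wds_length`: their length.
`wds_mem`: every rotation word of this length with small parameters which starts with these signs is in the list.
-/

namespace Pool.Agent.RTW

open Pool.Agent.PQE Pool.Agent.FRN Pool.Agent.TRN

private theorem Wd_uu (x : List Bool) : (uu x).length = 2 * x.length + 148 := by
  unfold uu
  rw [List.length_append, List.length_append, List.length_replicate]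
  ring

private theorem Wd_rr (x : List Bool) : rr x = List.range (4 * (2 * x.length + 148) + 1) := by
  unfold rr
  congr 1
  rw [List.length_append, List.length_append, List.length_append, List.length_append, List.length_singleton, Wd_uu]
  ring

private theorem Wd_cc (x : List Bool) : (cc x).length = (4 * (2 * x.length + 148) + 1) * (4 * (2 * x.length + 148) + 1) := by
  unfold cc
  rw [List.length_flatMap]
  simp only [List.map_const', List.sum_replicate, Wd_rr, List.length_range, smul_eq_mul]

private theorem Wd_kk (x : List Bool) (f : ℕ → Bool) :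
    (kk x).map f = ((List.range (2 * x.length + 148)).map fun k => f (k + 1)).reverse := by
  unfold kk
  rw [Wd_uu, List.map_reverse, List.map_map]
  rfl

private theorem Wd_split (n : ℕ) (g : ℕ → Bool) :
    (List.range (2 * n + 148)).map g = (List.range 130).map g ++ ((List.range (2 * n + 18)).map fun k => g (130 + k)) := by
  have h : 2 * n + 148 = 130 + (2 * n + 18) := by ring
  rw [h, List.range_add, List.map_append, List.map_map]
  rfl

theorem wds_good {x w : List Bool} (h : w ∈ wds x) : Good w := by
  unfold wds at h
  obtain ⟨t, ht, rfl⟩ := List.mem_map.1 h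
  unfold trg at ht
  have h1 := (List.mem_filter.1 ht).2
  have h2 : ((List.range 130).map fun k => dgc (cc x) t (k + 1)) = pt := of_decide_eq_true h1
  refine ⟨((List.range (2 * x.length + 18)).map fun k => dgc (cc x) t (130 + k + 1)).reverse, ?_⟩
  rw [Wd_kk, Wd_split, List.reverse_append, h2]

theorem wds_length {x w : List Bool} (h : w ∈ wds x) : w.length = 2 * x.length + 148 := by
  unfold wds at h
  obtain ⟨t, ht, rfl⟩ := List.mem_map.1 h
  rw [Wd_kk, List.length_reverse, List.length_map, List.length_range]

private theorem Wd_dg (x : List Bool) {N a b c k : ℕ} (hN : N = 2 * x.length + 148) (hb2 : b ≤ 2 * N) (ha : a < 2 * b) (hc : c < b)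
    (hk : k ≤ N) : dgc (cc x) (a, (b, c)) k = dg a b c k := by
  have h1 : a * k + c ≤ (cc x).length := by
    rw [Wd_cc, ← hN]
    have h2 : a * k ≤ (4 * N) * N := Nat.mul_le_mul (by omega) hk
    nlinarith
  show decide (min (a * k + c) (cc x).length % (2 * b) < b) = decide ((a * k + c) % (2 * b) < b)
  rw [min_eq_left h1]

private theorem Wd_pt : pt.length = 130 := by
  rfl

theorem wds_mem (x : List Bool) {N a b c : ℕ} (hN : N = 2 * x.length + 148) (hb2 : b ≤ 2 * N) (ha : a < 2 * b) (hc : c < b)
    (hp : Good (((List.range N).map fun k => dg a b c (k + 1)).reverse)) :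
    ((List.range N).map fun k => dg a b c (k + 1)).reverse ∈ wds x := by
  unfold wds
  refine List.mem_map.2 ⟨(a, (b, c)), ?_, ?_⟩
  · unfold trg
    refine List.mem_filter.2 ⟨?_, ?_⟩
    · unfold trp
      rw [Wd_rr, ← hN]
      refine List.mem_flatMap.2 ⟨a, List.mem_range.2 (by omega), List.mem_flatMap.2 ⟨b, List.mem_range.2 (by omega),
        List.mem_map.2 ⟨c, List.mem_range.2 (by omega), rfl⟩⟩⟩
    · refine decide_eq_true ?_
      obtain ⟨v, hv⟩ := hp
      have h1 := congrArg List.reverse hv
      rw [List.reverse_reverse, List.reverse_append, List.reverse_reverse, hN, Wd_split] at h1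
      have h2 := (List.append_inj h1 (by rw [List.length_map, List.length_range, Wd_pt])).1
      rw [← h2]
      refine List.map_congr_left fun k hk => ?_
      exact Wd_dg x hN hb2 ha hc (by have := List.mem_range.1 hk; omega)
  · rw [Wd_kk, ← hN]
    congr 1
    refine List.map_congr_left fun k hk => ?_
    exact Wd_dg x hN hb2 ha hc (by have := List.mem_range.1 hk; omega)

end Pool.Agent.RTW
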