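import Pool.Agent.RTW.St
import Pool.Agent.RTW.Wd
import Pool.Agent.RTW.Bb
import Pool.Agent.RTW.Rs

set_option autoImplicit false

/-!
# RTW/Ac: correctness

PROOF PLAN.  Section 4 of /team-store/rot_5dd2d4_proof.md, Accuracy.  `D = 2 ^ (n + 70)`, `N = 2 n + 148`.  Every `p ∈ pts x` is `(rn x w).2` for a good word `w` (`wds_good`), `zw_exists`, `rn_inv`: `‖p / D - ζ‖ ≤ .8 / D`, `rho ≤ ‖ζ‖` (`rho_le`).  For a minimal `q` (`pre`, `cw_cf`, `good_near`, `wds_mem`) the word of its prefix is in `wds x`, its `ζ` is within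
`‖q‖ ^ N` of `q` (`zw_near`), `D ‖q‖ ^ N ≤ 1 / 16` (`‖q‖ ≤ 16 / 25`, `(16 / 25) ^ 2 ≤ 1 / 2`).  So `pts x` is not empty and `D rho - .8 ≤ √(mm x) ≤ D rho + .8625` (`am_spec`), `ss_le`, `lt_ss`.
-/

namespace Pool.Agent.RTW

open Pool.Agent.PQE Pool.Agent.FRN Pool.Agent.TRN

/-- the modulus -/
private noncomputable def Ac_P (p : ℕ × ℕ) : ℝ := ‖(p.1 : ℂ) + p.2 * Complex.I‖

private theorem Ac_sq (p : ℕ × ℕ) : Ac_P p ^ 2 = (nn p : ℝ) := by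
  unfold Ac_P nn
  rw [← Complex.normSq_eq_norm_sq, Complex.normSq_apply]
  simp only [Complex.add_re, Complex.add_im, Complex.mul_re, Complex.mul_im, Complex.natCast_re, Complex.natCast_im,
    Complex.I_re, Complex.I_im]
  push_cast
  ring

private theorem Ac_nonneg (p : ℕ × ℕ) : 0 ≤ Ac_P p := norm_nonneg _

private theorem Ac_le {p : ℕ × ℕ} {z : ℂ} {D r : ℝ} (hD : 0 < D) (h : ‖((p.1 : ℂ) + p.2 * Complex.I) / D - z‖ ≤ r / D) :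
    |Ac_P p - D * ‖z‖| ≤ r := by
  have hD0 : (D : ℂ) ≠ 0 := by exact_mod_cast hD.ne'
  have e1 : ((p.1 : ℂ) + p.2 * Complex.I) - D * z = D * (((p.1 : ℂ) + p.2 * Complex.I) / D - z) := by
    rw [mul_sub, mul_div_cancel₀ _ hD0]
  have h1 : ‖((p.1 : ℂ) + p.2 * Complex.I) - D * z‖ ≤ r := by
    rw [e1, norm_mul, Complex.norm_real, Real.norm_of_nonneg hD.le]
    refine (mul_le_mul_of_nonneg_left h hD.le).trans (le_of_eq ?_)
    field_simp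
  have h2 := abs_norm_sub_norm_le ((p.1 : ℂ) + p.2 * Complex.I) (D * z)
  rw [norm_mul, Complex.norm_real, Real.norm_of_nonneg hD.le] at h2
  exact h2.trans h1

private theorem Ac_cast {A ζ : ℂ} {n : ℕ} (h : ‖A / ((2 ^ (n + 70) : ℕ) : ℂ) - ζ‖ ≤ 4 / 5 / ((2 ^ (n + 70) : ℕ) : ℝ)) :
    ‖A / ((2 ^ (n + 70) : ℝ) : ℂ) - ζ‖ ≤ 4 / 5 / 2 ^ (n + 70) := by
  push_cast at h ⊢
  exact h

private theorem Ac_cast2 {A ζ : ℂ} {n : ℕ} {r : ℝ} (h : ‖A / ((2 ^ (n + 70) : ℝ) : ℂ) - ζ‖ ≤ r) :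
    ‖ζ - A / 2 ^ (n + 70)‖ ≤ r := by
  rw [norm_sub_rev]
  push_cast at h
  exact h

private theorem Ac_tri {A ζ q : ℂ} {n : ℕ} (h : ‖A / ((2 ^ (n + 70) : ℕ) : ℂ) - ζ‖ ≤ 4 / 5 / ((2 ^ (n + 70) : ℕ) : ℝ))
    (h2 : ‖ζ - q‖ ≤ 1 / 16 / 2 ^ (n + 70)) : ‖A / ((2 ^ (n + 70) : ℝ) : ℂ) - q‖ ≤ 69 / 80 / 2 ^ (n + 70) := by
  have h1 := Ac_cast h
  have e1 : A / ((2 ^ (n + 70) : ℝ) : ℂ) - q = (A / ((2 ^ (n + 70) : ℝ) : ℂ) - ζ) + (ζ - q) := by ring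
  rw [e1]
  refine (norm_add_le _ _).trans ((add_le_add h1 h2).trans (le_of_eq ?_))
  ring

private theorem Ac_pow {q : ℂ} {d : ℕ → ℤ} (h : Ext q d) (n : ℕ) : ‖q‖ ^ (2 * n + 148) ≤ 1 / 16 / 2 ^ (n + 70) := by
  have hq : ‖q‖ ≤ 16 / 25 := by
    have h4 := h.up
    have h5 : (635606390391455492692046961204 : ℝ) / 10 ^ 30 ≤ 16 / 25 := by norm_num
    linarith
  have h6 : ‖q‖ ^ (2 * n + 148) = (‖q‖ ^ 2) ^ (n + 74) := by
    rw [← pow_mul]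
    congr 1
  have h7 : ‖q‖ ^ 2 ≤ 1 / 2 := by
    have := norm_nonneg q
    nlinarith
  have h8 : (‖q‖ ^ 2) ^ (n + 74) ≤ (1 / 2 : ℝ) ^ (n + 74) := pow_le_pow_left₀ (by positivity) h7 _
  rw [h6]
  refine h8.trans (le_of_eq ?_)
  have h9 : (2 : ℝ) ^ (n + 74) = 2 ^ (n + 70) * 16 := by
    rw [show n + 74 = (n + 70) + 4 by ring, pow_add]
    norm_num
  rw [one_div_pow, h9]
  field_simp

/-- the points of the list -/
private theorem Ac_pts (x : List Bool) {p : ℕ × ℕ} (hp : p ∈ pts x) :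
    ∃ ζ ∈ Pool.Agent.Helper62.Mandel.mandelbrot, ζ.im ≠ 0 ∧
      ‖((p.1 : ℂ) + p.2 * Complex.I) / ((2 ^ (x.length + 70) : ℝ) : ℂ) - ζ‖ ≤ 4 / 5 / 2 ^ (x.length + 70) := by
  obtain ⟨w, hw, rfl⟩ := List.mem_map.1 hp
  obtain ⟨ζ, κ, hz⟩ := zw_exists (wds_good hw)
  obtain ⟨h1, h2⟩ := rn_inv hz x
  have h3 := h2.2
  rw [h1] at h3
  exact ⟨ζ, hz.mem, hz.im, Ac_cast h3⟩

/-- a minimal point is approximated -/
private theorem Ac_near (x : List Bool) {q : ℂ} {d : ℕ → ℤ} (h : Mi q d) :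
    ∃ p ∈ pts x, ‖((p.1 : ℂ) + p.2 * Complex.I) / ((2 ^ (x.length + 70) : ℝ) : ℂ) - q‖ ≤ 69 / 80 / 2 ^ (x.length + 70) := by
  obtain ⟨a, b, c, -, hb2, ha, hc, hk⟩ := pre h (N := 2 * x.length + 148) (by omega)
  set w := ((List.range (2 * x.length + 148)).map fun k => dg a b c (k + 1)).reverse with hw
  have hlen : w.length = 2 * x.length + 148 := by
    rw [hw, List.length_reverse, List.length_map, List.length_range]
  have hcw : ∀ k ≤ w.length, cw w k = d k := by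
    intro k hk1
    rw [hlen] at hk1
    rw [hw, cw_cf, hk k hk1]
  have hgood := good_near h (by rw [hlen]; omega) hcw
  have hmem := wds_mem x rfl hb2 ha hc hgood
  obtain ⟨ζ, κ, hz⟩ := zw_exists hgood
  have hnear := zw_near h (by rw [hlen]; omega) hcw hz
  obtain ⟨h1, h2⟩ := rn_inv hz x
  have h3 := h2.2
  rw [h1] at h3
  rw [hlen] at hnear
  exact ⟨(rn x w).2, List.mem_map_of_mem hmem, Ac_tri h3 (hnear.trans (Ac_pow h.ext _))⟩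

/-- bounds for the least modulus -/
private theorem Ac_mm (x : List Bool) : ∃ M : ℝ, 0 ≤ M ∧ M ^ 2 = mm x ∧ 2 ^ (x.length + 70) * rho - 4 / 5 ≤ M ∧
    M ≤ 2 ^ (x.length + 70) * rho + 69 / 80 := by
  have hD : (0 : ℝ) < 2 ^ (x.length + 70) := by positivity
  obtain ⟨q, d, h⟩ := mi_exists
  obtain ⟨p, hp, hpq⟩ := Ac_near x h
  have hmem : (nn p, p) ∈ (pts x).map fun p => (nn p, p) := List.mem_map.2 ⟨p, hp, rfl⟩
  obtain ⟨h1, h2⟩ := am_spec (List.ne_nil_of_mem hmem)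
  obtain ⟨r, hr, hr2⟩ := List.mem_map.1 h1
  have e1 : mm x = nn r := by
    unfold mm
    rw [← hr2]
  refine ⟨Ac_P r, Ac_nonneg r, ?_, ?_, ?_⟩
  · rw [Ac_sq, e1]
  · obtain ⟨ζ, hz1, hz2, hz3⟩ := Ac_pts x hr
    have h3 := (abs_le.1 (Ac_le hD hz3)).1
    have h4 := mul_le_mul_of_nonneg_left (rho_le hz1 hz2) hD.le
    linarith
  · have h3 := (abs_le.1 (Ac_le hD hpq)).2
    rw [← rho_eq h] at h3
    have h4 := h2 _ hmem
    have h5 : nn r ≤ nn p := by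
      rw [← e1]
      exact h4
    have h6 : Ac_P r ^ 2 ≤ Ac_P p ^ 2 := by
      rw [Ac_sq, Ac_sq]
      exact_mod_cast h5
    have h7 := le_of_sq_le_sq h6 (Ac_nonneg p)
    linarith

private theorem Ac_ss (x : List Bool) : (ss x : ℝ) ≤ 2 ^ (x.length + 70) * rho + 69 / 80 ∧
    2 ^ (x.length + 70) * rho - 9 / 5 < ss x ∧
    ∃ M : ℝ, 0 ≤ M ∧ 2 ^ (x.length + 70) * rho - 4 / 5 ≤ M ∧ M ≤ 2 ^ (x.length + 70) * rho + 69 / 80 ∧ (ss x : ℝ) ≤ M ∧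
      M < ss x + 1 := by
  obtain ⟨M, h0, h1, h2, h3⟩ := Ac_mm x
  have h4 : ((ss x : ℝ)) ^ 2 ≤ M ^ 2 := by
    rw [h1, pow_two]
    exact_mod_cast ss_le x
  have h5 : M ^ 2 < ((ss x : ℝ) + 1) ^ 2 := by
    rw [h1, pow_two]
    exact_mod_cast lt_ss x
  have h6 := le_of_sq_le_sq h4 h0
  have h7 := lt_of_pow_lt_pow_left₀ 2 (by positivity) h5
  exact ⟨h6.trans h3, by linarith, M, h0, h2, h3, h6, h7⟩

theorem fF_spec (x : List Bool) : |2 ^ x.length * rho - fF x| ≤ 1 := by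
  obtain ⟨h1, h2, -⟩ := Ac_ss x
  have h3 := Nat.div_mul_le_self (ss x + 590295810358705651712) (2 ^ 70)
  have h4 := Nat.lt_div_mul_add (a := ss x + 590295810358705651712) (b := 2 ^ 70) (by positivity)
  rw [← fF_eq] at h3 h4
  have h5 : (fF x : ℝ) * 2 ^ 70 ≤ ss x + 590295810358705651712 := by exact_mod_cast h3
  have h6 : (ss x : ℝ) + 590295810358705651712 < fF x * 2 ^ 70 + 2 ^ 70 := by exact_mod_cast h4
  have e1 : (2 : ℝ) ^ (x.length + 70) * rho = 2 ^ x.length * rho * 2 ^ 70 := by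
    rw [pow_add]
    ring
  rw [e1] at h1 h2
  rw [abs_le]
  norm_num at h1 h2 h5 h6 ⊢
  constructor <;> linarith

theorem gF_near (x : List Bool) {q : ℂ} {d : ℕ → ℤ} (h : Mi q d) :
    ∃ p ∈ gF x, ‖q - ((p.1 : ℂ) + p.2 * Complex.I) / 2 ^ (x.length + 70)‖ ≤ 1 / 2 ^ x.length := by
  have hD : (0 : ℝ) < 2 ^ (x.length + 70) := by positivity
  obtain ⟨p, hp, hpq⟩ := Ac_near x h
  obtain ⟨-, -, M, h0, h2, h3, h4, h5⟩ := Ac_ss x
  refine ⟨p, ?_, ?_⟩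
  · refine List.mem_filter.2 ⟨hp, ?_⟩
    rw [decide_eq_true_eq]
    have h6 := (abs_le.1 (Ac_le hD hpq)).2
    rw [← rho_eq h] at h6
    have h7 : Ac_P p ≤ ss x + 3 := by linarith
    have h8 : Ac_P p ^ 2 ≤ ((ss x : ℝ) + 3) ^ 2 := pow_le_pow_left₀ (Ac_nonneg p) h7 2
    rw [Ac_sq, pow_two] at h8
    exact_mod_cast h8
  · refine (Ac_cast2 hpq).trans ?_
    rw [div_le_div_iff₀ hD (by positivity), one_mul, pow_add]
    have h9 : (69 : ℝ) / 80 ≤ 2 ^ 70 := by norm_num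
    have h10 : (0 : ℝ) < 2 ^ x.length := by positivity
    nlinarith

theorem gF_sound (x : List Bool) {p : ℕ × ℕ} (hp : p ∈ gF x) :
    ∃ ζ ∈ Pool.Agent.Helper62.Mandel.mandelbrot, ζ.im ≠ 0 ∧
      ‖ζ - ((p.1 : ℂ) + p.2 * Complex.I) / 2 ^ (x.length + 70)‖ ≤ 1 / 2 ^ x.length ∧ ‖ζ‖ ≤ rho + 1 / 2 ^ x.length := by
  have hD : (0 : ℝ) < 2 ^ (x.length + 70) := by positivity
  obtain ⟨hp1, hp2⟩ := List.mem_filter.1 hp
  rw [decide_eq_true_eq] at hp2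
  obtain ⟨ζ, hz1, hz2, hz3⟩ := Ac_pts x hp1
  obtain ⟨-, -, M, h0, h2, h3, h4, h5⟩ := Ac_ss x
  have h6 := (abs_le.1 (Ac_le hD hz3)).1
  have h7 : Ac_P p ^ 2 ≤ ((ss x : ℝ) + 3) ^ 2 := by
    rw [Ac_sq, pow_two]
    exact_mod_cast hp2
  have h8 := le_of_sq_le_sq h7 (by positivity)
  have h10 : (0 : ℝ) < 2 ^ x.length := by positivity
  refine ⟨ζ, hz1, hz2, ?_, ?_⟩
  · refine (Ac_cast2 hz3).trans ?_
    rw [div_le_div_iff₀ hD (by positivity), one_mul, pow_add]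
    have h9 : (4 : ℝ) / 5 ≤ 2 ^ 70 := by norm_num
    nlinarith
  · have h11 : 2 ^ (x.length + 70) * ‖ζ‖ ≤ 2 ^ (x.length + 70) * (rho + 1 / 2 ^ x.length) := by
      have e1 : (2 : ℝ) ^ (x.length + 70) * (rho + 1 / 2 ^ x.length) = 2 ^ (x.length + 70) * rho + 2 ^ 70 := by
        rw [pow_add]
        field_simp
      rw [e1]
      have h12 : (5 : ℝ) ≤ 2 ^ 70 := by norm_num
      linarith
    exact le_of_mul_le_mul_left h11 hD

end Pool.Agent.RTW
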