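import Pool.Agent.TRN.Base
import Pool.Agent.TRN.SgB
import Pool.Agent.FRN.Alg

set_option autoImplicit false

/-!
# RTW/Defs: rotation words and the algorithm for the minimum modulus (MP_5dd2d4_an)

Paper: /team-store/rot_5dd2d4_proof.md.  Words are lists of Boole values, `true` = sign `+1`; the word `w = [s_N, .., s_1]`
(last sign first) stands for the polynomial `pw w z = 1 - (s_1 z + .. + s_N z^N)`.
Integers in the algorithm are pairs of natural numbers (`PQE.In`, value `PQE.zv a = a.1 - a.2`).
-/

namespace Pool.Agent.RTW

open Pool.Agent.PQE Pool.Agent.FRN Pool.Agent.TRN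

/-! ### the words -/

/-- digit `k` of the word of the triple `(a, b, c)`: is `(-1) ^ ⌊(a k + c) / b⌋ = 1`? -/
def dg (a b c k : ℕ) : Bool := decide ((a * k + c) % (2 * b) < b)

/-- the sign of a digit -/
def sn (e : Bool) : ℤ := if e then 1 else -1

/-- coefficients of `2 - (-1) ^ ⌊c / b⌋ - .. - (-1) ^ ⌊(a N + c) / b⌋ z ^ N` for `c < b` -/
def cf (a b c N k : ℕ) : ℝ := if k = 0 then 1 else if k ≤ N then -(sn (dg a b c k) : ℝ) else 0

/-- the sum `s_1 + s_2 z + .. + s_N z ^ (N - 1)` for `w = [s_N, .., s_1]` -/
def hv (z : ℂ) (w : List Bool) : ℂ := w.foldl (fun v e => z * v + sn e) 0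

/-- the polynomial `1 - (s_1 z + .. + s_N z ^ N)` of the word `w = [s_N, .., s_1]` -/
def pw (w : List Bool) (z : ℂ) : ℂ := 1 - z * hv z w

/-- the signs `s_1, .., s_130` of the minimal points -/
def pt : List Bool := [
   true, false, false, false, true, true, true, true, false, false, false, true, true,
   true, false, false, false, false, true, true, true, false, false, false, true, true,
   true, true, false, false, false, true, true, true, true, false, false, false, true,
   true, true, false, false, false, false, true, true, true, false, false, false, true,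
   true, true, true, false, false, false, true, true, true, true, false, false, false,
   true, true, true, false, false, false, false, true, true, true, false, false, false,
   true, true, true, true, false, false, false, true, true, true, false, false, false,
   false, true, true, true, false, false, false, false, true, true, true, false, false,
   false, true, true, true, true, false, false, false, true, true, true, false, false,
   false, false, true, true, true, false, false, false, false, true, true, true, false]

/-- A word is good if it starts with the signs of the minimal points: `w = [s_N, .., s_1]`, `s_1, .., s_130` is `pt`. -/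
def Good (w : List Bool) : Prop := ∃ v : List Bool, w = v ++ pt.reverse

/-! ### minimal points in the first quadrant -/

/-- a minimal point in the first quadrant, with the signs of its series -/
structure Mi (q : ℂ) (d : ℕ → ℤ) : Prop where
  ext : Ext q d
  mem : q ∈ Pool.Agent.Helper62.Mandel.mandelbrot
  mn : Pool.Agent.Helper62.Mandel.IsMin q

/-- the minimum modulus -/
noncomputable def rho : ℝ :=
  sInf {r : ℝ | ∃ q ∈ Pool.Agent.Helper62.Mandel.mandelbrot, q.im ≠ 0 ∧ r = ‖q‖}

/-! ### the algorithm: one word -/

/-- Gaussian integers -/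
abbrev Gz := In × In

/-- the negative -/
def ng (a : In) : In := (a.2, a.1)

/-- the absolute value -/
def za (a : In) : ℕ := (a.1 - a.2) + (a.2 - a.1)

/-- product of Gaussian integers -/
def gm (z w : Gz) : Gz := (zmul z.1 w.1 + ng (zmul z.2 w.2), zmul z.1 w.2 + zmul z.2 w.1)

/-- a step of the scheme of Horner with the common denominator `D` -/
def hst (D : ℕ) (Z : Gz) (s : Gz × ℕ) (e : Bool) : Gz × ℕ :=
  (((gm Z s.1).1 + (if e then (s.2, 0) else (0, s.2)), (gm Z s.1).2), s.2 * D)

/-- the scheme of Horner: the second component is `D ^ w.length`, the first is `D ^ (w.length - 1) * hv (Z / D) w` -/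
def hrn (D : ℕ) (Z : Gz) (w : List Bool) : Gz × ℕ := w.foldl (hst D Z) (((0, 0), (0, 0)), 1)

/-- the number `|D ^ N * pw w ((X + i Y) / D)| ^ 2`, `N = w.length` -/
def nv (w : List Bool) (D X Y : ℕ) : ℕ :=
  let s := hrn D ((X, 0), (Y, 0)) w
  let p := gm ((X, 0), (Y, 0)) s.1
  za ((s.2, 0) + ng p.1) * za ((s.2, 0) + ng p.1) + za p.2 * za p.2

/-- the offsets -/
def ofs : List (ℕ × ℕ) := [(0, 0), (0, 1), (0, 2), (0, 3), (0, 4), (1, 0), (1, 1), (1, 2), (1, 3), (1, 4), (2, 0), (2, 1),
  (2, 2), (2, 3), (2, 4), (3, 0), (3, 1), (3, 2), (3, 3), (3, 4), (4, 0), (4, 1), (4, 2), (4, 3), (4, 4)]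

/-- an element with the least first component -/
def am (l : List (ℕ × (ℕ × ℕ))) : ℕ × (ℕ × ℕ) :=
  l.foldl (fun m p => if decide (p.1 < m.1) then p else m) (l.headD (0, (0, 0)))

/-- the candidates of the refinement -/
def cnd (w : List Bool) (s : ℕ × (ℕ × ℕ)) : List (ℕ × (ℕ × ℕ)) :=
  ofs.map fun o => (nv w (2 * s.1) (2 * s.2.1 + o.1 - 2) (2 * s.2.2 + o.2 - 2), (2 * s.2.1 + o.1 - 2, 2 * s.2.2 + o.2 - 2))

/-- refinement of the state `(D, (X, Y))` -/
def stp (w : List Bool) (s : ℕ × (ℕ × ℕ)) : ℕ × (ℕ × ℕ) := (2 * s.1, (am (cnd w s)).2)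

/-- the first state -/
def st0 : ℕ × (ℕ × ℕ) := (1180591620717411303424, (447181039704542467732, 602591602097498106901))

/-- `x.length` refinements -/
def rn (x w : List Bool) : ℕ × (ℕ × ℕ) := x.foldl (fun s _ => stp w s) st0

/-! ### the algorithm: all words -/

/-- a list of length `N = 2 n + 148` -/
def uu (x : List Bool) : List Bool := x ++ (x ++ List.replicate 148 true)

/-- the numbers `0, .., 4 N` -/
def rr (x : List Bool) : List ℕ := List.range (uu x ++ (uu x ++ (uu x ++ (uu x ++ [true])))).length

/-- a list of length at least `4 N ^ 2 + 4 N` -/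
def cc (x : List Bool) : List ℕ := (rr x).flatMap fun _ => rr x

/-- the digit, computed with the cap `C.length` -/
def dgc (C : List ℕ) (t : ℕ × (ℕ × ℕ)) (k : ℕ) : Bool :=
  decide (min (t.1 * k + t.2.2) C.length % (2 * t.2.1) < t.2.1)

/-- the triples `(a, (b, c))` -/
def trp (R : List ℕ) : List (ℕ × (ℕ × ℕ)) := R.flatMap fun a => R.flatMap fun b => R.map fun c => (a, (b, c))

/-- the triples whose word starts with the right signs -/
def trg (x : List Bool) : List (ℕ × (ℕ × ℕ)) :=
  (trp (rr x)).filter fun t => decide (((List.range 130).map fun k => dgc (cc x) t (k + 1)) = pt)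

/-- the places `N, N - 1, .., 1` -/
def kk (x : List Bool) : List ℕ := ((List.range (uu x).length).map fun k => k + 1).reverse

/-- the words -/
def wds (x : List Bool) : List (List Bool) := (trg x).map fun t => (kk x).map fun k => dgc (cc x) t k

/-- the approximate zeros, times `2 ^ (n + 70)` -/
def pts (x : List Bool) : List (ℕ × ℕ) := (wds x).map fun w => (rn x w).2

/-- square of the modulus -/
def nn (p : ℕ × ℕ) : ℕ := p.1 * p.1 + p.2 * p.2

/-- the integer part of the least modulus -/
def ss (x : List Bool) : ℕ :=
  rt4 ((am ((pts x).map fun p => (nn p, p))).1 * (am ((pts x).map fun p => (nn p, p))).1)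

/-- `n` bits of the minimum modulus -/
def fF (x : List Bool) : ℕ := dv4 (List.range 35) (ss x + 590295810358705651712)

/-- the approximate minimal points, times `2 ^ (n + 70)` -/
def gF (x : List Bool) : List (ℕ × ℕ) := (pts x).filter fun p => decide (nn p ≤ (ss x + 3) * (ss x + 3))

end Pool.Agent.RTW
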