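import Pool.Agent.RTW.Defs

set_option autoImplicit false

/-!
# RTW/Ra: minimal points

PROOF PLAN.  `mi_of`: `base` (TRN/Base) gives `q'` in the first quadrant (`Ext.re`, `Ext.im`) with `q' = q`, `-q`, `conj q` or `-conj q`; the last three are not in the first quadrant.  `mn`: a `q'` with a vanishing real series of smaller modulus: by `exists_isMin` (Helper62/Mandel/Final) there is a minimal `q0`
in `mandelbrot` with `IsMin q0`, so `‖q‖ ≤ ‖q0‖ ≤ ‖q'‖`; (`isMin_of_norm_eq`, `realClass_of_mandelbrot`).  `mi_exists`: `q0` is minimal among all points (its `IsMin`), `base` gives `q'` with the same modulus; `mem_mandelbrot_iff` with the series `d` of `Ext`.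
`rho_eq`: `csInf` of a set with least element.  `rot`: `ext_ph` (TRN/SgB) gives `x`; the sequence `c 0 = 1`, `c k = - sg ⌊k al + x⌋` vanishes at `q` (add `2` at the place `0`; `⌊x⌋ = 0`), so it is `d` by `series_unique` (`‖q‖ ≤ rup` from `Ext.up`).
`strict`: `‖q‖ ≤ ‖w‖` by `IsMin`; if equal then `IsMin w` (`isMin_of_norm_eq`) and `sign_rule` at `w` gives `|c k| = 1`.
-/

namespace Pool.Agent.RTW

open Pool.Agent.PQE Pool.Agent.FRN Pool.Agent.TRN

private theorem Ra_rup : Pool.Agent.Helper62.Mandel.rup = (635606390391455492692046961204 : ℝ) / 10 ^ 30 := by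
  norm_num [Pool.Agent.Helper62.Mandel.rup, Pool.Agent.Helper62.Mandel.rupN, Pool.Agent.Helper62.Mandel.den]

private theorem Ra_lt {q : ℂ} {d : ℕ → ℤ} (h : Ext q d) : ‖q‖ < 1 := by
  have h1 := h.up
  have h2 : (635606390391455492692046961204 : ℝ) / 10 ^ 30 ≤ 1 := by norm_num
  linarith

private theorem Ra_van {q : ℂ} {d : ℕ → ℤ} (h : Ext q d) : Pool.Agent.Helper62.Mandel.Vanish (fun k => (d k : ℝ)) q := by
  have h1 := h.van
  unfold Pool.Agent.Helper62.Mandel.Vanish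
  refine (congrArg (fun f => HasSum f (0 : ℂ)) (funext fun k => ?_)).mp h1
  push_cast
  ring

private theorem Ra_abs {q : ℂ} {d : ℕ → ℤ} (h : Ext q d) (k : ℕ) : |(d k : ℝ)| ≤ 1 := by
  rcases h.pm k with h1 | h1 <;> rw [h1] <;> norm_num

private theorem Ra_mem {q : ℂ} {d : ℕ → ℤ} (h : Ext q d) : q ∈ Pool.Agent.Helper62.Mandel.mandelbrot := by
  rw [Pool.Agent.Helper62.Mandel.mem_mandelbrot_iff]
  refine ⟨Ra_lt h, fun k => (d k : ℝ), by simp [h.d0], fun k => ?_, Ra_van h⟩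
  rcases h.pm k with h1 | h1
  · right; left
    simp [h1]
  · right; right
    simp [h1]

theorem mi_of {q : ℂ} (hq : q ∈ Pool.Agent.Helper62.Mandel.mandelbrot) (hre : 0 < q.re) (him : 0 < q.im)
    (hmin : ∀ w ∈ Pool.Agent.Helper62.Mandel.mandelbrot, w.im ≠ 0 → ‖q‖ ≤ ‖w‖) : ∃ d : ℕ → ℤ, Mi q d := by
  obtain ⟨q', d, hext, hq'⟩ := base hq him.ne' hmin
  have e : q' = q := by
    rcases hq' with h | h | h | h
    · exact h
    · exfalso
      have := hext.re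
      rw [h, Complex.neg_re] at this
      linarith
    · exfalso
      have := hext.im
      rw [h, Complex.conj_im] at this
      linarith
    · exfalso
      have := hext.re
      rw [h, Complex.neg_re, Complex.conj_re] at this
      linarith
  rw [e] at hext
  refine ⟨d, hext, hq, ?_⟩
  obtain ⟨q0, h1, h2, -, h4⟩ := Pool.Agent.Helper62.Mandel.exists_isMin
  intro q' hq'1 hq'2
  exact (hmin q0 h1 h2).trans (h4 q' hq'1 hq'2)

theorem mi_exists : ∃ (q : ℂ) (d : ℕ → ℤ), Mi q d := by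
  obtain ⟨q0, h1, h2, h3, h4⟩ := Pool.Agent.Helper62.Mandel.exists_isMin
  obtain ⟨q', d, hext, hq'⟩ := base h1 h2 (fun w hw hwim => h4 w hwim (Pool.Agent.Helper62.Mandel.realClass_of_mandelbrot hw))
  refine ⟨q', d, hext, Ra_mem hext, ?_⟩
  refine Pool.Agent.Helper62.Mandel.isMin_of_norm_eq h4 ?_
  rcases hq' with h | h | h | h
  · rw [h]
  · rw [h, norm_neg]
  · rw [h, Complex.norm_conj]
  · rw [h, norm_neg, Complex.norm_conj]

theorem rho_eq {q : ℂ} {d : ℕ → ℤ} (h : Mi q d) : rho = ‖q‖ := by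
  unfold rho
  refine IsLeast.csInf_eq ⟨⟨q, h.mem, h.ext.im.ne', rfl⟩, ?_⟩
  rintro r ⟨w, hw, hwim, rfl⟩
  exact h.mn w hwim (Pool.Agent.Helper62.Mandel.realClass_of_mandelbrot hw)

theorem rho_le {w : ℂ} (hw : w ∈ Pool.Agent.Helper62.Mandel.mandelbrot) (him : w.im ≠ 0) : rho ≤ ‖w‖ := by
  obtain ⟨q, d, h⟩ := mi_exists
  rw [rho_eq h]
  exact h.mn w him (Pool.Agent.Helper62.Mandel.realClass_of_mandelbrot hw)

private theorem Ra_sg (m : ℤ) : sg m = 1 ∨ sg m = -1 := by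
  unfold sg
  split_ifs
  · exact Or.inl rfl
  · exact Or.inr rfl

theorem rot {q : ℂ} {d : ℕ → ℤ} (h : Mi q d) : ∃ x : ℝ, 0 ≤ x ∧ x < 1 ∧ Ph (q.arg / Real.pi) q x = (2 : ℤ) ∧
    ∀ k : ℕ, 1 ≤ k → d k = -sg ⌊(k : ℝ) * (q.arg / Real.pi) + x⌋ := by
  obtain ⟨x, hx0, hx1, hph⟩ := ext_ph h.ext
  refine ⟨x, hx0, hx1, hph, ?_⟩
  set c : ℕ → ℝ := fun k => if k = 0 then 1 else -(sg ⌊(k : ℝ) * (q.arg / Real.pi) + x⌋ : ℝ) with hc
  have hsum : HasSum (fun k : ℕ => (sg ⌊(k : ℝ) * (q.arg / Real.pi) + x⌋ : ℂ) * q ^ k) 2 := by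
    have h1 := Pool.Agent.Helper62.Mandel.summable_of_bdd (q := q) (Ra_lt h.ext)
      (σ := fun k : ℕ => (sg ⌊(k : ℝ) * (q.arg / Real.pi) + x⌋ : ℂ)) (C := 1) (fun k => by
        rcases Ra_sg ⌊(k : ℝ) * (q.arg / Real.pi) + x⌋ with h1 | h1 <;> rw [h1] <;> norm_num)
    have h2 := h1.hasSum
    have h3 : ∑' k : ℕ, (sg ⌊(k : ℝ) * (q.arg / Real.pi) + x⌋ : ℂ) * q ^ k = 2 := by
      have h4 := hph
      unfold Ph at h4
      rw [h4]
      norm_num
    rw [h3] at h2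
    exact h2
  have hv : Pool.Agent.Helper62.Mandel.Vanish c q := by
    have h1 : HasSum (fun k : ℕ => if k = 0 then (2 : ℂ) else 0) 2 := hasSum_ite_eq 0 (2 : ℂ)
    have h2 := h1.sub hsum
    rw [sub_self] at h2
    unfold Pool.Agent.Helper62.Mandel.Vanish
    refine (congrArg (fun f => HasSum f (0 : ℂ)) (funext fun k => ?_)).mp h2
    rw [hc]
    by_cases hk : k = 0
    · subst hk
      have h5 : ⌊((0 : ℕ) : ℝ) * (q.arg / Real.pi) + x⌋ = 0 := by
        rw [Nat.cast_zero, zero_mul, zero_add]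
        exact Int.floor_eq_zero_iff.2 ⟨hx0, hx1⟩
      rw [h5]
      simp [sg]
      norm_num
    · simp only [if_neg hk]
      push_cast
      ring
  have hcb : ∀ k, |c k| ≤ 1 := by
    intro k
    rw [hc]
    by_cases hk : k = 0
    · simp [hk]
    · simp only [if_neg hk]
      rcases Ra_sg ⌊(k : ℝ) * (q.arg / Real.pi) + x⌋ with h1 | h1 <;> rw [h1] <;> norm_num
  have hup : ‖q‖ ≤ Pool.Agent.Helper62.Mandel.rup := by
    rw [Ra_rup]
    exact h.ext.up.le
  have huniq := Pool.Agent.Helper62.Mandel.series_unique h.ext.im.ne' hup h.mn (c := c) (d := fun k => (d k : ℝ))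
    (by rw [hc]; simp) hcb hv (by simp [h.ext.d0]) (Ra_abs h.ext) (Ra_van h.ext)
  intro k hk
  have h6 := congrFun huniq k
  rw [hc] at h6
  simp only [if_neg (show k ≠ 0 by omega)] at h6
  exact_mod_cast h6

theorem arg_pos {q : ℂ} {d : ℕ → ℤ} (h : Mi q d) : 0 < q.arg / Real.pi ∧ q.arg / Real.pi < 1 := by
  have hpi := Real.pi_pos
  have h1 : 0 < q.arg := by
    refine lt_of_le_of_ne (Complex.arg_nonneg_iff.2 h.ext.im.le) ?_
    intro h0
    have h2 := (Complex.arg_eq_zero_iff.1 h0.symm).2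
    exact h.ext.im.ne' h2
  have h2 : q.arg < Real.pi := by
    refine lt_of_le_of_ne (Complex.arg_le_pi q) ?_
    intro h0
    have h3 := (Complex.arg_eq_pi_iff.1 h0).2
    exact h.ext.im.ne' h3
  exact ⟨div_pos h1 hpi, (div_lt_one hpi).2 h2⟩

theorem strict {w : ℂ} (him : w.im ≠ 0) {c : ℕ → ℝ} (h0 : c 0 = 1) (hc : ∀ k, |c k| ≤ 1)
    (hv : Pool.Agent.Helper62.Mandel.Vanish c w) {k : ℕ} (hk : 1 ≤ k) (hk1 : |c k| ≠ 1) : rho < ‖w‖ := by
  obtain ⟨q, d, h⟩ := mi_exists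
  have h1 := h.mn w him ⟨c, h0, hc, hv⟩
  rw [rho_eq h]
  refine lt_of_le_of_ne h1 fun he => ?_
  have h2 := Pool.Agent.Helper62.Mandel.isMin_of_norm_eq h.mn he.symm
  have hup : ‖w‖ ≤ Pool.Agent.Helper62.Mandel.rup := by
    rw [← he, Ra_rup]
    exact h.ext.up.le
  exact hk1 (Pool.Agent.Helper62.Mandel.sign_rule him hup h2 h0 hc hv k hk).2

end Pool.Agent.RTW
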