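import Pool.Agent.RTW.La
import Pool.Agent.RTW.Ra

set_option autoImplicit false

/-!
# RTW/Ea: the lower bound for zeros of polynomials (part (E) of the paper)

Section 5 of /team-store/rot_5dd2d4_proof.md: a polynomial of degree at most `N` with coefficients in `[-1, 1]` and constant term `1` can be
perturbed by `t z ^ m`, `m = N + 1` or `N + 2`, such that the modulus of a non-real zero decreases.
-/

namespace Pool.Agent.RTW

open Pool.Agent.PQE Pool.Agent.FRN Pool.Agent.TRN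
open Pool.Agent.Helper62.Mandel (mom Vanish IsMin)
open scoped ComplexConjugate

private theorem Ea_pow {q z : ℂ} {η R : ℝ} (hη : 0 ≤ η) (hR : 1 ≤ 2 * R) (hz : ‖z‖ ≤ R) (hq : ‖q‖ ≤ R) (hzq : ‖z - q‖ ≤ η) (k : ℕ) :
    ‖z ^ k - q ^ k‖ ≤ 2 * k * η * R ^ k := by
  have hR0 : 0 ≤ R := by linarith
  induction k with
  | zero => simp
  | succ k ih =>
    have e : z ^ (k + 1) - q ^ (k + 1) = z * (z ^ k - q ^ k) + q ^ k * (z - q) := by ring
    rw [e]
    refine (norm_add_le _ _).trans ?_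
    rw [norm_mul, norm_mul, norm_pow]
    have h1 : ‖z‖ * ‖z ^ k - q ^ k‖ ≤ R * (2 * k * η * R ^ k) := mul_le_mul hz ih (norm_nonneg _) hR0
    have h2 : ‖q‖ ^ k * ‖z - q‖ ≤ R ^ k * η :=
      mul_le_mul (pow_le_pow_left₀ (norm_nonneg _) hq k) hzq (norm_nonneg _) (pow_nonneg hR0 k)
    have h3 : R ^ k * η * 1 ≤ R ^ k * η * (2 * R) := mul_le_mul_of_nonneg_left hR (mul_nonneg (pow_nonneg hR0 k) hη)
    push_cast
    rw [pow_succ]
    linarith

private theorem Ea_e {q z z' : ℂ} {η R : ℝ} (hη : 0 ≤ η) (hR : 1 ≤ 2 * R) (hz : ‖z‖ ≤ R) (hz' : ‖z'‖ ≤ R) (hq : ‖q‖ ≤ R)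
    (hzq : ‖z - q‖ ≤ η) (hzq' : ‖z' - q‖ ≤ η) (k : ℕ) :
    ‖z ^ (k + 1) - z' ^ (k + 1) - (k + 1) * q ^ k * (z - z')‖ ≤ 4 * η * (((k : ℝ) + 1) ^ 2 * R ^ k) * ‖z - z'‖ := by
  have hR0 : 0 ≤ R := by linarith
  induction k with
  | zero =>
    have e : z ^ (0 + 1) - z' ^ (0 + 1) - ((0 : ℕ) + 1) * q ^ 0 * (z - z') = 0 := by
      push_cast
      ring
    rw [e, norm_zero]
    positivity
  | succ k ih =>
    have e : z ^ (k + 1 + 1) - z' ^ (k + 1 + 1) - ((k + 1 : ℕ) + 1) * q ^ (k + 1) * (z - z') =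
        z * (z ^ (k + 1) - z' ^ (k + 1) - (k + 1) * q ^ k * (z - z')) +
        (z - z') * ((z' ^ (k + 1) - q ^ (k + 1)) + (k + 1) * q ^ k * (z - q)) := by
      push_cast
      ring
    rw [e]
    refine (norm_add_le _ _).trans ?_
    rw [norm_mul, norm_mul]
    have h1 : ‖z‖ * ‖z ^ (k + 1) - z' ^ (k + 1) - (k + 1) * q ^ k * (z - z')‖ ≤
        R * (4 * η * (((k : ℝ) + 1) ^ 2 * R ^ k) * ‖z - z'‖) := mul_le_mul hz ih (norm_nonneg _) hR0
    have h2 := Ea_pow hη hR hz' hq hzq' (k + 1)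
    have h3 : ‖((k : ℂ) + 1) * q ^ k * (z - q)‖ ≤ ((k : ℝ) + 1) * R ^ k * η := by
      rw [norm_mul, norm_mul, norm_pow]
      have h4 : ‖(k : ℂ) + 1‖ = (k : ℝ) + 1 := by
        have : (k : ℂ) + 1 = ((k + 1 : ℕ) : ℂ) := by push_cast; ring
        rw [this, Complex.norm_natCast]
        push_cast
        ring
      rw [h4]
      exact mul_le_mul (mul_le_mul_of_nonneg_left (pow_le_pow_left₀ (norm_nonneg _) hq k) (by positivity)) hzq (norm_nonneg _)
        (mul_nonneg (by positivity) (pow_nonneg hR0 k))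
    have h5 : ‖(z' ^ (k + 1) - q ^ (k + 1)) + (k + 1) * q ^ k * (z - q)‖ ≤ 4 * ((k : ℝ) + 1) * η * R ^ (k + 1) := by
      refine (norm_add_le _ _).trans ?_
      have h6 : ((k : ℝ) + 1) * R ^ k * η * 1 ≤ ((k : ℝ) + 1) * R ^ k * η * (2 * R) :=
        mul_le_mul_of_nonneg_left hR (mul_nonneg (mul_nonneg (by positivity) (pow_nonneg hR0 k)) hη)
      push_cast at h2
      have h7 : R ^ (k + 1) = R ^ k * R := pow_succ R k
      rw [h7] at h2 ⊢
      linarith
    have h8 : ‖z - z'‖ * ‖(z' ^ (k + 1) - q ^ (k + 1)) + (k + 1) * q ^ k * (z - q)‖ ≤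
        ‖z - z'‖ * (4 * ((k : ℝ) + 1) * η * R ^ (k + 1)) := mul_le_mul_of_nonneg_left h5 (norm_nonneg _)
    have h9 : 0 ≤ ‖z - z'‖ * η * R ^ (k + 1) := mul_nonneg (mul_nonneg (norm_nonneg _) hη) (pow_nonneg hR0 _)
    push_cast
    have h10 : R ^ (k + 1) = R ^ k * R := pow_succ R k
    rw [h10] at h8 h9 ⊢
    nlinarith [mul_nonneg h9 (show (0 : ℝ) ≤ k by positivity)]

private theorem Ea_fs {c : ℕ → ℝ} (hc : ∀ k, |c k| ≤ 1) {z : ℂ} (hz : ‖z‖ < 1) :
    HasSum (fun k : ℕ => (c k : ℂ) * z ^ k) (fs c z) := by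
  have h := Pool.Agent.Helper62.Mandel.summable_of_bdd (q := z) hz (σ := fun k => (c k : ℂ)) (C := 1) (fun k => by
    rw [Complex.norm_real]
    exact hc k)
  exact h.hasSum

/-- near-linearity of a perturbed series -/
private theorem Ea_near {z : ℂ} (hz : ‖z‖ ≤ 636 / 1000) (hz0 : z ≠ 0) {a a' : ℕ → ℝ} (ha : ∀ k, |a k| ≤ 1) (ha' : ∀ k, |a' k| ≤ 1)
    {τ η : ℝ} (hd : ∀ k, |a' k - a k| ≤ τ) (hη0 : 0 ≤ η) (hη : η ≤ 1 / 250) {w w' : ℂ} (hw : ‖w - z‖ ≤ η) (hw' : ‖w' - z‖ ≤ η) :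
    ‖fs a' w - fs a' w' - mom 1 a z / z * (w - w')‖ ≤ (144 * η + 8 * τ) * ‖w - w'‖ := by
  have hτ : 0 ≤ τ := (abs_nonneg _).trans (hd 0)
  have hwR : ‖w‖ ≤ 16 / 25 := by
    have h1 := norm_sub_norm_le w z
    linarith
  have hwR' : ‖w'‖ ≤ 16 / 25 := by
    have h1 := norm_sub_norm_le w' z
    linarith
  have hzR : ‖z‖ ≤ 16 / 25 := by linarith
  have s1 := (hasSum_nat_add_iff' 1).2 (Ea_fs ha' (z := w) (by linarith))
  have s2 := (hasSum_nat_add_iff' 1).2 (Ea_fs ha' (z := w') (by linarith))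
  have hmo : HasSum (fun j : ℕ => (j : ℂ) ^ 1 * a j * z ^ j) (mom 1 a z) :=
    (Pool.Agent.Helper62.Mandel.summable_moment (q := z) (by linarith) ha 1).hasSum
  have s3 := ((hasSum_nat_add_iff' 1).2 hmo).mul_left (z⁻¹ * (w - w'))
  rw [Finset.sum_range_one] at s1 s2 s3
  have s4 := (s1.sub s2).sub s3
  have e1 : fs a' w - (a' 0 : ℂ) * w ^ 0 - (fs a' w' - (a' 0 : ℂ) * w' ^ 0) -
      z⁻¹ * (w - w') * (mom 1 a z - ((0 : ℕ) : ℂ) ^ 1 * a 0 * z ^ 0) =
      fs a' w - fs a' w' - mom 1 a z / z * (w - w') := by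
    rw [div_eq_mul_inv]
    push_cast
    ring
  rw [e1] at s4
  have g1 := Pool.Agent.Helper62.Mandel.hasSum_succ_sq (r := 16 / 25) (by norm_num) (by norm_num)
  have g2 := Pool.Agent.Helper62.Mandel.hasSum_succ (r := 16 / 25) (by norm_num) (by norm_num)
  have g3 := ((g1.mul_left (4 * η)).add (g2.mul_left τ)).mul_right ‖w - w'‖
  have hle := s4.norm_le_of_bounded g3 (fun k => ?_)
  · refine hle.trans (mul_le_mul_of_nonneg_right ?_ (norm_nonneg _))
    norm_num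
    nlinarith
  · have e2 : (a' (k + 1) : ℂ) * w ^ (k + 1) - (a' (k + 1) : ℂ) * w' ^ (k + 1) -
        z⁻¹ * (w - w') * (((k + 1 : ℕ) : ℂ) ^ 1 * a (k + 1) * z ^ (k + 1)) =
        (a' (k + 1) : ℂ) * (w ^ (k + 1) - w' ^ (k + 1) - (k + 1) * z ^ k * (w - w')) +
        ((a' (k + 1) : ℂ) - a (k + 1)) * ((k + 1) * z ^ k) * (w - w') := by
      rw [pow_succ z k]
      push_cast
      field_simp
      ring
    rw [e2]
    refine (norm_add_le _ _).trans ?_
    refine le_trans (add_le_add (b := 4 * η * (((k : ℝ) + 1) ^ 2 * (16 / 25) ^ k) * ‖w - w'‖)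
      (d := τ * (((k : ℝ) + 1) * (16 / 25) ^ k) * ‖w - w'‖) ?_ ?_) (le_of_eq (add_mul _ _ _).symm)
    · rw [norm_mul, Complex.norm_real]
      have h1 := Ea_e (q := z) (z := w) (z' := w') (η := η) (R := 16 / 25) hη0 (by norm_num) hwR hwR' hzR hw hw' k
      have h2 := mul_le_mul (ha' (k + 1)) h1 (norm_nonneg _) zero_le_one
      rw [one_mul] at h2
      exact h2
    · rw [norm_mul]
      refine mul_le_mul_of_nonneg_right ?_ (norm_nonneg _)
      rw [norm_mul, norm_mul, norm_pow]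
      have h4 : ‖(k : ℂ) + 1‖ = (k : ℝ) + 1 := by
        have : (k : ℂ) + 1 = ((k + 1 : ℕ) : ℂ) := by push_cast; ring
        rw [this, Complex.norm_natCast]
        push_cast
        ring
      have h5 : ‖(a' (k + 1) : ℂ) - a (k + 1)‖ ≤ τ := by
        rw [← Complex.ofReal_sub, Complex.norm_real]
        exact hd _
      rw [h4]
      exact mul_le_mul h5 (mul_le_mul_of_nonneg_left (pow_le_pow_left₀ (norm_nonneg _) hzR k) (by positivity))
        (mul_nonneg (by positivity) (pow_nonneg (norm_nonneg _) _)) hτ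

/-- the perturbed zero -/
private theorem Ea_zero {z : ℂ} (hz : ‖z‖ ≤ 636 / 1000) (hz0 : z ≠ 0) {a a' : ℕ → ℝ} (ha : ∀ k, |a k| ≤ 1) (ha' : ∀ k, |a' k| ≤ 1)
    (hd : ∀ k, |a' k - a k| ≤ 1 / 1000) (hk : 4 ≤ ‖mom 1 a z / z‖) {r : ℝ} (hr0 : 0 < r) (hr : r ≤ 1 / 2000)
    (hv : ‖fs a' z‖ ≤ 2 * r) :
    ∃ w : ℂ, ‖w - z‖ ≤ r ∧ fs a' w = 0 ∧ ‖fs a' z + mom 1 a z / z * (w - z)‖ ≤ 8 / 100 * r := by
  set κ : ℂ := mom 1 a z / z with hκ
  have hκ0 : κ ≠ 0 := by
    intro h0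
    rw [h0, norm_zero] at hk
    linarith
  have hnear : ∀ w w' : ℂ, ‖w - z‖ ≤ r → ‖w' - z‖ ≤ r → ‖fs a' w - fs a' w' - κ * (w - w')‖ ≤ 8 / 100 * ‖w - w'‖ := by
    intro w w' hw hw'
    refine (Ea_near hz hz0 ha ha' hd hr0.le (by linarith) hw hw').trans ?_
    refine mul_le_mul_of_nonneg_right ?_ (norm_nonneg _)
    linarith
  set T : ℂ → ℂ := fun w => w - fs a' w / κ with hT
  have hlip : ∀ w w' : ℂ, ‖w - z‖ ≤ r → ‖w' - z‖ ≤ r → ‖T w - T w'‖ ≤ 2 / 100 * ‖w - w'‖ := by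
    intro w w' hw hw'
    have h1 := hnear w w' hw hw'
    have e1 : T w - T w' = -(fs a' w - fs a' w' - κ * (w - w')) / κ := by
      show w - fs a' w / κ - (w' - fs a' w' / κ) = _
      field_simp
      ring
    rw [e1, norm_div, norm_neg, div_le_iff₀ (norm_pos_iff.2 hκ0)]
    have h2 := mul_le_mul_of_nonneg_left hk (norm_nonneg (w - w'))
    linarith
  have hTz : ‖T z - z‖ ≤ 1 / 2 * r := by
    have e1 : T z - z = -(fs a' z) / κ := by
      show z - fs a' z / κ - z = _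
      ring
    rw [e1, norm_div, norm_neg, div_le_iff₀ (norm_pos_iff.2 hκ0)]
    have h2 := mul_le_mul_of_nonneg_left hk hr0.le
    linarith
  have hmaps : Set.MapsTo T (Metric.closedBall z r) (Metric.closedBall z r) := by
    intro w hw
    rw [Metric.mem_closedBall, dist_eq_norm] at hw ⊢
    have h1 := hlip w z hw (by rw [sub_self, norm_zero]; exact hr0.le)
    have e1 : T w - z = (T w - T z) + (T z - z) := by ring
    rw [e1]
    refine (norm_add_le _ _).trans ?_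
    linarith
  have hcontr : ContractingWith (1 / 2) (hmaps.restrict T _ _) := by
    refine ⟨by norm_num, LipschitzWith.of_dist_le_mul fun x y => ?_⟩
    have hx := x.2
    have hy := y.2
    rw [Metric.mem_closedBall, dist_eq_norm] at hx hy
    have h1 := hlip x.1 y.1 hx hy
    rw [Subtype.dist_eq, Subtype.dist_eq, dist_eq_norm, dist_eq_norm]
    show ‖T x.1 - T y.1‖ ≤ _
    refine h1.trans (mul_le_mul_of_nonneg_right ?_ (norm_nonneg _))
    norm_num
  obtain ⟨y, hy, hfix, -⟩ := ContractingWith.exists_fixedPoint' (Metric.isClosed_closedBall.isComplete) hmaps hcontr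
    (Metric.mem_closedBall_self hr0.le : z ∈ Metric.closedBall z r) (edist_ne_top _ _)
  rw [Metric.mem_closedBall, dist_eq_norm] at hy
  have h1 : y - fs a' y / κ = y := hfix
  have h2 : fs a' y / κ = 0 := by linear_combination -h1
  have h3 : fs a' y = 0 := by
    rcases div_eq_zero_iff.1 h2 with h3 | h3
    · exact h3
    · exact absurd h3 hκ0
  refine ⟨y, hy, h3, ?_⟩
  have h4 := hnear y z hy (by rw [sub_self, norm_zero]; exact hr0.le)
  rw [h3] at h4
  have e1 : fs a' z + κ * (y - z) = -(0 - fs a' z - κ * (y - z)) := by ring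
  rw [e1, norm_neg]
  exact h4.trans (mul_le_mul_of_nonneg_left hy (by norm_num))

/-- one of two consecutive directions is good -/
private theorem Ea_dir {z ω : ℂ} (hre : |z.re| ≤ 38 / 100) (him : 51 / 100 ≤ z.im) (hz : ‖z‖ ≤ 64 / 100)
    (h : |ω.re| < 4 / 10 * ‖ω‖) : 4 / 10 * ‖z * ω‖ ≤ |(z * ω).re| := by
  have h0 := norm_nonneg ω
  have h1 : ‖ω‖ ^ 2 = ω.re ^ 2 + ω.im ^ 2 := by
    rw [← Complex.normSq_eq_norm_sq, Complex.normSq_apply]
    ring
  have h2 : 9 / 10 * ‖ω‖ ≤ |ω.im| := by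
    by_contra hlt
    push Not at hlt
    have h3 := sq_abs ω.re
    have h4 := sq_abs ω.im
    have h5 : |ω.re| ^ 2 ≤ (4 / 10 * ‖ω‖) ^ 2 := pow_le_pow_left₀ (abs_nonneg _) h.le 2
    have h6 : |ω.im| ^ 2 ≤ (9 / 10 * ‖ω‖) ^ 2 := pow_le_pow_left₀ (abs_nonneg _) hlt.le 2
    have h7 := abs_nonneg ω.re
    have h8 : 0 < ‖ω‖ := by
      by_contra h9
      push Not at h9
      nlinarith
    nlinarith [mul_pos h8 h8]
  have h3 : |z.re * ω.re| ≤ 38 / 100 * (4 / 10 * ‖ω‖) := by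
    rw [abs_mul]
    exact mul_le_mul hre h.le (abs_nonneg _) (by norm_num)
  have h4 : 51 / 100 * (9 / 10 * ‖ω‖) ≤ |z.im * ω.im| := by
    rw [abs_mul]
    exact mul_le_mul (him.trans (le_abs_self _)) h2 (by positivity) (abs_nonneg _)
  have h5 : |z.im * ω.im| ≤ |(z * ω).re| + |z.re * ω.re| := by
    have e1 : z.im * ω.im = -((z * ω).re) + z.re * ω.re := by
      rw [Complex.mul_re]
      ring
    rw [e1]
    refine (abs_add_le _ _).trans ?_
    rw [abs_neg]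
  have h6 : ‖z * ω‖ ≤ 64 / 100 * ‖ω‖ := by
    rw [norm_mul]
    exact mul_le_mul_of_nonneg_right hz h0
  linarith

private theorem Ea_rup : Pool.Agent.Helper62.Mandel.rup = (635606390391455492692046961204 : ℝ) / 10 ^ 30 := by
  norm_num [Pool.Agent.Helper62.Mandel.rup, Pool.Agent.Helper62.Mandel.rupN, Pool.Agent.Helper62.Mandel.den]

private theorem Ea_rho : (635 : ℝ) / 1000 ≤ rho := by
  obtain ⟨q, d, h⟩ := mi_exists
  rw [rho_eq h]
  have h1 := h.ext.lo
  have h2 : (635 : ℝ) / 1000 ≤ (635606390391455492692046961203 : ℝ) / 10 ^ 30 := by norm_num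
  linarith

private theorem Ea_rho1 : rho ≤ 1 := by
  obtain ⟨q, d, h⟩ := mi_exists
  rw [rho_eq h]
  have h1 := h.ext.up
  have h2 : (635606390391455492692046961204 : ℝ) / 10 ^ 30 ≤ 1 := by norm_num
  linarith

private theorem Ea_min {w : ℂ} (him : w.im ≠ 0) {c : ℕ → ℝ} (h0 : c 0 = 1) (hc : ∀ k, |c k| ≤ 1) (hv : Vanish c w) :
    rho ≤ ‖w‖ := by
  obtain ⟨q, d, h⟩ := mi_exists
  rw [rho_eq h]
  exact h.mn w him ⟨c, h0, hc, hv⟩

private theorem Ea_core {N : ℕ} {a : ℕ → ℝ} (h0 : a 0 = 1) (ha : ∀ k, |a k| ≤ 1) (hN : ∀ k, N < k → a k = 0) {z : ℂ}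
    (hre : 0 ≤ z.re) (him : 0 < z.im) (hup : ‖z‖ ≤ Pool.Agent.Helper62.Mandel.rup) (hv : Vanish a z) :
    rho + 1 / 10 ^ 5 * rho ^ N ≤ ‖z‖ := by
  have hz : ‖z‖ ≤ 636 / 1000 := by
    rw [Ea_rup] at hup
    have h2 : (635606390391455492692046961204 : ℝ) / 10 ^ 30 ≤ 636 / 1000 := by norm_num
    linarith
  have hrz := Ea_min him.ne' h0 ha hv
  have hr0 := Ea_rho
  have hzpos : 0 < ‖z‖ := by linarith
  have hz0 : z ≠ 0 := norm_pos_iff.1 hzpos
  obtain ⟨hl1, hl2⟩ := Pool.Agent.Helper62.Mandel.localization_coords him.ne' ⟨a, h0, ha, hv⟩ hup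
  rw [abs_of_nonneg hre, abs_lt] at hl1
  rw [abs_of_pos him, abs_lt] at hl2
  have hx0 : Pool.Agent.Helper62.Mandel.x0 ≤ 379 / 1000 := by
    unfold Pool.Agent.Helper62.Mandel.x0 Pool.Agent.Helper62.Mandel.q0re
    norm_num
  have hy0 : 5104 / 10000 ≤ Pool.Agent.Helper62.Mandel.y0 := by
    unfold Pool.Agent.Helper62.Mandel.y0 Pool.Agent.Helper62.Mandel.q0im
    norm_num
  have hsm : (1 : ℝ) / 10 ^ 28 ≤ 1 / 10000 := by norm_num
  have hzre : |z.re| ≤ 38 / 100 := by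
    rw [abs_of_nonneg hre]
    linarith
  have hzim : 51 / 100 ≤ z.im := by linarith
  -- the moment
  obtain ⟨b1, b2, -, -⟩ := Pool.Agent.Helper62.Mandel.moment_boxes hre him hup h0 ha hv
  set S : ℂ := mom 1 a z with hS
  have hSsq : ‖S‖ ^ 2 = S.re ^ 2 + S.im ^ 2 := by
    rw [← Complex.normSq_eq_norm_sq, Complex.normSq_apply]
    ring
  have hS1 : 29 / 10 ≤ ‖S‖ := by
    by_contra hlt
    push Not at hlt
    have h11 := norm_nonneg S
    have h7 := b1.2
    have h8 := b2.1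
    nlinarith
  have hS2 : ‖S‖ ≤ 3 := by
    by_contra hlt
    push Not at hlt
    have h7 := b1.1
    have h8 := b2.2
    have h9 := b1.2
    have h10 := b2.1
    nlinarith
  have hS0 : S ≠ 0 := by
    intro h
    rw [h, norm_zero] at hS1
    linarith
  have hkap : 4 ≤ ‖S / z‖ := by
    rw [norm_div, le_div_iff₀ hzpos]
    linarith
  -- the direction
  obtain ⟨m, hm1, hm2, hm3⟩ : ∃ m, N < m ∧ m ≤ N + 2 ∧ 4 / 10 * ‖z ^ m / S‖ ≤ |(z ^ m / S).re| := by
    by_cases hc : 4 / 10 * ‖z ^ (N + 1) / S‖ ≤ |(z ^ (N + 1) / S).re|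
    · exact ⟨N + 1, by omega, by omega, hc⟩
    · push Not at hc
      refine ⟨N + 2, by omega, by omega, ?_⟩
      have h1 := Ea_dir hzre hzim (by linarith) hc
      have e1 : z ^ (N + 2) / S = z * (z ^ (N + 1) / S) := by
        rw [show N + 2 = (N + 1) + 1 by ring, pow_succ]
        ring
      rw [e1]
      exact h1
  obtain ⟨t, ht1, ht2⟩ : ∃ t : ℝ, |t| = 1 / 1000 ∧ t * (z ^ m / S).re = 1 / 1000 * |(z ^ m / S).re| := by
    rcases le_total 0 (z ^ m / S).re with h | h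
    · refine ⟨1 / 1000, by norm_num, ?_⟩
      rw [abs_of_nonneg h]
    · refine ⟨-(1 / 1000), by norm_num, ?_⟩
      rw [abs_of_nonpos h]
      ring
  set a' : ℕ → ℝ := fun k => if k = m then t else a k with ha'
  have ham : a m = 0 := hN m hm1
  have ha'1 : ∀ k, |a' k| ≤ 1 := by
    intro k
    rw [ha']
    by_cases hk : k = m
    · simp only [if_pos hk]
      rw [ht1]
      norm_num
    · simp only [if_neg hk]
      exact ha k
  have ha'2 : ∀ k, |a' k - a k| ≤ 1 / 1000 := by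
    intro k
    rw [ha']
    by_cases hk : k = m
    · simp only [if_pos hk]
      rw [hk, ham, sub_zero, ht1]
    · simp only [if_neg hk]
      rw [sub_self, abs_zero]
      norm_num
  have ha'0 : a' 0 = 1 := by
    rw [ha']
    simp only [if_neg (show (0 : ℕ) ≠ m by omega)]
    exact h0
  have hval : fs a' z = t * z ^ m := by
    have h1 : HasSum (fun k : ℕ => (a k : ℂ) * z ^ k) 0 := hv
    have h2 : HasSum (fun k : ℕ => if k = m then (t : ℂ) * z ^ m else 0) ((t : ℂ) * z ^ m) := hasSum_ite_eq m ((t : ℂ) * z ^ m)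
    have h3 := h1.add h2
    rw [zero_add] at h3
    have h4 : HasSum (fun k : ℕ => (a' k : ℂ) * z ^ k) ((t : ℂ) * z ^ m) := by
      refine (congrArg (fun f => HasSum f ((t : ℂ) * z ^ m)) (funext fun k => ?_)).mp h3
      rw [ha']
      by_cases hk : k = m
      · subst hk
        simp only [if_pos rfl]
        rw [ham]
        simp
      · simp only [if_neg hk]
        rw [add_zero]
    exact h4.tsum_eq
  set r : ℝ := ‖z‖ ^ m / 2000 with hr
  have hrpos : 0 < r := by positivity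
  have hzm : ‖z‖ ^ m = 2000 * r := by
    rw [hr]
    ring
  have hr1 : r ≤ 1 / 2000 := by
    have h1 : ‖z‖ ^ m ≤ 1 := pow_le_one₀ (norm_nonneg _) (by linarith)
    rw [hr]
    linarith
  have htz : ‖(t : ℂ) * z ^ m‖ = 2 * r := by
    rw [norm_mul, norm_pow, Complex.norm_real, Real.norm_eq_abs, ht1, hzm]
    ring
  obtain ⟨w, hw1, hw2, hw3⟩ := Ea_zero hz hz0 ha ha'1 ha'2 hkap hrpos hr1 (by rw [hval, htz])
  rw [hval] at hw3
  have hwim : w.im ≠ 0 := by
    have h1 := (abs_le.1 ((Complex.abs_im_le_norm (w - z)).trans hw1)).1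
    rw [Complex.sub_im] at h1
    intro h
    rw [h] at h1
    linarith
  have hw1' : ‖w‖ < 1 := by
    have h1 := norm_sub_norm_le w z
    linarith
  have hvw : Vanish a' w := by
    have h1 := Ea_fs ha'1 hw1'
    rw [hw2] at h1
    exact h1
  have hrw := Ea_min hwim ha'0 ha'1 hvw
  set E : ℂ := (t : ℂ) * z ^ m + S / z * (w - z) with hE
  set v : ℂ := E / S - t * (z ^ m / S) with hvdef
  have hwv : w = z * (1 + v) := by
    rw [hvdef, hE]
    field_simp
    ring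
  have hn1 : ‖z ^ m / S‖ = 2000 * r / ‖S‖ := by
    rw [norm_div, norm_pow, hzm]
  have hES : ‖E / S‖ ≤ 8 / 100 * r / ‖S‖ := by
    rw [norm_div]
    exact div_le_div_of_nonneg_right hw3 (norm_nonneg _)
  have hSpos : 0 < ‖S‖ := by linarith
  have hq1 : r / 3 ≤ r / ‖S‖ := div_le_div_of_nonneg_left hrpos.le hSpos hS2
  have hq2 : r / ‖S‖ ≤ r / (29 / 10) := div_le_div_of_nonneg_left hrpos.le (by norm_num) hS1
  have hvre : v.re ≤ -(24 / 100) * r := by
    have h1 : v.re = (E / S).re - t * (z ^ m / S).re := by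
      rw [hvdef, Complex.sub_re, Complex.re_ofReal_mul]
    rw [h1, ht2]
    have h2 := (le_abs_self _).trans (Complex.abs_re_le_norm (E / S))
    rw [hn1] at hm3
    have e1 : 8 / 100 * r / ‖S‖ = 8 / 100 * (r / ‖S‖) := by ring
    have e2 : 2000 * r / ‖S‖ = 2000 * (r / ‖S‖) := by ring
    rw [e1] at hES
    rw [e2] at hm3
    linarith
  have hvn : ‖v‖ ≤ r := by
    have h1 : ‖(t : ℂ) * (z ^ m / S)‖ = 2 * (r / ‖S‖) := by
      rw [norm_mul, Complex.norm_real, Real.norm_eq_abs, ht1, hn1]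
      ring
    have h2 := norm_sub_le (E / S) ((t : ℂ) * (z ^ m / S))
    rw [h1] at h2
    have e1 : 8 / 100 * r / ‖S‖ = 8 / 100 * (r / ‖S‖) := by ring
    rw [e1] at hES
    have h3 : r / (29 / 10) = 10 / 29 * r := by ring
    rw [h3] at hq2
    rw [hvdef]
    linarith
  have hnorm : ‖1 + v‖ ≤ 1 - 2 / 10 * r := by
    refine le_of_sq_le_sq ?_ (by linarith)
    have e1 : ‖1 + v‖ ^ 2 = 1 + 2 * v.re + ‖v‖ ^ 2 := by
      rw [← Complex.normSq_eq_norm_sq, ← Complex.normSq_eq_norm_sq, Complex.normSq_apply, Complex.normSq_apply,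
        Complex.add_re, Complex.add_im, Complex.one_re, Complex.one_im]
      ring
    rw [e1]
    have h1 : ‖v‖ ^ 2 ≤ r ^ 2 := pow_le_pow_left₀ (norm_nonneg _) hvn 2
    nlinarith
  have hfin : ‖w‖ ≤ ‖z‖ * (1 - 2 / 10 * r) := by
    have h1 : ‖w‖ = ‖z‖ * ‖1 + v‖ := by
      rw [← norm_mul, ← hwv]
    rw [h1]
    exact mul_le_mul_of_nonneg_left hnorm (norm_nonneg _)
  have hpw : rho ^ N * (1 / 4) ≤ ‖z‖ ^ (m + 1) := by
    have h1 : rho ^ (m + 1) ≤ ‖z‖ ^ (m + 1) := pow_le_pow_left₀ (by linarith) hrz _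
    have h2 : rho ^ (N + 3) ≤ rho ^ (m + 1) := pow_le_pow_of_le_one (by linarith) Ea_rho1 (by omega)
    have h3 : (1 : ℝ) / 4 ≤ rho ^ 3 := by
      have h4 : (635 / 1000 : ℝ) ^ 3 ≤ rho ^ 3 := pow_le_pow_left₀ (by norm_num) hr0 3
      norm_num at h4 ⊢
      linarith
    have h5 : rho ^ N * (1 / 4) ≤ rho ^ N * rho ^ 3 := mul_le_mul_of_nonneg_left h3 (pow_nonneg (by linarith) _)
    rw [← pow_add] at h5
    linarith
  have e2 : ‖z‖ * (1 - 2 / 10 * r) = ‖z‖ - 1 / 10000 * ‖z‖ ^ (m + 1) := by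
    rw [hr, pow_succ]
    ring
  rw [e2] at hfin
  have h9 : (0 : ℝ) ≤ rho ^ N := pow_nonneg (by linarith) _
  have h10 : (1 : ℝ) / 10 ^ 5 * rho ^ N ≤ 1 / 10000 * (rho ^ N * (1 / 4)) := by
    norm_num
    linarith
  linarith

/-- **part (E)**: non-real zeros of polynomials with coefficients in `[-1, 1]` -/
theorem lowerb : ∃ c : ℝ, 0 < c ∧ ∀ (N : ℕ) (a : ℕ → ℝ), a 0 = 1 → (∀ k, |a k| ≤ 1) → (∀ k, N < k → a k = 0) →
    ∀ z : ℂ, z.im ≠ 0 → Vanish a z → rho + c * rho ^ N ≤ ‖z‖ := by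
  obtain ⟨q, d, h⟩ := mi_exists
  have hgap : 0 < Pool.Agent.Helper62.Mandel.rup - rho := by
    rw [rho_eq h, Ea_rup]
    have := h.ext.up
    linarith
  refine ⟨min (Pool.Agent.Helper62.Mandel.rup - rho) (1 / 10 ^ 5), lt_min hgap (by norm_num), ?_⟩
  intro N a h0 ha hN z him hv
  have hr0 := Ea_rho
  have hp0 : 0 ≤ rho ^ N := pow_nonneg (by linarith) _
  have hp1 : rho ^ N ≤ 1 := pow_le_one₀ (by linarith) Ea_rho1
  rcases le_total (‖z‖) Pool.Agent.Helper62.Mandel.rup with hup | hup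
  · have key : rho + 1 / 10 ^ 5 * rho ^ N ≤ ‖z‖ := by
      rcases le_total 0 z.re with h1 | h1 <;> rcases lt_or_gt_of_ne him with h2 | h2
      · have h3 := Ea_core (N := N) (z := conj z) h0 ha hN (by rwa [Complex.conj_re]) (by rw [Complex.conj_im]; linarith)
          (by rwa [Complex.norm_conj]) (Pool.Agent.Helper62.Mandel.Vanish.conj hv)
        rwa [Complex.norm_conj] at h3
      · exact Ea_core (N := N) h0 ha hN h1 h2 hup hv
      · have h3 := Ea_core (N := N) (a := fun k => (-1) ^ k * a k) (z := -z) (by simp [h0]) (fun k => by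
            rw [abs_mul, abs_pow, abs_neg, abs_one, one_pow, one_mul]
            exact ha k) (fun k hk => by simp [hN k hk]) (by rw [Complex.neg_re]; linarith) (by rw [Complex.neg_im]; linarith)
          (by rwa [norm_neg]) (Pool.Agent.Helper62.Mandel.Vanish.neg hv)
        rwa [norm_neg] at h3
      · have h3 := Ea_core (N := N) (a := fun k => (-1) ^ k * a k) (z := -(conj z)) (by simp [h0]) (fun k => by
            rw [abs_mul, abs_pow, abs_neg, abs_one, one_pow, one_mul]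
            exact ha k) (fun k hk => by simp [hN k hk]) (by rw [Complex.neg_re, Complex.conj_re]; linarith)
          (by rw [Complex.neg_im, Complex.conj_im]; linarith)
          (by rwa [norm_neg, Complex.norm_conj]) (Pool.Agent.Helper62.Mandel.Vanish.neg (Pool.Agent.Helper62.Mandel.Vanish.conj hv))
        rwa [norm_neg, Complex.norm_conj] at h3
    have h3 := mul_le_mul_of_nonneg_right (min_le_right (Pool.Agent.Helper62.Mandel.rup - rho) (1 / 10 ^ 5)) hp0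
    linarith
  · have h3 := mul_le_mul_of_nonneg_right (min_le_left (Pool.Agent.Helper62.Mandel.rup - rho) (1 / 10 ^ 5)) hp0
    have h4 := mul_le_mul_of_nonneg_left hp1 hgap.le
    linarith

end Pool.Agent.RTW
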