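import Pool.Agent.RTW.Defs
import Pool.Agent.QH.FpA
import Pool.Agent.G4.UPAuto
import Pool.Agent.PQE.Num

set_option autoImplicit false

/-!
# RTW/FpW: polynomial time: the words

The functions `uu`, `rr`, `cc`, `dgc`, `trp`, `trg`, `kk` and `wds` are computable in polynomial time.
-/

namespace Pool.Agent.RTW

open Pool.Agent.PQE Pool.Agent.FRN Pool.Agent.TRN

open Turing Function N487b59b3 N68a2faeb Pool.Agent.Helper22 Pool.Agent.Helper6.WB Pool.Agent.Helper49.Cons
open Pool.Agent.BEO Pool.Agent.PQE Pool.Agent.G4 Pool.Agent.FRN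

section

variable {α : Type} [N487b59b3 α]

private theorem fpw_uu {x : α → List Bool} (hx : FP x) : FP fun a => uu (x a) :=
  FP.append hx (FP.append hx (FP.const _))

private theorem fpw_rr {x : α → List Bool} (hx : FP x) : FP fun a => rr (x a) := by
  have h := fpw_uu hx
  exact FP.range (FP.append h (FP.append h (FP.append h (FP.append h (FP.const _)))))

private theorem fpw_cc {x : α → List Bool} (hx : FP x) : FP fun a => cc (x a) :=
  FP.flatMapA (h := fun a _ => rr (x a)) ((fpw_rr hx).comp FP.fst) (fpw_rr hx)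

private theorem fpw_lt {f g : α → ℕ} (hf : FP f) (hg : FP g) : FP fun a => decide (f a < g a) := by
  refine (congrArg FP (funext fun a => ?_)).mp (FP.not (Pool.Agent.Helper47.TR.FP.natLe hg hf))
  rw [Bool.eq_iff_iff]
  simp

private theorem fpw_dgc {C : α → List ℕ} {t : α → ℕ × (ℕ × ℕ)} {k : α → ℕ} (hC : FP C) (ht : FP t) (hk : FP k) :
    FP fun a => dgc (C a) (t a) (k a) := by
  have h1 : FP fun a => (t a).1 := FP.fst.comp ht
  have h2 : FP fun a => (t a).2.1 := FP.fst.comp (FP.snd.comp ht)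
  have h3 : FP fun a => (t a).2.2 := FP.snd.comp (FP.snd.comp ht)
  exact fpw_lt (Pool.Agent.QH.fp_mod (FP.natAdd (FP.natMul h1 hk) h3) (FP.natMul (FP.const 2) h2) hC) h2

private theorem fpw_trp {R : α → List ℕ} (hR : FP R) : FP fun a => trp (R a) := by
  unfold trp
  refine FP.flatMapA (h := fun x a => (R x).flatMap fun b => (R x).map fun c => (a, (b, c))) ?_ hR
  refine FP.flatMapA (h := fun (p : α × ℕ) b => (R p.1).map fun c => (p.2, (b, c))) ?_ (hR.comp FP.fst)
  refine FP.mapA (h := fun (q : (α × ℕ) × ℕ) c => (q.1.2, (q.2, c))) ?_ (hR.comp (FP.fst.comp FP.fst))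
  fun_prop

private theorem fpw_trg {x : α → List Bool} (hx : FP x) : FP fun a => trg (x a) := by
  unfold trg
  refine FP.filterA (h := fun a t => decide (((List.range 130).map fun k => dgc (cc (x a)) t (k + 1)) = pt)) ?_
    (fpw_trp (fpw_rr hx))
  refine FP.eqD (FP.mapA (h := fun (p : α × (ℕ × (ℕ × ℕ))) k => dgc (cc (x p.1)) p.2 (k + 1)) ?_ (FP.const _)) (FP.const _)
  exact fpw_dgc (C := fun q : (α × (ℕ × (ℕ × ℕ))) × ℕ => cc (x q.1.1)) (t := fun q => q.1.2) (k := fun q => q.2 + 1)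
    ((fpw_cc hx).comp (FP.fst.comp FP.fst)) (FP.snd.comp FP.fst) (FP.natAdd FP.snd (FP.const 1))

private theorem fpw_kk {x : α → List Bool} (hx : FP x) : FP fun a => kk (x a) :=
  FP.reverse (FP.mapA (h := fun _ k => k + 1) (FP.natAdd FP.snd (FP.const 1)) (FP.range (fpw_uu hx)))

theorem fp_wds {x : α → List Bool} (hx : FP x) : FP fun a => wds (x a) := by
  unfold wds
  refine FP.mapA (h := fun a t => (kk (x a)).map fun k => dgc (cc (x a)) t k) ?_ (fpw_trg hx)
  refine FP.mapA (h := fun (p : α × (ℕ × (ℕ × ℕ))) k => dgc (cc (x p.1)) p.2 k) ?_ ((fpw_kk hx).comp FP.fst)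
  exact fpw_dgc (C := fun q : (α × (ℕ × (ℕ × ℕ))) × ℕ => cc (x q.1.1)) (t := fun q => q.1.2) (k := fun q => q.2)
    ((fpw_cc hx).comp (FP.fst.comp FP.fst)) (FP.snd.comp FP.fst) FP.snd

end

end Pool.Agent.RTW
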