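import Pool.Agent.RTW.FpS
import Pool.Agent.RTW.FpW
import Pool.Agent.FRN.FpR

set_option autoImplicit false

/-!
# RTW/FpF: polynomial time: the functions

PROOF PLAN.  Tools: `fun_prop` after `open Pool.Agent.G4` (G4/UPAuto: maps, filters, flatMap, conditions, `FP.eqD`; `FP.foldA` with a bound on the sizes of the states, `foldl_take_ind`), PQE/Zf (`FP.zadd`, `FP.zmul`), PQE/Num (`FP.natSub`), Helper6/WB/Arith (`FP.natAdd`, `FP.natMul`, `FP.range`, `FP.reverse`), Helper47/TR/FPx (`FP.natLe`, `FP.length`).  See FRN/FpD, FRN/FpR for examples.  Compositions: `fp_wds`, `fp_rn`, `fp_am`, `fp_rt4`, `fp_dv4` (FRN/FpR); then `(isPolyTime_iff _).2`.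
-/

namespace Pool.Agent.RTW

open Pool.Agent.PQE Pool.Agent.FRN Pool.Agent.TRN

open Turing Function N487b59b3 N68a2faeb Pool.Agent.Helper22 Pool.Agent.Helper6.WB Pool.Agent.Helper49.Cons
open Pool.Agent.BEO Pool.Agent.PQE Pool.Agent.G4 Pool.Agent.FRN

section

variable {α : Type} [N487b59b3 α]

private theorem FpF_nn {p : α → ℕ × ℕ} (hp : FP p) : FP fun a => nn (p a) := by
  have h1 : FP fun a => (p a).1 := FP.fst.comp hp
  have h2 : FP fun a => (p a).2 := FP.snd.comp hp
  exact FP.natAdd (FP.natMul h1 h1) (FP.natMul h2 h2)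

private theorem FpF_pts {x : α → List Bool} (hx : FP x) : FP fun a => pts (x a) := by
  have h : FP fun x : List Bool => pts x := by
    have h1 : FP fun q : List Bool × List Bool => (rn q.1 q.2).2 := FP.snd.comp (fp_rn FP.fst FP.snd)
    exact FP.mapA (h := fun (x w : List Bool) => (rn x w).2) h1 (fp_wds FP.id)
  exact h.comp hx

private theorem FpF_ss {x : α → List Bool} (hx : FP x) : FP fun a => ss (x a) := by
  have h : FP fun x : List Bool => ss x := by
    have h1 : FP fun q : List Bool × (ℕ × ℕ) => (nn q.2, q.2) := FP.pair (FpF_nn FP.snd) FP.snd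
    have h2 : FP fun x : List Bool => (pts x).map fun p => (nn p, p) :=
      FP.mapA (h := fun (_ : List Bool) (p : ℕ × ℕ) => (nn p, p)) h1 (FpF_pts FP.id)
    have h3 : FP fun x : List Bool => (am ((pts x).map fun p => (nn p, p))).1 := FP.fst.comp (fp_am h2)
    exact fp_rt4 (FP.natMul h3 h3)
  exact h.comp hx

theorem poly_fF : IsPolyTime fF := by
  refine (isPolyTime_iff _).2 ?_
  exact fp_dv4 (FP.const (List.range 35)) (FP.natAdd (FpF_ss FP.id) (FP.const 590295810358705651712))

theorem poly_gF : IsPolyTime gF := by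
  refine (isPolyTime_iff _).2 ?_
  have h1 : FP fun q : List Bool × (ℕ × ℕ) => ss q.1 + 3 := FP.natAdd (FpF_ss FP.fst) (FP.const 3)
  have h2 : FP fun q : List Bool × (ℕ × ℕ) => decide (nn q.2 ≤ (ss q.1 + 3) * (ss q.1 + 3)) :=
    Pool.Agent.Helper47.TR.FP.natLe (FpF_nn FP.snd) (FP.natMul h1 h1)
  exact FP.filterA (h := fun (x : List Bool) (p : ℕ × ℕ) => decide (nn p ≤ (ss x + 3) * (ss x + 3))) h2 (FpF_pts FP.id)

end

end Pool.Agent.RTW
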