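import Pool.Agent.RTW.Defs
import Pool.Agent.G4.UPAuto
import Pool.Agent.PQE.Num

set_option autoImplicit false

/-!
# RTW/FpH: polynomial time: the scheme of Horner

PROOF PLAN.  Tools: `fun_prop` after `open Pool.Agent.G4` (G4/UPAuto: maps, filters, flatMap, conditions, `FP.eqD`; `FP.foldA` with a bound on the sizes of the states, `foldl_take_ind`), PQE/Zf (`FP.zadd`, `FP.zmul`), PQE/Num (`FP.natSub`), Helper6/WB/Arith (`FP.natAdd`, `FP.natMul`, `FP.range`, `FP.reverse`), Helper47/TR/FPx (`FP.natLe`, `FP.length`).  See FRN/FpD, FRN/FpR for examples.  `hrn`: `FP.foldA` with context `(D, X, Y)`; after `i` steps the state `(V, E)` has `E = D ^ i` and (by induction) `nz V.1 + nz V.2 ≤ (nz-size)`: `nz (gm Z V).1 + nz (gm Z V).2 ≤ 2 (X + Y) (nz V.1 + nz V.2)` (`nz_mul`, `nz_add`), so `nz V.1 + nz V.2 + E ≤ (2 (X + Y) + D + 1) ^ i`: sizes at most `i * (size X + size Y + size D + 4)` (`sz_of_nz`).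
-/

namespace Pool.Agent.RTW

open Pool.Agent.PQE Pool.Agent.FRN Pool.Agent.TRN

open Turing Function N487b59b3 N68a2faeb Pool.Agent.Helper22 Pool.Agent.Helper6.WB Pool.Agent.Helper49.Cons
open Pool.Agent.BEO Pool.Agent.PQE Pool.Agent.G4 Pool.Agent.FRN

section

variable {α : Type} [N487b59b3 α]

private theorem fph_nz_ng (a : In) : nz (ng a) = nz a := by
  simp only [nz, ng]
  omega

private theorem fph_gm {f g : α → Gz} (hf : FP f) (hg : FP g) : FP fun a => gm (f a) (g a) := by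
  unfold gm ng
  fun_prop

private theorem fph_za {f : α → In} (hf : FP f) : FP fun a => za (f a) := by
  unfold za
  fun_prop

/-- bound for the states of the scheme of Horner -/
private theorem fph_bd (D X Y i : ℕ) (s : Gz × ℕ) (e : Bool)
    (h : nz s.1.1 + nz s.1.2 + s.2 ≤ (X + Y + D + 1) ^ i) :
    nz (hst D ((X, 0), (Y, 0)) s e).1.1 + nz (hst D ((X, 0), (Y, 0)) s e).1.2 +
      (hst D ((X, 0), (Y, 0)) s e).2 ≤ (X + Y + D + 1) ^ (i + 1) := by
  have h1 : nz (hst D ((X, 0), (Y, 0)) s e).1.1 = X * nz s.1.1 + Y * nz s.1.2 + s.2 := by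
    simp only [hst, gm, nz_add, fph_nz_ng, nz_mul]
    cases e <;> simp [nz]
  have h2 : nz (hst D ((X, 0), (Y, 0)) s e).1.2 = X * nz s.1.2 + Y * nz s.1.1 := by
    simp only [hst, gm, nz_add, nz_mul]
    simp [nz]
  have h3 : (hst D ((X, 0), (Y, 0)) s e).2 = s.2 * D := rfl
  rw [h1, h2, h3, pow_succ]
  have h4 := Nat.mul_le_mul_right (X + Y + D + 1) h
  nlinarith [Nat.zero_le (nz s.1.1 * D), Nat.zero_le (nz s.1.2 * D), Nat.zero_le (s.2 * X),
    Nat.zero_le (s.2 * Y), Nat.zero_le (nz s.1.1), Nat.zero_le (nz s.1.2)]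

private theorem fph_sz (D X Y i : ℕ) (s : Gz × ℕ)
    (h : nz s.1.1 + nz s.1.2 + s.2 ≤ (X + Y + D + 1) ^ i) :
    sz s ≤ 19 * (i * (X.size + Y.size + D.size) + 1) + 9 := by
  have h1 : X + Y + D + 1 ≤ 2 ^ (X.size + Y.size + D.size) := by
    have hX := Nat.lt_size_self X
    have hY := Nat.lt_size_self Y
    have hD := Nat.lt_size_self D
    have h2 : (X + 1) * (Y + 1) * (D + 1) ≤ 2 ^ X.size * 2 ^ Y.size * 2 ^ D.size :=
      Nat.mul_le_mul (Nat.mul_le_mul hX hY) hD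
    rw [pow_add, pow_add]
    refine le_trans ?_ h2
    nlinarith [Nat.zero_le (X * Y * D), Nat.zero_le (X * Y), Nat.zero_le (X * D), Nat.zero_le (Y * D)]
  set L := X.size + Y.size + D.size with hL
  have h3 : (X + Y + D + 1) ^ i ≤ 2 ^ (i * L) := by
    rw [mul_comm i L, pow_mul]
    exact Nat.pow_le_pow_left h1 i
  have h4 : nz s.1.1 + nz s.1.2 + s.2 < 2 ^ (i * L + 1) := by
    rw [pow_succ]
    have h5 : 0 < 2 ^ (i * L) := by positivity
    omega
  obtain ⟨⟨u, v⟩, E⟩ := s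
  simp only at h4
  have h5 := sz_of_nz (a := u) (E := i * L + 1) (by omega)
  have h6 := sz_of_nz (a := v) (E := i * L + 1) (by omega)
  have h7 : E.size ≤ i * L + 1 := Nat.size_le.2 (by omega)
  rw [sz_pair, sz_pair, sz_nat]
  omega

private theorem fph_hrn : FP fun p : List Bool × (ℕ × (ℕ × ℕ)) =>
    hrn p.2.1 ((p.2.2.1, 0), (p.2.2.2, 0)) p.1 := by
  unfold hrn
  refine FP.foldA (g := fun (p : List Bool × (ℕ × (ℕ × ℕ))) (s : Gz × ℕ) (e : Bool) =>
    hst p.2.1 ((p.2.2.1, 0), (p.2.2.2, 0)) s e) ?_ (B := fun n => 19 * (n * (n + n + n) + 1) + 9)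
    (by fun_prop) (by fun_prop) (by fun_prop) ?_
  · unfold hst
    have h1 : FP fun p : (List Bool × (ℕ × (ℕ × ℕ))) × ((Gz × ℕ) × Bool) =>
        gm ((p.1.2.2.1, 0), (p.1.2.2.2, 0)) p.2.1.1 := fph_gm (by fun_prop) (by fun_prop)
    have h2 : FP fun p : (List Bool × (ℕ × (ℕ × ℕ))) × ((Gz × ℕ) × Bool) =>
        (if p.2.2 then (p.2.1.2, 0) else (0, p.2.1.2) : In) := FP.ite (by fun_prop) (by fun_prop) (by fun_prop)
    exact (((FP.zadd (FP.comp FP.fst h1) h2).pair (FP.comp FP.snd h1))).pair (by fun_prop)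
  · rintro ⟨w, D, X, Y⟩ i hi
    have h1 := foldl_take_ind (P := fun i (s : Gz × ℕ) =>
      nz s.1.1 + nz s.1.2 + s.2 ≤ (X + Y + D + 1) ^ i) (g := hst D ((X, 0), (Y, 0))) (l := w)
      (x := (((0, 0), (0, 0)), 1)) (by simp [nz]) (fun i s b _ h => fph_bd D X Y i s b h) i hi
    refine (fph_sz D X Y i _ h1).trans ?_
    have hw : w.length ≤ sz w := length_le_sz _
    have h2 : sz (w, D, X, Y) = 2 * sz w + 1 + (2 * D.size + 1 + (2 * X.size + 1 + Y.size)) := by
      rw [sz_pair, sz_pair, sz_pair, sz_nat, sz_nat, sz_nat]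
    simp only at hi
    have h3 : i ≤ sz (w, D, X, Y) := by omega
    have h4 : X.size + Y.size + D.size ≤ sz (w, D, X, Y) + sz (w, D, X, Y) + sz (w, D, X, Y) := by omega
    have h5 := Nat.mul_le_mul h3 h4
    omega

theorem fp_nv {w : α → List Bool} {D X Y : α → ℕ} (hw : FP w) (hD : FP D) (hX : FP X) (hY : FP Y) :
    FP fun a => nv (w a) (D a) (X a) (Y a) := by
  have h1 : FP fun a => hrn (D a) ((X a, 0), (Y a, 0)) (w a) :=
    FP.comp (f := fun a => (w a, (D a, (X a, Y a)))) fph_hrn (hw.pair (hD.pair (hX.pair hY)))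
  have h2 : FP fun a => gm ((X a, 0), (Y a, 0)) (hrn (D a) ((X a, 0), (Y a, 0)) (w a)).1 :=
    fph_gm (by fun_prop) (FP.comp FP.fst h1)
  have h3 : FP fun a => za (((hrn (D a) ((X a, 0), (Y a, 0)) (w a)).2, 0) +
      ng (gm ((X a, 0), (Y a, 0)) (hrn (D a) ((X a, 0), (Y a, 0)) (w a)).1).1) := by
    refine fph_za (FP.zadd ?_ ?_)
    · exact (FP.comp FP.snd h1).pair (by fun_prop)
    · unfold ng
      exact (FP.comp FP.snd (FP.comp FP.fst h2)).pair (FP.comp FP.fst (FP.comp FP.fst h2))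
  have h4 : FP fun a => za (gm ((X a, 0), (Y a, 0)) (hrn (D a) ((X a, 0), (Y a, 0)) (w a)).1).2 :=
    fph_za (FP.comp FP.snd h2)
  exact FP.natAdd (FP.natMul h3 h3) (FP.natMul h4 h4)

end

end Pool.Agent.RTW
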