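import Pool.Agent.RTW.FpH
import Pool.Agent.Helper47.TR.FPx

set_option autoImplicit false

/-!
# RTW/FpS: polynomial time: the refinement

PROOF PLAN.  Tools: `fun_prop` after `open Pool.Agent.G4` (G4/UPAuto: maps, filters, flatMap, conditions, `FP.eqD`; `FP.foldA` with a bound on the sizes of the states, `foldl_take_ind`), PQE/Zf (`FP.zadd`, `FP.zmul`), PQE/Num (`FP.natSub`), Helper6/WB/Arith (`FP.natAdd`, `FP.natMul`, `FP.range`, `FP.reverse`), Helper47/TR/FPx (`FP.natLe`, `FP.length`).  See FRN/FpD, FRN/FpR for examples.  `fp_am`: as `FpD_amin` in FRN/FpD (fold; the state is the start element or an element of the list).  `cnd`: map over the constant list `ofs`.  `rn`: `FP.foldA` over `x` with context `w`: the state after `i` steps has `s.1 = 2 ^ (70 + i)` and `s.2.1 + 2 ≤ 2 ^ i * (X00 + 2)`, the same for `s.2.2`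
(the candidates are at most `2 X + 2`; `am` of a nonempty list is an element), so sizes at most `i + 72`.
-/

namespace Pool.Agent.RTW

open Pool.Agent.PQE Pool.Agent.FRN Pool.Agent.TRN

open Turing Function N487b59b3 N68a2faeb Pool.Agent.Helper22 Pool.Agent.Helper6.WB Pool.Agent.Helper49.Cons
open Pool.Agent.BEO Pool.Agent.PQE Pool.Agent.G4 Pool.Agent.FRN

section

variable {α : Type} [N487b59b3 α]

private theorem FpS_lt {f g : α → ℕ} (hf : FP f) (hg : FP g) : FP fun a => decide (f a < g a) := by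
  have h := FP.not (Pool.Agent.Helper47.TR.FP.natLe hg hf)
  refine (congrArg FP (funext fun a => ?_)).mp h
  rw [Bool.eq_iff_iff]
  simp

private theorem FpS_foldmin {β : Type} (g : β → β → β) (hg : ∀ m p, g m p = m ∨ g m p = p) (P : β → Prop)
    (l : List β) (x : β) (hl : ∀ p ∈ l, P p) (hx : P x) : P (l.foldl g x) := by
  induction l generalizing x with
  | nil => exact hx
  | cons b l ih =>
    rw [List.foldl_cons]
    refine ih _ (fun p hp => hl p (List.mem_cons_of_mem _ hp)) ?_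
    rcases hg x b with h | h
    · rw [h]
      exact hx
    · rw [h]
      exact hl b List.mem_cons_self

private theorem FpS_step (m p : ℕ × (ℕ × ℕ)) : (if decide (p.1 < m.1) then p else m) = m ∨
    (if decide (p.1 < m.1) then p else m) = p := by
  split_ifs
  · exact Or.inr rfl
  · exact Or.inl rfl

private theorem FpS_am : FP fun l : List (ℕ × (ℕ × ℕ)) => am l := by
  have h0 : FP fun p : List (ℕ × (ℕ × ℕ)) × ((ℕ × (ℕ × ℕ)) × (ℕ × (ℕ × ℕ))) =>
      (fun (_ : List (ℕ × (ℕ × ℕ))) (m p : ℕ × (ℕ × ℕ)) => if decide (p.1 < m.1) then p else m) p.1 p.2.1 p.2.2 :=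
    FP.ite (FpS_lt (by fun_prop) (by fun_prop)) (by fun_prop) (by fun_prop)
  refine FP.foldA h0 (B := fun n => n + sz ((0, (0, 0)) : ℕ × (ℕ × ℕ))) (by fun_prop) FP.id (by fun_prop) ?_
  intro l i _
  refine FpS_foldmin _ FpS_step (fun p => sz p ≤ sz l + sz ((0, (0, 0)) : ℕ × (ℕ × ℕ))) _ _ ?_ ?_
  · intro p hp
    have h2 := sz_le_of_mem (List.mem_of_mem_take hp)
    omega
  · have h2 := sz_headD l ((0, (0, 0)) : ℕ × (ℕ × ℕ))
    have h3 := max_le_add_of_nonneg (Nat.zero_le (sz l)) (Nat.zero_le (sz ((0, (0, 0)) : ℕ × (ℕ × ℕ))))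
    omega

theorem fp_am {l : α → List (ℕ × (ℕ × ℕ))} (hl : FP l) : FP fun a => am (l a) :=
  FpS_am.comp hl

/-- the candidates -/
private theorem FpS_cnd : FP fun q : List Bool × (ℕ × (ℕ × ℕ)) => cnd q.1 q.2 := by
  unfold cnd
  refine FP.mapA ?_ (FP.const _)
  have h2 : FP fun p : (List Bool × (ℕ × (ℕ × ℕ))) × (ℕ × ℕ) => 2 * p.1.2.1 :=
    FP.natMul (FP.const 2) (by fun_prop)
  have hX : FP fun p : (List Bool × (ℕ × (ℕ × ℕ))) × (ℕ × ℕ) => 2 * p.1.2.2.1 + p.2.1 - 2 :=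
    FP.natSub (FP.natAdd (FP.natMul (FP.const 2) (by fun_prop)) (by fun_prop)) (FP.const 2)
  have hY : FP fun p : (List Bool × (ℕ × (ℕ × ℕ))) × (ℕ × ℕ) => 2 * p.1.2.2.2 + p.2.2 - 2 :=
    FP.natSub (FP.natAdd (FP.natMul (FP.const 2) (by fun_prop)) (by fun_prop)) (FP.const 2)
  have hw : FP fun p : (List Bool × (ℕ × (ℕ × ℕ))) × (ℕ × ℕ) => p.1.1 := by fun_prop
  exact FP.pair (fp_nv hw h2 hX hY) (FP.pair hX hY)

private theorem FpS_stp : FP fun q : List Bool × (ℕ × (ℕ × ℕ)) => stp q.1 q.2 := by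
  unfold stp
  exact FP.pair (FP.natMul (FP.const 2) (by fun_prop)) (FP.snd' (fp_am FpS_cnd))

/-- the candidates are small -/
private theorem FpS_mem (w : List Bool) (s : ℕ × (ℕ × ℕ)) (p : ℕ × (ℕ × ℕ)) (hp : p ∈ cnd w s) :
    p.2.1 ≤ 2 * s.2.1 + 2 ∧ p.2.2 ≤ 2 * s.2.2 + 2 := by
  unfold cnd at hp
  obtain ⟨o, ho, rfl⟩ := List.mem_map.1 hp
  have h1 : o.1 ≤ 4 ∧ o.2 ≤ 4 := by
    have h : ∀ o ∈ ofs, o.1 ≤ 4 ∧ o.2 ≤ 4 := by decide
    exact h o ho
  constructor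
  · show 2 * s.2.1 + o.1 - 2 ≤ 2 * s.2.1 + 2
    omega
  · show 2 * s.2.2 + o.2 - 2 ≤ 2 * s.2.2 + 2
    omega

private theorem FpS_amle (w : List Bool) (s : ℕ × (ℕ × ℕ)) :
    (am (cnd w s)).2.1 ≤ 2 * s.2.1 + 2 ∧ (am (cnd w s)).2.2 ≤ 2 * s.2.2 + 2 := by
  unfold am
  refine FpS_foldmin _ FpS_step (fun p => p.2.1 ≤ 2 * s.2.1 + 2 ∧ p.2.2 ≤ 2 * s.2.2 + 2) _ _
    (fun p hp => FpS_mem w s p hp) ?_
  cases h : cnd w s with
  | nil => exact ⟨Nat.zero_le _, Nat.zero_le _⟩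
  | cons b l =>
    rw [List.headD_cons]
    exact FpS_mem w s b (by rw [h]; exact List.mem_cons_self)

/-- invariant of the states -/
private def FpS_inv (i : ℕ) (s : ℕ × (ℕ × ℕ)) : Prop :=
  s.1 = 2 ^ (70 + i) ∧ s.2.1 + 2 ≤ 2 ^ (70 + i) ∧ s.2.2 + 2 ≤ 2 ^ (70 + i)

private theorem FpS_inv0 : FpS_inv 0 st0 := by
  unfold FpS_inv st0
  norm_num

private theorem FpS_dbl {X Y A : ℕ} (h : Y ≤ 2 * X + 2) (h1 : X + 2 ≤ A) : Y + 2 ≤ 2 * A := by
  omega

private theorem FpS_invs (w : List Bool) (i : ℕ) (s : ℕ × (ℕ × ℕ)) (h : FpS_inv i s) : FpS_inv (i + 1) (stp w s) := by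
  obtain ⟨h1, h2, h3⟩ := h
  obtain ⟨h4, h5⟩ := FpS_amle w s
  have h6 : 2 ^ (70 + (i + 1)) = 2 * 2 ^ (70 + i) := by
    rw [← Nat.add_assoc, pow_succ, Nat.mul_comm]
  have h7 : (stp w s).1 = 2 * s.1 := by rw [stp]
  have h8 : (stp w s).2 = (am (cnd w s)).2 := by rw [stp]
  unfold FpS_inv
  rw [h6, h7, h8, h1]
  exact ⟨rfl, FpS_dbl h4 h2, FpS_dbl h5 h3⟩

private theorem FpS_size (i : ℕ) (s : ℕ × (ℕ × ℕ)) (h : FpS_inv i s) : sz s ≤ 5 * i + 400 := by
  obtain ⟨h1, h2, h3⟩ := h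
  have e : s = (s.1, (s.2.1, s.2.2)) := rfl
  have h4 : Nat.size s.1 ≤ 71 + i := by
    rw [Nat.size_le, h1]
    exact Nat.pow_lt_pow_right (by norm_num) (by omega)
  have h5 : Nat.size s.2.1 ≤ 70 + i := by
    rw [Nat.size_le]
    exact lt_of_lt_of_le (by omega) h2
  have h6 : Nat.size s.2.2 ≤ 70 + i := by
    rw [Nat.size_le]
    exact lt_of_lt_of_le (by omega) h3
  rw [e, sz_pair, sz_pair, sz_nat, sz_nat, sz_nat]
  omega

private theorem FpS_rn : FP fun q : List Bool × List Bool => rn q.1 q.2 := by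
  refine FP.foldA (g := fun (q : List Bool × List Bool) (s : ℕ × (ℕ × ℕ)) (_ : Bool) => stp q.2 s) ?_
    (B := fun n => 5 * n + 400) (by fun_prop) FP.fst (FP.const st0) ?_
  · exact FpS_stp.comp (f := fun p : (List Bool × List Bool) × ((ℕ × (ℕ × ℕ)) × Bool) => (p.1.2, p.2.1))
      (by fun_prop)
  · rintro ⟨x, w⟩ i hi
    have h := foldl_take_ind (P := FpS_inv) (g := fun (s : ℕ × (ℕ × ℕ)) (_ : Bool) => stp w s)
      (l := x) (x := st0) FpS_inv0 (fun i s b _ hs => FpS_invs w i s hs) i hi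
    refine (FpS_size i _ h).trans ?_
    have h1 : i ≤ sz x := le_trans hi (length_le_sz x)
    have h2 : sz ((x, w) : List Bool × List Bool) = 2 * sz x + 1 + sz w := sz_pair _ _
    show 5 * i + 400 ≤ 5 * sz ((x, w) : List Bool × List Bool) + 400
    omega

theorem fp_rn {x w : α → List Bool} (hx : FP x) (hw : FP w) : FP fun a => rn (x a) (w a) :=
  FpS_rn.comp (f := fun a => (x a, w a)) (FP.pair hx hw)

end

end Pool.Agent.RTW
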