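import Pool.Agent.RTW.Defs

set_option autoImplicit false

/-!
# RTW/Hn: the scheme of Horner

PROOF PLAN.  `hrn` invariant (induction on `w` by appending at the end): with `z = (X + i Y) / D` and `Z = ((X, 0), (Y, 0))`, `gz v = zv v.1 + zv v.2 * I`: `(hrn D Z w).2 = D ^ w.length` and `D * gz (hrn D Z w).1 = D ^ w.length * hv z w`.  `gz (gm v u) = gz v * gz u` (`zv_zmul`, `zv_ng`), `za a = |zv a|`.
-/

namespace Pool.Agent.RTW

open Pool.Agent.PQE Pool.Agent.FRN Pool.Agent.TRN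

/-- the value of a Gaussian integer -/
private noncomputable def Hn_gz (v : Gz) : ℂ := (zv v.1 : ℂ) + zv v.2 * Complex.I

private theorem Hn_ng (a : In) : zv (ng a) = -zv a := by
  unfold zv ng
  ring

private theorem Hn_gm (v u : Gz) : Hn_gz (gm v u) = Hn_gz v * Hn_gz u := by
  unfold Hn_gz gm
  simp only [zv_add, zv_mul, Hn_ng]
  push_cast
  linear_combination (zv v.2 * zv u.2 : ℂ) * Complex.I_sq.symm

private theorem Hn_za (a : In) : ((za a : ℕ) : ℤ) ^ 2 = zv a ^ 2 := by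
  unfold za zv
  rcases le_total a.1 a.2 with h | h
  · rw [Nat.sub_eq_zero_of_le h, zero_add]
    push_cast [Nat.cast_sub h]
    ring
  · rw [Nat.sub_eq_zero_of_le h, add_zero]
    push_cast [Nat.cast_sub h]
    ring

private theorem Hn_sq (v : Gz) : ((za v.1 * za v.1 + za v.2 * za v.2 : ℕ) : ℝ) = ‖Hn_gz v‖ ^ 2 := by
  have h1 := Hn_za v.1
  have h2 := Hn_za v.2
  have h3 : ((za v.1 : ℕ) : ℝ) ^ 2 = (zv v.1 : ℝ) ^ 2 := by exact_mod_cast h1
  have h4 : ((za v.2 : ℕ) : ℝ) ^ 2 = (zv v.2 : ℝ) ^ 2 := by exact_mod_cast h2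
  rw [← Complex.normSq_eq_norm_sq, Complex.normSq_apply]
  unfold Hn_gz
  simp only [Complex.add_re, Complex.add_im, Complex.mul_re, Complex.mul_im, Complex.intCast_re, Complex.intCast_im,
    Complex.I_re, Complex.I_im]
  push_cast
  linear_combination h3 + h4

private theorem Hn_hrn (D X Y : ℕ) (hD : 0 < D) (w : List Bool) :
    (hrn D ((X, 0), (Y, 0)) w).2 = D ^ w.length ∧
    (D : ℂ) * Hn_gz (hrn D ((X, 0), (Y, 0)) w).1 = (D : ℂ) ^ w.length * hv (((X : ℂ) + Y * Complex.I) / D) w := by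
  have hD0 : (D : ℂ) ≠ 0 := by
    exact_mod_cast hD.ne'
  induction w using List.reverseRecOn with
  | nil =>
    refine ⟨by simp [hrn], ?_⟩
    simp [hrn, hv, Hn_gz, zv]
  | append_singleton w e ih =>
    obtain ⟨h1, h2⟩ := ih
    have e1 : hrn D ((X, 0), (Y, 0)) (w ++ [e]) = hst D ((X, 0), (Y, 0)) (hrn D ((X, 0), (Y, 0)) w) e := by
      unfold hrn
      rw [List.foldl_append, List.foldl_cons, List.foldl_nil]
    have e2 : hv (((X : ℂ) + Y * Complex.I) / D) (w ++ [e]) =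
        (((X : ℂ) + Y * Complex.I) / D) * hv (((X : ℂ) + Y * Complex.I) / D) w + sn e := by
      unfold hv
      rw [List.foldl_append, List.foldl_cons, List.foldl_nil]
    rw [e1, e2, List.length_append, List.length_singleton, pow_succ]
    refine ⟨by rw [← h1]; rfl, ?_⟩
    set s := hrn D ((X, 0), (Y, 0)) w with hs
    have e3 : Hn_gz (hst D ((X, 0), (Y, 0)) s e).1 = Hn_gz (gm ((X, 0), (Y, 0)) s.1) + (sn e : ℂ) * (s.2 : ℂ) := by
      unfold hst Hn_gz sn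
      cases e
      · simp [zv]
        ring
      · simp [zv]
        ring
    rw [e3, Hn_gm]
    have e4 : Hn_gz ((X, 0), (Y, 0)) = (X : ℂ) + Y * Complex.I := by
      simp [Hn_gz, zv]
    rw [e4, h1]
    push_cast
    have e5 : (D : ℂ) ^ w.length * D * ((((X : ℂ) + Y * Complex.I) / D) * hv (((X : ℂ) + Y * Complex.I) / D) w + sn e) =
        ((X : ℂ) + Y * Complex.I) * ((D : ℂ) ^ w.length * hv (((X : ℂ) + Y * Complex.I) / D) w) + (D : ℂ) ^ w.length * D * sn e := by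
      field_simp
    rw [pow_succ, e5, ← h2]
    ring

theorem nv_eq (w : List Bool) (D X Y : ℕ) (hD : 0 < D) :
    (nv w D X Y : ℝ) = ((D : ℝ) ^ w.length * ‖pw w (((X : ℂ) + Y * Complex.I) / D)‖) ^ 2 := by
  have hD0 : (D : ℂ) ≠ 0 := by
    exact_mod_cast hD.ne'
  obtain ⟨h1, h2⟩ := Hn_hrn D X Y hD w
  set s := hrn D ((X, 0), (Y, 0)) w with hs
  have e1 : nv w D X Y = za (((s.2, 0) : In) + ng (gm ((X, 0), (Y, 0)) s.1).1) * za (((s.2, 0) : In) + ng (gm ((X, 0), (Y, 0)) s.1).1) +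
      za (gm ((X, 0), (Y, 0)) s.1).2 * za (gm ((X, 0), (Y, 0)) s.1).2 := rfl
  have e2 := Hn_sq ((((s.2, 0) : In) + ng (gm ((X, 0), (Y, 0)) s.1).1), ng (gm ((X, 0), (Y, 0)) s.1).2)
  have e3 : za (ng (gm ((X, 0), (Y, 0)) s.1).2) = za (gm ((X, 0), (Y, 0)) s.1).2 := by
    unfold za ng
    ring
  rw [e1]
  simp only [e3] at e2
  rw [e2]
  congr 1
  have e4 : Hn_gz ((((s.2, 0) : In) + ng (gm ((X, 0), (Y, 0)) s.1).1), ng (gm ((X, 0), (Y, 0)) s.1).2) =
      (s.2 : ℂ) - Hn_gz (gm ((X, 0), (Y, 0)) s.1) := by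
    unfold Hn_gz
    simp only [zv_add, Hn_ng, zv_nat]
    push_cast
    ring
  have e5 : Hn_gz ((X, 0), (Y, 0)) = (X : ℂ) + Y * Complex.I := by
    simp [Hn_gz, zv]
  rw [e4, Hn_gm, e5, h1]
  have e6 : (((D : ℕ) ^ w.length : ℕ) : ℂ) - ((X : ℂ) + Y * Complex.I) * Hn_gz s.1 =
      (D : ℂ) ^ w.length * pw w (((X : ℂ) + Y * Complex.I) / D) := by
    unfold pw
    have e7 : Hn_gz s.1 = (D : ℂ) ^ w.length * hv (((X : ℂ) + Y * Complex.I) / D) w / D := by
      rw [← h2]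
      field_simp
    rw [e7]
    push_cast
    field_simp
  rw [e6, norm_mul, norm_pow, Complex.norm_natCast]

end Pool.Agent.RTW
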