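import Pool.Agent.RTW.Defs

set_option autoImplicit false

/-!
# RTW/La: near-linearity

PROOF PLAN.  Section 3 of /team-store/rot_5dd2d4_proof.md, (L1), (L2).  `kap`: `moment_boxes` (Helper62/Mandel/Struct) for the series `d` (`mo d q = mom 1 (fun k => d k) q`), `‖mo d q‖ ≥ 2.9`, `‖q‖ ≤ .6357`.
`nearlin`: `z ^ k - z' ^ k = (z - z') * ∑ i ∈ range k, z ^ i * z' ^ (k - 1 - i)` (`Commute.geom_sum₂_mul` or `mul_geom_sum`); with `R = 16 / 25`, `‖z‖, ‖z'‖, ‖q‖ ≤ R`: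
`‖z ^ k - z' ^ k - k q ^ (k - 1) (z - z')‖ ≤ k ^ 2 * 10 ^ (-20) * R ^ (k - 2) * ‖z - z'‖` (or simply use `k ^ 2 * R ^ (k - 1) * 2 * 10 ^ (-20)`), summed with `hasSum_succ_sq`-type sums (Helper62/Mandel/Ident) to at most `10 ^ (-17)`;
the terms with `k ≥ 131` of `c` instead of `d`: `2 * ∑_{k ≥ 131} k R ^ (k - 1) ≤ 10 ^ (-20)`.  `mo d q / q = ∑' k d k q ^ (k - 1)`.
-/

namespace Pool.Agent.RTW

open Pool.Agent.PQE Pool.Agent.FRN Pool.Agent.TRN

/-- the sum of the series -/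
noncomputable def fs (c : ℕ → ℝ) (z : ℂ) : ℂ := ∑' k : ℕ, (c k : ℂ) * z ^ k

private theorem La_up {q : ℂ} {d : ℕ → ℤ} (h : Ext q d) : ‖q‖ ≤ 636 / 1000 := by
  have h1 := h.up
  have h2 : (635606390391455492692046961204 : ℝ) / 10 ^ 30 ≤ 636 / 1000 := by norm_num
  linarith

private theorem La_ne {q : ℂ} {d : ℕ → ℤ} (h : Ext q d) : q ≠ 0 := by
  rintro rfl
  have := h.re
  simp at this

private theorem La_abs {q : ℂ} {d : ℕ → ℤ} (h : Ext q d) (k : ℕ) : |(d k : ℝ)| ≤ 1 := by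
  rcases h.pm k with h1 | h1 <;> rw [h1] <;> norm_num

private theorem La_mo {q : ℂ} {d : ℕ → ℤ} (h : Ext q d) : HasSum (fun j : ℕ => (j : ℂ) * d j * q ^ j) (mo d q) := by
  have h1 := La_up h
  have h2 := Pool.Agent.Helper62.Mandel.summable_moment (q := q) (c := fun k => (d k : ℝ)) (by linarith) (La_abs h) 1
  have h3 : (fun j : ℕ => (j : ℂ) ^ 1 * ((d j : ℝ) : ℂ) * q ^ j) = fun j : ℕ => (j : ℂ) * d j * q ^ j := by
    ext j
    rw [pow_one]
    norm_cast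
  rw [h3] at h2
  exact h2.hasSum

theorem kap {q : ℂ} {d : ℕ → ℤ} (h : Ext q d) : 4 ≤ ‖mo d q / q‖ := by
  have h1 := La_up h
  have h2 : mo d q = Pool.Agent.Helper62.Mandel.mom 1 (fun k => (d k : ℝ)) q := by
    unfold mo Pool.Agent.Helper62.Mandel.mom
    congr 1
    ext j
    rw [pow_one]
    show _ = (j : ℂ) * ((d j : ℝ) : ℂ) * q ^ j
    push_cast
    ring
  have h3 := Pool.Agent.Helper62.Mandel.moment_boxes (q := q) h.re.le h.im (by
    have h4 : Pool.Agent.Helper62.Mandel.rup = (635606390391455492692046961204 : ℝ) / 10 ^ 30 := by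
      norm_num [Pool.Agent.Helper62.Mandel.rup, Pool.Agent.Helper62.Mandel.rupN, Pool.Agent.Helper62.Mandel.den]
    rw [h4]
    exact h.up.le) (c := fun k => (d k : ℝ)) (by simp [h.d0]) (La_abs h) (by
    have := h.van
    unfold Pool.Agent.Helper62.Mandel.Vanish
    convert this using 2
    norm_cast)
  rw [← h2] at h3
  have h5 : 29 / 10 ≤ ‖mo d q‖ := by
    have h6 := Complex.normSq_apply (mo d q)
    rw [Complex.normSq_eq_norm_sq] at h6
    have h7 := h3.1.2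
    have h8 := h3.2.1.1
    have h9 : (28 / 10) * (28 / 10) ≤ (mo d q).re * (mo d q).re := by nlinarith
    have h10 : (8 / 10) * (8 / 10) ≤ (mo d q).im * (mo d q).im := by nlinarith
    by_contra hlt
    push Not at hlt
    have h11 := norm_nonneg (mo d q)
    nlinarith
  rw [norm_div, le_div_iff₀ (norm_pos_iff.2 (La_ne h))]
  linarith

private theorem La_pow {q z : ℂ} {η R : ℝ} (hη : 0 ≤ η) (hR : 1 ≤ 2 * R) (hz : ‖z‖ ≤ R) (hq : ‖q‖ ≤ R) (hzq : ‖z - q‖ ≤ η) (k : ℕ) :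
    ‖z ^ k - q ^ k‖ ≤ 2 * k * η * R ^ k := by
  have hR0 : 0 ≤ R := by linarith
  induction k with
  | zero => simp
  | succ k ih =>
    have e : z ^ (k + 1) - q ^ (k + 1) = z * (z ^ k - q ^ k) + q ^ k * (z - q) := by ring
    rw [e]
    refine (norm_add_le _ _).trans ?_
    rw [norm_mul, norm_mul, norm_pow]
    have h1 : ‖z‖ * ‖z ^ k - q ^ k‖ ≤ R * (2 * k * η * R ^ k) := mul_le_mul hz ih (norm_nonneg _) hR0
    have h2 : ‖q‖ ^ k * ‖z - q‖ ≤ R ^ k * η :=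
      mul_le_mul (pow_le_pow_left₀ (norm_nonneg _) hq k) hzq (norm_nonneg _) (pow_nonneg hR0 k)
    have h3 : R ^ k * η * 1 ≤ R ^ k * η * (2 * R) := mul_le_mul_of_nonneg_left hR (mul_nonneg (pow_nonneg hR0 k) hη)
    push_cast
    rw [pow_succ]
    linarith

private theorem La_e {q z z' : ℂ} {η R : ℝ} (hη : 0 ≤ η) (hR : 1 ≤ 2 * R) (hz : ‖z‖ ≤ R) (hz' : ‖z'‖ ≤ R) (hq : ‖q‖ ≤ R)
    (hzq : ‖z - q‖ ≤ η) (hzq' : ‖z' - q‖ ≤ η) (k : ℕ) :
    ‖z ^ (k + 1) - z' ^ (k + 1) - (k + 1) * q ^ k * (z - z')‖ ≤ 4 * η * (((k : ℝ) + 1) ^ 2 * R ^ k) * ‖z - z'‖ := by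
  have hR0 : 0 ≤ R := by linarith
  induction k with
  | zero =>
    have e : z ^ (0 + 1) - z' ^ (0 + 1) - ((0 : ℕ) + 1) * q ^ 0 * (z - z') = 0 := by
      push_cast
      ring
    rw [e, norm_zero]
    positivity
  | succ k ih =>
    have e : z ^ (k + 1 + 1) - z' ^ (k + 1 + 1) - ((k + 1 : ℕ) + 1) * q ^ (k + 1) * (z - z') =
        z * (z ^ (k + 1) - z' ^ (k + 1) - (k + 1) * q ^ k * (z - z')) +
        (z - z') * ((z' ^ (k + 1) - q ^ (k + 1)) + (k + 1) * q ^ k * (z - q)) := by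
      push_cast
      ring
    rw [e]
    refine (norm_add_le _ _).trans ?_
    rw [norm_mul, norm_mul]
    have h1 : ‖z‖ * ‖z ^ (k + 1) - z' ^ (k + 1) - (k + 1) * q ^ k * (z - z')‖ ≤
        R * (4 * η * (((k : ℝ) + 1) ^ 2 * R ^ k) * ‖z - z'‖) := mul_le_mul hz ih (norm_nonneg _) hR0
    have h2 := La_pow hη hR hz' hq hzq' (k + 1)
    have h3 : ‖((k : ℂ) + 1) * q ^ k * (z - q)‖ ≤ ((k : ℝ) + 1) * R ^ k * η := by
      rw [norm_mul, norm_mul, norm_pow]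
      have h4 : ‖(k : ℂ) + 1‖ = (k : ℝ) + 1 := by
        have : (k : ℂ) + 1 = ((k + 1 : ℕ) : ℂ) := by push_cast; ring
        rw [this, Complex.norm_natCast]
        push_cast
        ring
      rw [h4]
      exact mul_le_mul (mul_le_mul_of_nonneg_left (pow_le_pow_left₀ (norm_nonneg _) hq k) (by positivity)) hzq (norm_nonneg _)
        (mul_nonneg (by positivity) (pow_nonneg hR0 k))
    have h5 : ‖(z' ^ (k + 1) - q ^ (k + 1)) + (k + 1) * q ^ k * (z - q)‖ ≤ 4 * ((k : ℝ) + 1) * η * R ^ (k + 1) := by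
      refine (norm_add_le _ _).trans ?_
      have h6 : ((k : ℝ) + 1) * R ^ k * η * 1 ≤ ((k : ℝ) + 1) * R ^ k * η * (2 * R) :=
        mul_le_mul_of_nonneg_left hR (mul_nonneg (mul_nonneg (by positivity) (pow_nonneg hR0 k)) hη)
      push_cast at h2
      have h7 : R ^ (k + 1) = R ^ k * R := pow_succ R k
      rw [h7] at h2 ⊢
      linarith
    have h8 : ‖z - z'‖ * ‖(z' ^ (k + 1) - q ^ (k + 1)) + (k + 1) * q ^ k * (z - q)‖ ≤
        ‖z - z'‖ * (4 * ((k : ℝ) + 1) * η * R ^ (k + 1)) := mul_le_mul_of_nonneg_left h5 (norm_nonneg _)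
    have h9 : 0 ≤ ‖z - z'‖ * η * R ^ (k + 1) := mul_nonneg (mul_nonneg (norm_nonneg _) hη) (pow_nonneg hR0 _)
    push_cast
    have h10 : R ^ (k + 1) = R ^ k * R := pow_succ R k
    rw [h10] at h8 h9 ⊢
    nlinarith [mul_nonneg h9 (show (0 : ℝ) ≤ k by positivity)]

private theorem La_fs {c : ℕ → ℝ} (hc : ∀ k, |c k| ≤ 1) {z : ℂ} (hz : ‖z‖ < 1) :
    HasSum (fun k : ℕ => (c k : ℂ) * z ^ k) (fs c z) := by
  have h := Pool.Agent.Helper62.Mandel.summable_of_bdd (q := z) hz (σ := fun k => (c k : ℂ)) (C := 1) (fun k => by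
    rw [Complex.norm_real]
    exact hc k)
  exact h.hasSum

theorem nearlin {q : ℂ} {d : ℕ → ℤ} (h : Ext q d) {c : ℕ → ℝ} (hc : ∀ k, |c k| ≤ 1) (hcd : ∀ k ≤ 130, c k = d k)
    {z z' : ℂ} (hz : ‖z - q‖ ≤ 1 / 10 ^ 20) (hz' : ‖z' - q‖ ≤ 1 / 10 ^ 20) :
    ‖fs c z - fs c z' - mo d q / q * (z - z')‖ ≤ 1 / 100 * ‖z - z'‖ := by
  have hq := La_up h
  have hq0 := La_ne h
  have hzR : ‖z‖ ≤ 16 / 25 := by
    have h1 := norm_sub_norm_le z q
    have h2 : (1 : ℝ) / 10 ^ 20 ≤ 4 / 1000 := by norm_num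
    linarith
  have hzR' : ‖z'‖ ≤ 16 / 25 := by
    have h1 := norm_sub_norm_le z' q
    have h2 : (1 : ℝ) / 10 ^ 20 ≤ 4 / 1000 := by norm_num
    linarith
  have hqR : ‖q‖ ≤ 16 / 25 := by linarith
  have s1 := (hasSum_nat_add_iff' 1).2 (La_fs hc (z := z) (by linarith))
  have s2 := (hasSum_nat_add_iff' 1).2 (La_fs hc (z := z') (by linarith))
  have s3 := ((hasSum_nat_add_iff' 1).2 (La_mo h)).mul_left (q⁻¹ * (z - z'))
  rw [Finset.sum_range_one] at s1 s2 s3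
  have s4 := (s1.sub s2).sub s3
  have e1 : fs c z - (c 0 : ℂ) * z ^ 0 - (fs c z' - (c 0 : ℂ) * z' ^ 0) - q⁻¹ * (z - z') * (mo d q - ((0 : ℕ) : ℂ) * d 0 * q ^ 0) =
      fs c z - fs c z' - mo d q / q * (z - z') := by
    rw [div_eq_mul_inv]
    push_cast
    ring
  rw [e1] at s4
  have g1 := Pool.Agent.Helper62.Mandel.hasSum_succ_sq (r := 16 / 25) (by norm_num) (by norm_num)
  have g2 := Pool.Agent.Helper62.Mandel.hasSum_succ (r := 4 / 5) (by norm_num) (by norm_num)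
  have g3 := ((g1.mul_left (4 * (1 / 10 ^ 20))).add (g2.mul_left (2 * (4 / 5 : ℝ) ^ 130))).mul_right ‖z - z'‖
  have hle := s4.norm_le_of_bounded g3 (fun k => ?_)
  · refine hle.trans (mul_le_mul_of_nonneg_right ?_ (norm_nonneg _))
    norm_num
  · have e2 : (c (k + 1) : ℂ) * z ^ (k + 1) - (c (k + 1) : ℂ) * z' ^ (k + 1) -
        q⁻¹ * (z - z') * (((k + 1 : ℕ) : ℂ) * d (k + 1) * q ^ (k + 1)) =
        (c (k + 1) : ℂ) * (z ^ (k + 1) - z' ^ (k + 1) - (k + 1) * q ^ k * (z - z')) +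
        ((c (k + 1) : ℂ) - d (k + 1)) * ((k + 1) * q ^ k) * (z - z') := by
      rw [pow_succ q k]
      push_cast
      field_simp
      ring
    rw [e2]
    refine (norm_add_le _ _).trans ?_
    refine le_trans (add_le_add (b := 4 * (1 / 10 ^ 20) * (((k : ℝ) + 1) ^ 2 * (16 / 25) ^ k) * ‖z - z'‖)
      (d := 2 * (4 / 5 : ℝ) ^ 130 * (((k : ℝ) + 1) * (4 / 5) ^ k) * ‖z - z'‖) ?_ ?_) (le_of_eq (add_mul _ _ _).symm)
    · rw [norm_mul, Complex.norm_real]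
      have h1 := La_e (q := q) (z := z) (z' := z') (η := 1 / 10 ^ 20) (R := 16 / 25) (by positivity) (by norm_num) hzR hzR' hqR hz hz' k
      have h2 := mul_le_mul (hc (k + 1)) h1 (norm_nonneg _) zero_le_one
      rw [one_mul] at h2
      exact h2
    · rw [norm_mul]
      refine mul_le_mul_of_nonneg_right ?_ (norm_nonneg _)
      by_cases hk : k + 1 ≤ 130
      · rw [hcd (k + 1) hk]
        have e3 : (((d (k + 1) : ℤ) : ℝ) : ℂ) - ((d (k + 1) : ℤ) : ℂ) = 0 := by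
          push_cast
          ring
        rw [e3, zero_mul, norm_zero]
        positivity
      · have hk' : 130 ≤ k := by omega
        rw [norm_mul, norm_mul, norm_pow]
        have h4 : ‖(k : ℂ) + 1‖ = (k : ℝ) + 1 := by
          have : (k : ℂ) + 1 = ((k + 1 : ℕ) : ℂ) := by push_cast; ring
          rw [this, Complex.norm_natCast]
          push_cast
          ring
        have h5 : ‖(c (k + 1) : ℂ) - d (k + 1)‖ ≤ 2 := by
          have h6 := norm_sub_le (c (k + 1) : ℂ) (d (k + 1) : ℂ)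
          have h7 : ‖(c (k + 1) : ℂ)‖ ≤ 1 := by
            rw [Complex.norm_real]
            exact hc _
          have h8 : ‖(d (k + 1) : ℂ)‖ ≤ 1 := by
            rcases h.pm (k + 1) with h9 | h9 <;> rw [h9] <;> norm_num
          linarith
        have h9 : ‖q‖ ^ k ≤ (4 / 5 : ℝ) ^ 130 * (4 / 5) ^ k := by
          have h10 : ‖q‖ ^ k ≤ ((4 / 5 : ℝ) * (4 / 5)) ^ k := pow_le_pow_left₀ (norm_nonneg _) (by linarith) k
          rw [mul_pow] at h10
          have h11 : (4 / 5 : ℝ) ^ k ≤ (4 / 5) ^ 130 := pow_le_pow_of_le_one (by norm_num) (by norm_num) hk'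
          have h12 := mul_le_mul_of_nonneg_right h11 (show (0 : ℝ) ≤ (4 / 5) ^ k by positivity)
          linarith
        rw [h4]
        have h13 : ((k : ℝ) + 1) * ‖q‖ ^ k ≤ ((k : ℝ) + 1) * ((4 / 5 : ℝ) ^ 130 * (4 / 5) ^ k) :=
          mul_le_mul_of_nonneg_left h9 (by positivity)
        have h14 := mul_le_mul h5 h13 (mul_nonneg (by positivity) (pow_nonneg (norm_nonneg _) _)) (by norm_num)
        refine h14.trans (le_of_eq ?_)
        ring

end Pool.Agent.RTW
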