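import Pool.Agent.RTW.La

set_option autoImplicit false

/-!
# RTW/Pv: the polynomial of a word

PROOF PLAN.  `cw w` are the coefficients of `pw w` (finite sequence).  `pw_fs`: by `List.reverseRecOn`-free induction: for `w = [s_N, .., s_1]` `hv z w = ∑ i ∈ range N, sn (w.reverse.getD i false) * z ^ i` (induction on `w` by appending at the end: `foldl_append`, `hv z (w ++ [e]) = z * hv z w + sn e`; `(w ++ [e]).reverse = e :: w.reverse`); then a sum with finite
support (`hasSum_sum_of_ne_finset_zero`, `tsum_eq_sum`).  `cw_good`: `w.reverse = pt ++ v.reverse`, `interval_cases k`, `fc`, `pt` (`decide` or `rfl`).  `cw_cf`: `getD` of a list `map` over `range`.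
-/

namespace Pool.Agent.RTW

open Pool.Agent.PQE Pool.Agent.FRN Pool.Agent.TRN

/-- coefficients of the polynomial of the word -/
def cw (w : List Bool) (k : ℕ) : ℝ :=
  if k = 0 then 1 else if k ≤ w.length then -(sn (w.reverse.getD (k - 1) false) : ℝ) else 0

theorem cw_zero (w : List Bool) : cw w 0 = 1 := if_pos rfl

private theorem Pv_sn (e : Bool) : sn e = 1 ∨ sn e = -1 := by
  cases e
  · right
    rfl
  · left
    rfl

theorem cw_cases (w : List Bool) (k : ℕ) : cw w k = 0 ∨ cw w k = 1 ∨ cw w k = -1 := by
  unfold cw
  by_cases h0 : k = 0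
  · rw [if_pos h0]
    exact Or.inr (Or.inl rfl)
  · rw [if_neg h0]
    by_cases h1 : k ≤ w.length
    · rw [if_pos h1]
      rcases Pv_sn (w.reverse.getD (k - 1) false) with h | h <;> rw [h] <;> norm_num
    · rw [if_neg h1]
      exact Or.inl rfl

theorem cw_abs (w : List Bool) (k : ℕ) : |cw w k| ≤ 1 := by
  rcases cw_cases w k with h | h | h <;> rw [h] <;> norm_num

private theorem Pv_hv (w : List Bool) (z : ℂ) :
    hv z w = ∑ i ∈ Finset.range w.length, (sn (w.reverse.getD i false) : ℂ) * z ^ i := by
  induction w using List.reverseRecOn with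
  | nil => simp [hv]
  | append_singleton w e ih =>
    have e2 : hv z (w ++ [e]) = z * hv z w + sn e := by
      unfold hv
      rw [List.foldl_append, List.foldl_cons, List.foldl_nil]
    rw [e2, ih, List.length_append, List.length_singleton, Finset.sum_range_succ', List.reverse_append, List.reverse_singleton,
      List.singleton_append, Finset.mul_sum]
    simp only [List.getD_cons_zero, List.getD_cons_succ, pow_zero, mul_one]
    congr 1
    refine Finset.sum_congr rfl fun i _ => ?_
    rw [pow_succ]
    ring

theorem pw_hs (w : List Bool) (z : ℂ) : HasSum (fun k : ℕ => (cw w k : ℂ) * z ^ k) (pw w z) := by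
  have h1 : ∀ k ∉ Finset.range (w.length + 1), (cw w k : ℂ) * z ^ k = 0 := by
    intro k hk
    rw [Finset.mem_range] at hk
    unfold cw
    rw [if_neg (by omega), if_neg (by omega)]
    simp
  have h2 : HasSum (fun k : ℕ => (cw w k : ℂ) * z ^ k) (∑ k ∈ Finset.range (w.length + 1), (cw w k : ℂ) * z ^ k) :=
    hasSum_sum_of_ne_finset_zero h1
  have h3 : ∑ k ∈ Finset.range (w.length + 1), (cw w k : ℂ) * z ^ k = pw w z := by
    rw [Finset.sum_range_succ', cw_zero, pw, Pv_hv, Finset.mul_sum]
    rw [pow_zero, mul_one, Complex.ofReal_one, sub_eq_add_neg, add_comm, ← Finset.sum_neg_distrib]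
    congr 1
    refine Finset.sum_congr rfl fun i hi => ?_
    rw [Finset.mem_range] at hi
    unfold cw
    rw [if_neg (by omega), if_pos (by omega), Nat.add_sub_cancel, pow_succ]
    push_cast
    ring
  rw [h3] at h2
  exact h2

theorem pw_fs (w : List Bool) (z : ℂ) : fs (cw w) z = pw w z := (pw_hs w z).tsum_eq

theorem pw_vanish (w : List Bool) {z : ℂ} (h : pw w z = 0) : Pool.Agent.Helper62.Mandel.Vanish (cw w) z := by
  have h1 := pw_hs w z
  rw [h] at h1
  exact h1

private theorem Pv_pt : pt.length = 130 := by
  unfold pt
  rfl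

set_option maxRecDepth 100000 in
private theorem Pv_tab : ∀ j < 130, -(sn (pt.getD j false)) = fc.getD (j + 1) 0 := by
  decide

theorem cw_good {w : List Bool} (h : Good w) {k : ℕ} (hk : k ≤ 130) : cw w k = (fc.getD k 0 : ℤ) := by
  obtain ⟨v, rfl⟩ := h
  rcases Nat.eq_zero_or_pos k with rfl | hk0
  · rw [cw_zero]
    norm_num [fc]
  · have hl : k ≤ (v ++ pt.reverse).length := by
      rw [List.length_append, List.length_reverse, Pv_pt]
      omega
    unfold cw
    rw [if_neg (by omega), if_pos hl, List.reverse_append, List.reverse_reverse, List.getD_append _ _ _ _ (by rw [Pv_pt]; omega)]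
    have h1 := Pv_tab (k - 1) (by omega)
    rw [Nat.sub_add_cancel hk0] at h1
    rw [← h1]
    push_cast
    rfl

/-- the coefficients of the word of the triple `(a, b, c)` -/
theorem cw_cf (a b c N : ℕ) : cw (((List.range N).map fun k => dg a b c (k + 1)).reverse) = cf a b c N := by
  ext k
  unfold cw cf
  rw [List.reverse_reverse, List.length_reverse, List.length_map, List.length_range]
  by_cases h0 : k = 0
  · rw [if_pos h0, if_pos h0]
  · rw [if_neg h0, if_neg h0]
    by_cases h1 : k ≤ N
    · rw [if_pos h1, if_pos h1]
      have h2 : ((List.range N).map fun k => dg a b c (k + 1)).getD (k - 1) false = dg a b c k := by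
        rw [List.getD_eq_getElem _ _ (by rw [List.length_map, List.length_range]; omega), List.getElem_map, List.getElem_range,
          Nat.sub_add_cancel (by omega)]
      rw [h2]
    · rw [if_neg h1, if_neg h1]

private theorem Pv_inj {e f : Bool} (h : sn e = sn f) : e = f := by
  cases e <;> cases f <;> first | rfl | (exfalso; revert h; decide)

theorem good_of {w : List Bool} (h : 130 ≤ w.length) (hk : ∀ k, 1 ≤ k → k ≤ 130 → cw w k = (fc.getD k 0 : ℤ)) : Good w := by
  have h1 : w.reverse.take 130 = pt := by
    apply List.ext_getElem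
    · rw [List.length_take, List.length_reverse, Pv_pt]
      omega
    · intro j hj1 hj2
      rw [Pv_pt] at hj2
      have h2 := hk (j + 1) (by omega) (by omega)
      unfold cw at h2
      rw [if_neg (by omega), if_pos (by omega), Nat.add_sub_cancel, ← Pv_tab j hj2] at h2
      have h3 : sn (w.reverse.getD j false) = sn (pt.getD j false) := by
        have h4 : (sn (w.reverse.getD j false) : ℝ) = sn (pt.getD j false) := by
          push_cast at h2
          linarith
        exact_mod_cast h4
      have h5 := Pv_inj h3
      rw [List.getElem_take]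
      rw [List.getD_eq_getElem _ _ (by rw [List.length_reverse]; omega), List.getD_eq_getElem _ _ (by rw [Pv_pt]; omega)] at h5
      exact h5
  refine ⟨(w.reverse.drop 130).reverse, ?_⟩
  rw [← h1, ← List.reverse_append, List.take_append_drop, List.reverse_reverse]

end Pool.Agent.RTW
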