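import Pool.Agent.RTW.Zr
import Pool.Agent.RTW.Pv
import Pool.Agent.RTW.Ra

set_option autoImplicit false

/-!
# RTW/Zw: the zero of a good word

PROOF PLAN.  `zw_exists`: take `q, d` by `mi_exists`; `c = cw w` agrees with `d` up to `130` (`cw_good`, `Ext.fst`), `zero_near` with `N = 130`, `zero_mem`, `zero_lin` with `κ = ‖mo d q / q‖`, `kap`, `pw_fs`.  `loc`: `‖ζ - q‖ ≤ 3 / 10 ^ 26` (`pow_small`), `Ext.loc`: `‖q - (X0 + i Y0)‖ ≤ 1.5 / 10 ^ 28`, and
`|2 ^ 70 X0 - 447181039704542467732| ≤ .246`, `|2 ^ 70 Y0 - 602591602097498106901| ≤ .327` (`norm_num`), `sqrt (.246 ^ 2 + .327 ^ 2) < .41`.  `zw_near`: for a minimal `q` with the series `d`, a word `w` with `cw w k = d k` for `k ≤ N = w.length`, `130 ≤ N`: `Good w` (`good_of`), and the zero of `zero_near` (with `N`) is the zero `ζ` of `Zw`: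
both are in the ball of radius `1 / 10 ^ 20` around `q` (`Zw.loc`; `Ext.loc`), `zero_uniq`.
-/

namespace Pool.Agent.RTW

open Pool.Agent.PQE Pool.Agent.FRN Pool.Agent.TRN

/-- `ζ` is the zero of the good word `w`; the polynomial is nearly linear around it -/
structure Zw (w : List Bool) (ζ : ℂ) (κ : ℝ) : Prop where
  mem : ζ ∈ Pool.Agent.Helper62.Mandel.mandelbrot
  im : ζ.im ≠ 0
  re_pos : 1 / 10 ≤ ζ.re
  im_pos : 1 / 10 ≤ ζ.im
  lt : ‖ζ‖ < 1
  zero : pw w ζ = 0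
  four : 4 ≤ κ
  loc : ‖(447181039704542467732 + 602591602097498106901 * Complex.I) / 2 ^ 70 - ζ‖ ≤ 4 / 5 / 2 ^ 70
  lin : ∀ z : ℂ, ‖z - ζ‖ ≤ 5 / 2 ^ 71 → (κ - 1 / 100) * ‖z - ζ‖ ≤ ‖pw w z‖ ∧ ‖pw w z‖ ≤ (κ + 1 / 100) * ‖z - ζ‖

/-- the start is close to the minimal points -/
private theorem Zw_start {q : ℂ} {d : ℕ → ℤ} (h : Ext q d) :
    ‖(447181039704542467732 + 602591602097498106901 * Complex.I) / 2 ^ 70 - q‖ ≤ 6 / 10 / 2 ^ 70 := by
  have e1 : ((447181039704542467732 : ℂ) + 602591602097498106901 * Complex.I) / 2 ^ 70 =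
      ⟨447181039704542467732 / 2 ^ 70, 602591602097498106901 / 2 ^ 70⟩ := by
    apply Complex.ext
    · norm_num [Complex.div_re, Complex.normSq_apply]
    · norm_num [Complex.div_im, Complex.normSq_apply]
  rw [e1]
  refine (Complex.norm_le_abs_re_add_abs_im _).trans ?_
  rw [Complex.sub_re, Complex.sub_im]
  have h1 := (h.loc).1
  have h2 := (h.loc).2
  rw [abs_lt] at h1 h2
  have h3 : |(447181039704542467732 : ℝ) / 2 ^ 70 - q.re| ≤ 246 / 1000 / 2 ^ 70 + 1 / 10 ^ 28 := by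
    rw [abs_le]
    unfold X0 at h1
    constructor
    · have : (447181039704542467732 : ℝ) / 2 ^ 70 - 3787770740171809057512705537849996244376 / 10 ^ 40 ≥ -(246 / 1000 / 2 ^ 70) := by
        norm_num
      linarith
    · have : (447181039704542467732 : ℝ) / 2 ^ 70 - 3787770740171809057512705537849996244376 / 10 ^ 40 ≤ 246 / 1000 / 2 ^ 70 := by
        norm_num
      linarith
  have h4 : |(602591602097498106901 : ℝ) / 2 ^ 70 - q.im| ≤ 327 / 1000 / 2 ^ 70 + 1 / 10 ^ 28 := by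
    rw [abs_le]
    unfold Y0 at h2
    constructor
    · have : (602591602097498106901 : ℝ) / 2 ^ 70 - 5104149407153344515486688916434272410818 / 10 ^ 40 ≥ -(327 / 1000 / 2 ^ 70) := by
        norm_num
      linarith
    · have : (602591602097498106901 : ℝ) / 2 ^ 70 - 5104149407153344515486688916434272410818 / 10 ^ 40 ≤ 327 / 1000 / 2 ^ 70 := by
        norm_num
      linarith
  have h5 : (246 : ℝ) / 1000 / 2 ^ 70 + 1 / 10 ^ 28 + (327 / 1000 / 2 ^ 70 + 1 / 10 ^ 28) ≤ 6 / 10 / 2 ^ 70 := by norm_num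
  linarith

theorem zw_exists {w : List Bool} (h : Good w) : ∃ (ζ : ℂ) (κ : ℝ), Zw w ζ κ := by
  obtain ⟨q, d, hm⟩ := mi_exists
  have hcd : ∀ k ≤ 130, cw w k = d k := by
    intro k hk
    rw [cw_good h hk, hm.ext.fst k hk]
  obtain ⟨ζ, hζ1, hζ2⟩ := zero_near hm.ext (cw_abs w) le_rfl hcd
  have hs := hζ1.trans (pow_small hm.ext le_rfl)
  have hball : ‖ζ - q‖ ≤ 1 / 10 ^ 20 := hs.trans (by norm_num)
  obtain ⟨m1, m2, m3, m4⟩ := zero_mem hm.ext (cw_zero w) (cw_cases w) hball hζ2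
  refine ⟨ζ, ‖mo d q / q‖, m1, ?_, m2, m3, m4, ?_, kap hm.ext, ?_, ?_⟩
  · intro h0
    rw [h0] at m3
    norm_num at m3
  · rw [← pw_fs]
    exact hζ2
  · have h1 := Zw_start hm.ext
    have e1 : ((447181039704542467732 : ℂ) + 602591602097498106901 * Complex.I) / 2 ^ 70 - ζ =
        (((447181039704542467732 : ℂ) + 602591602097498106901 * Complex.I) / 2 ^ 70 - q) - (ζ - q) := by ring
    rw [e1]
    refine (norm_sub_le _ _).trans ((add_le_add h1 hs).trans ?_)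
    norm_num
  · intro z hz
    have h1 : ‖z - q‖ ≤ 1 / 10 ^ 20 := by
      have e1 : z - q = (z - ζ) + (ζ - q) := by ring
      rw [e1]
      refine (norm_add_le _ _).trans ((add_le_add hz hs).trans ?_)
      norm_num
    have h2 := zero_lin hm.ext (cw_abs w) hcd hball h1 hζ2
    rw [pw_fs] at h2
    exact h2

theorem zw_near {q : ℂ} {d : ℕ → ℤ} (h : Mi q d) {w : List Bool} (hN : 130 ≤ w.length) (hw : ∀ k ≤ w.length, cw w k = d k)
    {ζ : ℂ} {κ : ℝ} (hz : Zw w ζ κ) : ‖ζ - q‖ ≤ ‖q‖ ^ w.length := by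
  obtain ⟨ζ', hζ1, hζ2⟩ := zero_near h.ext (cw_abs w) hN hw
  have hball' : ‖ζ' - q‖ ≤ 1 / 10 ^ 20 := (hζ1.trans (pow_small h.ext hN)).trans (by norm_num)
  have hball : ‖ζ - q‖ ≤ 1 / 10 ^ 20 := by
    have h1 := Zw_start h.ext
    have h2 := hz.loc
    have e1 : ζ - q = (((447181039704542467732 : ℂ) + 602591602097498106901 * Complex.I) / 2 ^ 70 - q) -
        (((447181039704542467732 : ℂ) + 602591602097498106901 * Complex.I) / 2 ^ 70 - ζ) := by ring
    rw [e1]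
    refine (norm_sub_le _ _).trans ((add_le_add h1 h2).trans ?_)
    norm_num
  have h3 : fs (cw w) ζ = 0 := by
    rw [pw_fs]
    exact hz.zero
  rw [zero_uniq h.ext (cw_abs w) (fun k hk => hw k (hk.trans hN)) hball hball' h3 hζ2]
  exact hζ1

theorem good_near {q : ℂ} {d : ℕ → ℤ} (h : Mi q d) {w : List Bool} (hN : 130 ≤ w.length) (hw : ∀ k ≤ w.length, cw w k = d k) :
    Good w := by
  refine good_of hN fun k _ h2 => ?_
  rw [hw k (h2.trans hN), h.ext.fst k h2]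

end Pool.Agent.RTW
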