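import Pool.Agent.RTW.Hn
import Pool.Agent.RTW.Zw

set_option autoImplicit false

/-!
# RTW/St: the refinement

PROOF PLAN.  `am_spec`: the fold keeps a least element.  `stp_inv`: `h = 1 / (2 D)`; let `X', Y'` be the integers nearest to `2 D ζ.re`, `2 D ζ.im` (`round`; positive by `Zw.re_pos`), `|X' - 2 X| ≤ 1 / 2 + 8 / 5 < 3`, so `(X', Y')` is a candidate `(2 X + e - 2, 2 Y + e' - 2)`, `e, e' ≤ 4` (natural subtraction is exact since `2 ≤ 2 X`: `X ≥ 1` as `ζ.re ≥ 1 / 10`, `D ≥ 2 ^ 70`).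
All candidates are within `(8 / 5 + 2 √2) h ≤ 5 / 2 ^ 71` of `ζ`; `nv_eq` with the same `D`: the chosen candidate `z''` has `‖pw w z''‖ ≤ ‖pw w z'‖`, so by `Zw.lin` `‖z'' - ζ‖ ≤ ‖z' - ζ‖ (κ + 1 / 100) / (κ - 1 / 100) ≤ .7072 h * 4.01 / 3.99 ≤ 4 / 5 h`.
`rn_inv`: induction on `x` by appending at the end, start `Zw.loc`.
-/

namespace Pool.Agent.RTW

open Pool.Agent.PQE Pool.Agent.FRN Pool.Agent.TRN

private theorem St_fold (l : List (ℕ × (ℕ × ℕ))) (x : ℕ × (ℕ × ℕ)) :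
    l.foldl (fun m p => if decide (p.1 < m.1) then p else m) x ∈ x :: l ∧
    ∀ p ∈ x :: l, (l.foldl (fun m p => if decide (p.1 < m.1) then p else m) x).1 ≤ p.1 := by
  induction l generalizing x with
  | nil =>
    refine ⟨by simp, ?_⟩
    intro p hp
    rw [List.mem_singleton] at hp
    rw [hp]
    exact le_rfl
  | cons b l ih =>
    rw [List.foldl_cons]
    by_cases h : b.1 < x.1
    · rw [if_pos (by simpa using h)]
      obtain ⟨h1, h2⟩ := ih b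
      refine ⟨List.mem_cons_of_mem _ h1, ?_⟩
      intro p hp
      rcases List.mem_cons.1 hp with rfl | hp
      · exact (h2 b List.mem_cons_self).trans h.le
      · exact h2 p hp
    · rw [if_neg (by simpa using h)]
      obtain ⟨h1, h2⟩ := ih x
      constructor
      · rcases List.mem_cons.1 h1 with h3 | h3
        · rw [h3]
          exact List.mem_cons_self
        · exact List.mem_cons_of_mem _ (List.mem_cons_of_mem _ h3)
      · intro p hp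
        rcases List.mem_cons.1 hp with rfl | hp
        · exact h2 p List.mem_cons_self
        · rcases List.mem_cons.1 hp with rfl | hp
          · exact (h2 x List.mem_cons_self).trans (not_lt.1 h)
          · exact h2 p (List.mem_cons_of_mem _ hp)

theorem am_spec {l : List (ℕ × (ℕ × ℕ))} (h : l ≠ []) : am l ∈ l ∧ ∀ p ∈ l, (am l).1 ≤ p.1 := by
  rcases l with _ | ⟨b, l⟩
  · exact absurd rfl h
  · obtain ⟨h1, h2⟩ := St_fold (b :: l) b
    refine ⟨?_, fun p hp => h2 p (List.mem_cons_of_mem _ hp)⟩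
    rcases List.mem_cons.1 h1 with h3 | h3
    · show List.foldl _ b (b :: l) ∈ b :: l
      rw [h3]
      exact List.mem_cons_self
    · exact h3

/-- the state approximates `ζ` -/
def Inv (ζ : ℂ) (s : ℕ × (ℕ × ℕ)) : Prop :=
  2 ^ 70 ≤ s.1 ∧ ‖((s.2.1 : ℂ) + s.2.2 * Complex.I) / s.1 - ζ‖ ≤ 4 / 5 / s.1

private theorem St_ofs {e f : ℕ} (he : e ≤ 4) (hf : f ≤ 4) : (e, f) ∈ ofs := by
  interval_cases e <;> interval_cases f <;> simp [ofs]

private theorem St_ofs' : ∀ o ∈ ofs, o.1 ≤ 4 ∧ o.2 ≤ 4 := by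
  decide

private theorem St_norm {u v r : ℝ} (hr : 0 ≤ r) (h : u ^ 2 + v ^ 2 ≤ r ^ 2) : ‖(u : ℂ) + v * Complex.I‖ ≤ r := by
  have h1 : ‖(u : ℂ) + v * Complex.I‖ ^ 2 = u ^ 2 + v ^ 2 := by
    rw [← Complex.normSq_eq_norm_sq, Complex.normSq_apply]
    simp only [Complex.add_re, Complex.add_im, Complex.mul_re, Complex.mul_im, Complex.ofReal_re, Complex.ofReal_im,
      Complex.I_re, Complex.I_im]
    ring
  exact le_of_sq_le_sq (by rw [h1]; exact h) hr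

/-- coordinates of an approximation -/
private theorem St_coord {ζ : ℂ} {D X Y : ℝ} (hD : 0 < D) (h : ‖((X : ℂ) + Y * Complex.I) / D - ζ‖ ≤ 4 / 5 / D) :
    |X - D * ζ.re| ≤ 4 / 5 ∧ |Y - D * ζ.im| ≤ 4 / 5 := by
  have e1 : (D : ℂ) * (((X : ℂ) + Y * Complex.I) / D - ζ) = ((X - D * ζ.re : ℝ) : ℂ) + ((Y - D * ζ.im : ℝ) : ℂ) * Complex.I := by
    have hD0 : (D : ℂ) ≠ 0 := by exact_mod_cast hD.ne'
    rw [mul_sub, mul_div_cancel₀ _ hD0]
    apply Complex.ext <;> simp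
  have h1 : ‖(D : ℂ) * (((X : ℂ) + Y * Complex.I) / D - ζ)‖ ≤ 4 / 5 := by
    rw [norm_mul, Complex.norm_real, Real.norm_of_nonneg hD.le]
    have := mul_le_mul_of_nonneg_left h hD.le
    refine this.trans (le_of_eq ?_)
    field_simp
  rw [e1] at h1
  have h2 := (Complex.abs_re_le_norm _).trans h1
  have h3 := (Complex.abs_im_le_norm _).trans h1
  simp only [Complex.add_re, Complex.add_im, Complex.mul_re, Complex.mul_im, Complex.ofReal_re, Complex.ofReal_im,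
      Complex.I_re, Complex.I_im] at h2 h3
  constructor
  · refine le_trans (le_of_eq ?_) h2
    congr 1
    ring
  · refine le_trans (le_of_eq ?_) h3
    congr 1
    ring

/-- the offset of the nearest integer -/
private theorem St_near {x t : ℝ} {X : ℕ} (hX : 1 ≤ X) (h : |(X : ℝ) - t| ≤ 4 / 5) (hx : x = 2 * t) :
    ∃ e : ℕ, e ≤ 4 ∧ |((2 * X + e - 2 : ℕ) : ℝ) - x| ≤ 1 / 2 := by
  have h1 := abs_sub_round x
  rw [abs_le] at h h1
  have h2 : ((round x : ℤ) : ℝ) - 2 * X < 3 := by linarith [h.1, h1.1]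
  have h3 : -3 < ((round x : ℤ) : ℝ) - 2 * X := by linarith [h.2, h1.2]
  have h4 : round x - 2 * (X : ℤ) < 3 := by exact_mod_cast h2
  have h5 : -3 < round x - 2 * (X : ℤ) := by exact_mod_cast h3
  refine ⟨(round x - 2 * (X : ℤ) + 2).toNat, by omega, ?_⟩
  have h6 : ((2 * X + (round x - 2 * (X : ℤ) + 2).toNat - 2 : ℕ) : ℤ) = round x := by omega
  have h7 : ((2 * X + (round x - 2 * (X : ℤ) + 2).toNat - 2 : ℕ) : ℝ) = (round x : ℝ) := by exact_mod_cast h6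
  rw [h7, abs_le]
  constructor <;> linarith [h1.1, h1.2]

theorem stp_inv {w : List Bool} {ζ : ℂ} {κ : ℝ} (h : Zw w ζ κ) {s : ℕ × (ℕ × ℕ)} (hs : Inv ζ s) : Inv ζ (stp w s) := by
  obtain ⟨D, X, Y⟩ := s
  obtain ⟨hD, happ⟩ := hs
  simp only at hD happ
  have hDr : (2 : ℝ) ^ 70 ≤ D := by exact_mod_cast hD
  have hD0 : (0 : ℝ) < D := lt_of_lt_of_le (by positivity) hDr
  have hD0' : (D : ℂ) ≠ 0 := by
    have : (D : ℝ) ≠ 0 := hD0.ne'
    exact_mod_cast this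
  have happ' : ‖(((X : ℝ) : ℂ) + ((Y : ℝ) : ℂ) * Complex.I) / ((D : ℝ) : ℂ) - ζ‖ ≤ 4 / 5 / (D : ℝ) := by
    push_cast
    exact happ
  obtain ⟨hX, hY⟩ := St_coord hD0 happ'
  have hX1 : 1 ≤ X := by
    have h1 := (abs_le.1 hX).1
    have h2 : (2 : ℝ) ^ 70 * (1 / 10) ≤ D * ζ.re := mul_le_mul hDr h.re_pos (by norm_num) hD0.le
    have h3 : (2 : ℝ) ≤ 2 ^ 70 * (1 / 10) := by norm_num
    have h4 : (1 : ℝ) ≤ X := by linarith
    exact_mod_cast h4
  have hY1 : 1 ≤ Y := by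
    have h1 := (abs_le.1 hY).1
    have h2 : (2 : ℝ) ^ 70 * (1 / 10) ≤ D * ζ.im := mul_le_mul hDr h.im_pos (by norm_num) hD0.le
    have h3 : (2 : ℝ) ≤ 2 ^ 70 * (1 / 10) := by norm_num
    have h4 : (1 : ℝ) ≤ Y := by linarith
    exact_mod_cast h4
  -- the points of the refined grid
  have hgrid : ∀ o ∈ ofs, ‖(((2 * X + o.1 - 2 : ℕ) : ℂ) + ((2 * Y + o.2 - 2 : ℕ) : ℂ) * Complex.I) / ((2 * D : ℕ) : ℂ) - ζ‖ ≤
      5 / 2 ^ 71 := by
    intro o ho
    obtain ⟨ho1, ho2⟩ := St_ofs' o ho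
    have e1 : (((2 * X + o.1 - 2 : ℕ) : ℂ) + ((2 * Y + o.2 - 2 : ℕ) : ℂ) * Complex.I) / ((2 * D : ℕ) : ℂ) - ζ =
        (((X : ℂ) + Y * Complex.I) / D - ζ) + ((((o.1 : ℝ) - 2 : ℝ) : ℂ) + (((o.2 : ℝ) - 2 : ℝ) : ℂ) * Complex.I) / (2 * D) := by
      push_cast [Nat.cast_sub (show 2 ≤ 2 * X + o.1 by omega), Nat.cast_sub (show 2 ≤ 2 * Y + o.2 by omega)]
      field_simp
      ring
    rw [e1]
    have h1 : ‖((((o.1 : ℝ) - 2 : ℝ) : ℂ) + (((o.2 : ℝ) - 2 : ℝ) : ℂ) * Complex.I) / (2 * D)‖ ≤ 29 / 10 / (2 * D) := by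
      rw [norm_div]
      have e2 : ‖(2 : ℂ) * D‖ = 2 * (D : ℝ) := by
        rw [norm_mul, Complex.norm_natCast]
        norm_num
      rw [e2]
      refine div_le_div_of_nonneg_right ?_ (by positivity)
      refine St_norm (by norm_num) ?_
      have a1 : (o.1 : ℝ) ≤ 4 := by exact_mod_cast ho1
      have a2 : (o.2 : ℝ) ≤ 4 := by exact_mod_cast ho2
      have b1 : (0 : ℝ) ≤ o.1 := by positivity
      have b2 : (0 : ℝ) ≤ o.2 := by positivity
      nlinarith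
    refine (norm_add_le _ _).trans ((add_le_add happ h1).trans ?_)
    have h2 : (4 : ℝ) / 5 / D + 29 / 10 / (2 * D) = 225 / 100 / D := by
      field_simp
      norm_num
    rw [h2, div_le_div_iff₀ hD0 (by positivity)]
    have h3 : (5 : ℝ) * 2 ^ 70 ≤ 5 * D := by linarith
    have h4 : (2 : ℝ) ^ 71 = 2 * 2 ^ 70 := by norm_num
    rw [h4]
    linarith
  -- the nearest point
  obtain ⟨e, he, he2⟩ := St_near hX1 hX (x := 2 * (D * ζ.re)) rfl
  obtain ⟨f, hf, hf2⟩ := St_near hY1 hY (x := 2 * (D * ζ.im)) rfl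
  have hnear : ‖(((2 * X + e - 2 : ℕ) : ℂ) + ((2 * Y + f - 2 : ℕ) : ℂ) * Complex.I) / ((2 * D : ℕ) : ℂ) - ζ‖ ≤
      7072 / 10000 / (2 * D) := by
    have e1 : (((2 * X + e - 2 : ℕ) : ℂ) + ((2 * Y + f - 2 : ℕ) : ℂ) * Complex.I) / ((2 * D : ℕ) : ℂ) - ζ =
        (((((2 * X + e - 2 : ℕ) : ℝ) - 2 * (D * ζ.re) : ℝ) : ℂ) + ((((2 * Y + f - 2 : ℕ) : ℝ) - 2 * (D * ζ.im) : ℝ) : ℂ) * Complex.I) /
        (2 * D) := by
      rw [eq_div_iff (by simpa using hD0')]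
      have e3 : (((2 * D : ℕ) : ℂ)) = 2 * D := by push_cast; ring
      rw [e3, sub_mul, div_mul_cancel₀ _ (by simpa using hD0')]
      apply Complex.ext
      · simp
        ring
      · simp
        ring
    rw [e1, norm_div]
    have e2 : ‖(2 : ℂ) * D‖ = 2 * (D : ℝ) := by
      rw [norm_mul, Complex.norm_natCast]
      norm_num
    rw [e2]
    refine div_le_div_of_nonneg_right ?_ (by positivity)
    refine St_norm (by norm_num) ?_
    have a1 := sq_abs (((2 * X + e - 2 : ℕ) : ℝ) - 2 * (D * ζ.re))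
    have a2 := sq_abs (((2 * Y + f - 2 : ℕ) : ℝ) - 2 * (D * ζ.im))
    have b1 : |((2 * X + e - 2 : ℕ) : ℝ) - 2 * (D * ζ.re)| ^ 2 ≤ (1 / 2) ^ 2 := pow_le_pow_left₀ (abs_nonneg _) he2 2
    have b2 : |((2 * Y + f - 2 : ℕ) : ℝ) - 2 * (D * ζ.im)| ^ 2 ≤ (1 / 2) ^ 2 := pow_le_pow_left₀ (abs_nonneg _) hf2 2
    rw [← a1, ← a2]
    refine (add_le_add b1 b2).trans ?_
    norm_num
  have hne : cnd w (D, (X, Y)) ≠ [] := by
    unfold cnd ofs
    simp
  obtain ⟨m1, m2⟩ := am_spec hne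
  have hmem : (nv w (2 * D) (2 * X + e - 2) (2 * Y + f - 2), (2 * X + e - 2, 2 * Y + f - 2)) ∈ cnd w (D, (X, Y)) :=
    List.mem_map.2 ⟨(e, f), St_ofs he hf, rfl⟩
  have hle := m2 _ hmem
  obtain ⟨o, ho, ho'⟩ := List.mem_map.1 m1
  have hle' : nv w (2 * D) (2 * X + o.1 - 2) (2 * Y + o.2 - 2) ≤ nv w (2 * D) (2 * X + e - 2) (2 * Y + f - 2) := by
    rw [← ho'] at hle
    exact hle
  have hstp : stp w (D, (X, Y)) = (2 * D, (2 * X + o.1 - 2, 2 * Y + o.2 - 2)) := by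
    show (2 * D, (am (cnd w (D, (X, Y)))).2) = _
    rw [← ho']
  rw [hstp]
  have hDn : 0 < 2 * D := by
    have : 0 < D := lt_of_lt_of_le (by positivity) hD
    omega
  have hler : (nv w (2 * D) (2 * X + o.1 - 2) (2 * Y + o.2 - 2) : ℝ) ≤ nv w (2 * D) (2 * X + e - 2) (2 * Y + f - 2) := by
    exact_mod_cast hle'
  rw [nv_eq _ _ _ _ hDn, nv_eq _ _ _ _ hDn] at hler
  have hpos : (0 : ℝ) < ((2 * D : ℕ) : ℝ) ^ w.length := by
    have : (0 : ℝ) < ((2 * D : ℕ) : ℝ) := by exact_mod_cast hDn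
    positivity
  have hpw := le_of_mul_le_mul_left (le_of_sq_le_sq hler (mul_nonneg hpos.le (norm_nonneg _))) hpos
  have hl1 := (h.lin _ (hgrid o ho)).1
  have hl2 := (h.lin _ (hgrid (e, f) (St_ofs he hf))).2
  have h4 := h.four
  have hD2 : (0 : ℝ) < 2 * D := by positivity
  refine ⟨by show 2 ^ 70 ≤ 2 * D; omega, ?_⟩
  show ‖(((2 * X + o.1 - 2 : ℕ) : ℂ) + ((2 * Y + o.2 - 2 : ℕ) : ℂ) * Complex.I) / ((2 * D : ℕ) : ℂ) - ζ‖ ≤ 4 / 5 / ((2 * D : ℕ) : ℝ)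
  set u := ‖(((2 * X + o.1 - 2 : ℕ) : ℂ) + ((2 * Y + o.2 - 2 : ℕ) : ℂ) * Complex.I) / ((2 * D : ℕ) : ℂ) - ζ‖ with hu
  have h5 : (κ - 1 / 100) * u ≤ (κ + 1 / 100) * (7072 / 10000 / (2 * D)) :=
    (hl1.trans hpw).trans (hl2.trans (mul_le_mul_of_nonneg_left hnear (by linarith)))
  have h6 : (κ + 1 / 100) * (7072 / 10000 / (2 * D)) ≤ (κ - 1 / 100) * (4 / 5 / (2 * D)) := by
    have e1 : (κ + 1 / 100) * (7072 / 10000 / (2 * (D : ℝ))) = (κ + 1 / 100) * (7072 / 10000) / (2 * D) := by ring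
    have e2 : (κ - 1 / 100) * (4 / 5 / (2 * (D : ℝ))) = (κ - 1 / 100) * (4 / 5) / (2 * D) := by ring
    rw [e1, e2]
    refine div_le_div_of_nonneg_right ?_ hD2.le
    linarith
  have h7 := le_of_mul_le_mul_left (h5.trans h6) (by linarith)
  push_cast
  exact h7

theorem rn_inv {w : List Bool} {ζ : ℂ} {κ : ℝ} (h : Zw w ζ κ) (x : List Bool) :
    (rn x w).1 = 2 ^ (x.length + 70) ∧ Inv ζ (rn x w) := by
  induction x using List.reverseRecOn with
  | nil =>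
    refine ⟨by simp [rn, st0], ?_⟩
    refine ⟨by simp [rn, st0], ?_⟩
    have h1 := h.loc
    show ‖(((447181039704542467732 : ℕ) : ℂ) + ((602591602097498106901 : ℕ) : ℂ) * Complex.I) / ((1180591620717411303424 : ℕ) : ℂ) - ζ‖ ≤
      4 / 5 / ((1180591620717411303424 : ℕ) : ℝ)
    have e1 : ((1180591620717411303424 : ℕ) : ℂ) = 2 ^ 70 := by norm_num
    have e2 : ((1180591620717411303424 : ℕ) : ℝ) = 2 ^ 70 := by norm_num
    rw [e1, e2]
    push_cast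
    exact h1
  | append_singleton x e ih =>
    have e1 : rn (x ++ [e]) w = stp w (rn x w) := by
      unfold rn
      rw [List.foldl_append, List.foldl_cons, List.foldl_nil]
    rw [e1]
    refine ⟨?_, stp_inv h ih.2⟩
    show 2 * (rn x w).1 = _
    rw [ih.1, List.length_append, List.length_singleton]
    ring

end Pool.Agent.RTW
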