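import Pool.Agent.RTW.La

set_option autoImplicit false

/-!
# RTW/Zr: zeros near a minimal point

PROOF PLAN.  Section 3 (Z), (N).  `κ = mo d q / q`, `T z = z - fs c z / κ`.  By `nearlin`, `kap`: `‖T z - T z'‖ ≤ ‖z - z'‖ / 400` on the ball of radius `1 / 10 ^ 20`; `fs c q = fs c q - fs d q` (`Ext.van`), the terms up to `N` cancel, `‖fs c q‖ ≤ 2 ∑_{k > N} ‖q‖ ^ k = 2 ‖q‖ ^ (N + 1) / (1 - ‖q‖) ≤ 3.49 ‖q‖ ^ N` as
`‖q‖ ≤ .635607`; so `T` maps the closed ball of radius `‖q‖ ^ N` (at most `1 / 10 ^ 20`, `N ≥ 130`) into itself: `ContractingWith.exists_fixedPoint'`.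
`zero_lin`: `nearlin` with `z' = ζ`; `kap`.
-/

namespace Pool.Agent.RTW

open Pool.Agent.PQE Pool.Agent.FRN Pool.Agent.TRN

private theorem Zr_up {q : ℂ} {d : ℕ → ℤ} (h : Ext q d) : ‖q‖ ≤ 6357 / 10000 := by
  have h1 := h.up
  have h2 : (635606390391455492692046961204 : ℝ) / 10 ^ 30 ≤ 6357 / 10000 := by norm_num
  linarith

theorem pow_small {q : ℂ} {d : ℕ → ℤ} (h : Ext q d) {N : ℕ} (hN : 130 ≤ N) : ‖q‖ ^ N ≤ 3 / 10 ^ 26 := by
  have h1 : ‖q‖ ^ N ≤ ‖q‖ ^ 130 :=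
    pow_le_pow_of_le_one (norm_nonneg _) (by linarith [Zr_up h]) hN
  have h2 : ‖q‖ ^ 130 ≤ (6357 / 10000 : ℝ) ^ 130 := pow_le_pow_left₀ (norm_nonneg _) (Zr_up h) 130
  have h3 : (6357 / 10000 : ℝ) ^ 130 ≤ 3 / 10 ^ 26 := by norm_num
  linarith

private theorem Zr_ball {q : ℂ} {d : ℕ → ℤ} (h : Ext q d) {N : ℕ} (hN : 130 ≤ N) : ‖q‖ ^ N ≤ 1 / 10 ^ 20 := by
  have h1 := pow_small h hN
  have h2 : (3 : ℝ) / 10 ^ 26 ≤ 1 / 10 ^ 20 := by norm_num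
  linarith

private theorem Zr_fs {c : ℕ → ℝ} (hc : ∀ k, |c k| ≤ 1) {z : ℂ} (hz : ‖z‖ < 1) :
    HasSum (fun k : ℕ => (c k : ℂ) * z ^ k) (fs c z) := by
  have h := Pool.Agent.Helper62.Mandel.summable_of_bdd (q := z) hz (σ := fun k => (c k : ℂ)) (C := 1) (fun k => by
    rw [Complex.norm_real]
    exact hc k)
  exact h.hasSum

/-- the value at `q` -/
private theorem Zr_val {q : ℂ} {d : ℕ → ℤ} (h : Ext q d) {c : ℕ → ℝ} (hc : ∀ k, |c k| ≤ 1) {N : ℕ}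
    (hcd : ∀ k ≤ N, c k = d k) : ‖fs c q‖ ≤ 35 / 10 * ‖q‖ ^ N := by
  have hq := Zr_up h
  have hq1 : ‖q‖ < 1 := by linarith
  have s1 := (Zr_fs hc hq1).sub h.van
  rw [sub_zero] at s1
  have s2 := (hasSum_nat_add_iff' (N + 1)).2 s1
  have e1 : ∑ i ∈ Finset.range (N + 1), ((c i : ℂ) * q ^ i - (d i : ℂ) * q ^ i) = 0 := by
    refine Finset.sum_eq_zero fun k hk => ?_
    rw [hcd k (by rw [Finset.mem_range] at hk; omega)]
    push_cast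
    ring
  rw [e1, sub_zero] at s2
  have g1 := ((hasSum_geometric_of_lt_one (norm_nonneg q) hq1).mul_left (2 * ‖q‖ ^ (N + 1)))
  have hle := s2.norm_le_of_bounded g1 (fun k => ?_)
  · refine hle.trans ?_
    have h1 : (1 - ‖q‖)⁻¹ ≤ 275 / 100 := by
      rw [inv_le_comm₀ (by linarith) (by norm_num)]
      norm_num
      linarith
    have h2 : 0 ≤ ‖q‖ ^ N := pow_nonneg (norm_nonneg _) _
    have h3 : 0 ≤ (1 - ‖q‖)⁻¹ := inv_nonneg.2 (by linarith)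
    have h4 : ‖q‖ * (1 - ‖q‖)⁻¹ ≤ 6357 / 10000 * (275 / 100) := mul_le_mul hq h1 h3 (by norm_num)
    have h5 := mul_le_mul_of_nonneg_left h4 h2
    rw [pow_succ]
    have e2 : 2 * (‖q‖ ^ N * ‖q‖) * (1 - ‖q‖)⁻¹ = 2 * (‖q‖ ^ N * (‖q‖ * (1 - ‖q‖)⁻¹)) := by ring
    rw [e2]
    nlinarith
  · have e3 : (c (k + (N + 1)) : ℂ) * q ^ (k + (N + 1)) - (d (k + (N + 1)) : ℂ) * q ^ (k + (N + 1)) =
        ((c (k + (N + 1)) : ℂ) - d (k + (N + 1))) * (q ^ (N + 1) * q ^ k) := by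
      rw [pow_add]
      ring
    rw [e3, norm_mul, norm_mul, norm_pow, norm_pow]
    have h5 : ‖(c (k + (N + 1)) : ℂ) - d (k + (N + 1))‖ ≤ 2 := by
      have h6 := norm_sub_le (c (k + (N + 1)) : ℂ) (d (k + (N + 1)) : ℂ)
      have h7 : ‖(c (k + (N + 1)) : ℂ)‖ ≤ 1 := by
        rw [Complex.norm_real]
        exact hc _
      have h8 : ‖(d (k + (N + 1)) : ℂ)‖ ≤ 1 := by
        rcases h.pm (k + (N + 1)) with h9 | h9 <;> rw [h9] <;> norm_num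
      linarith
    have h6 := mul_le_mul_of_nonneg_right h5 (show 0 ≤ ‖q‖ ^ (N + 1) * ‖q‖ ^ k by positivity)
    refine h6.trans (le_of_eq ?_)
    ring

theorem zero_near {q : ℂ} {d : ℕ → ℤ} (h : Ext q d) {c : ℕ → ℝ} (hc : ∀ k, |c k| ≤ 1) {N : ℕ} (hN : 130 ≤ N)
    (hcd : ∀ k ≤ N, c k = d k) : ∃ ζ : ℂ, ‖ζ - q‖ ≤ ‖q‖ ^ N ∧ fs c ζ = 0 := by
  have hk := kap h
  set κ : ℂ := mo d q / q with hκ
  have hκ0 : κ ≠ 0 := by
    intro h0
    rw [h0, norm_zero] at hk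
    linarith
  have hball := Zr_ball h hN
  have hcd' : ∀ k ≤ 130, c k = d k := fun k hk => hcd k (hk.trans hN)
  set T : ℂ → ℂ := fun z => z - fs c z / κ with hT
  have hlip : ∀ z z' : ℂ, ‖z - q‖ ≤ ‖q‖ ^ N → ‖z' - q‖ ≤ ‖q‖ ^ N → ‖T z - T z'‖ ≤ 1 / 400 * ‖z - z'‖ := by
    intro z z' hz hz'
    have h1 := nearlin h hc hcd' (hz.trans hball) (hz'.trans hball)
    have e1 : T z - T z' = -(fs c z - fs c z' - κ * (z - z')) / κ := by
      show z - fs c z / κ - (z' - fs c z' / κ) = _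
      field_simp
      ring
    rw [e1, norm_div, norm_neg, div_le_iff₀ (norm_pos_iff.2 hκ0)]
    have h2 := mul_le_mul_of_nonneg_left hk (norm_nonneg (z - z'))
    linarith
  have hTq : ‖T q - q‖ ≤ 875 / 1000 * ‖q‖ ^ N := by
    have e1 : T q - q = -(fs c q) / κ := by
      show q - fs c q / κ - q = _
      ring
    rw [e1, norm_div, norm_neg, div_le_iff₀ (norm_pos_iff.2 hκ0)]
    have h1 := Zr_val h hc hcd
    have h2 := mul_le_mul_of_nonneg_left hk (show 0 ≤ ‖q‖ ^ N by positivity)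
    linarith
  have hmaps : Set.MapsTo T (Metric.closedBall q (‖q‖ ^ N)) (Metric.closedBall q (‖q‖ ^ N)) := by
    intro z hz
    rw [Metric.mem_closedBall, dist_eq_norm] at hz ⊢
    have h1 := hlip z q hz (by rw [sub_self, norm_zero]; positivity)
    have e1 : T z - q = (T z - T q) + (T q - q) := by ring
    rw [e1]
    refine (norm_add_le _ _).trans ?_
    have h9 : 0 ≤ ‖q‖ ^ N := by positivity
    linarith
  have hcontr : ContractingWith (1 / 2) (hmaps.restrict T _ _) := by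
    refine ⟨by norm_num, LipschitzWith.of_dist_le_mul fun x y => ?_⟩
    have hx := x.2
    have hy := y.2
    rw [Metric.mem_closedBall, dist_eq_norm] at hx hy
    have h1 := hlip x.1 y.1 hx hy
    rw [Subtype.dist_eq, Subtype.dist_eq, dist_eq_norm, dist_eq_norm]
    show ‖T x.1 - T y.1‖ ≤ _
    refine h1.trans (mul_le_mul_of_nonneg_right ?_ (norm_nonneg _))
    norm_num
  obtain ⟨y, hy, hfix, -⟩ := ContractingWith.exists_fixedPoint' (Metric.isClosed_closedBall.isComplete) hmaps hcontr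
    (Metric.mem_closedBall_self (by positivity) : q ∈ Metric.closedBall q (‖q‖ ^ N)) (edist_ne_top _ _)
  refine ⟨y, by rwa [Metric.mem_closedBall, dist_eq_norm] at hy, ?_⟩
  have h1 : y - fs c y / κ = y := hfix
  have h2 : fs c y / κ = 0 := by linear_combination -h1
  rcases div_eq_zero_iff.1 h2 with h3 | h3
  · exact h3
  · exact absurd h3 hκ0

theorem zero_lin {q : ℂ} {d : ℕ → ℤ} (h : Ext q d) {c : ℕ → ℝ} (hc : ∀ k, |c k| ≤ 1) (hcd : ∀ k ≤ 130, c k = d k)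
    {ζ z : ℂ} (h1 : ‖ζ - q‖ ≤ 1 / 10 ^ 20) (h2 : ‖z - q‖ ≤ 1 / 10 ^ 20) (h3 : fs c ζ = 0) :
    (‖mo d q / q‖ - 1 / 100) * ‖z - ζ‖ ≤ ‖fs c z‖ ∧ ‖fs c z‖ ≤ (‖mo d q / q‖ + 1 / 100) * ‖z - ζ‖ := by
  have h4 := nearlin h hc hcd h2 h1
  rw [h3, sub_zero] at h4
  have h5 : ‖mo d q / q * (z - ζ)‖ = ‖mo d q / q‖ * ‖z - ζ‖ := norm_mul _ _
  have h6 := norm_sub_norm_le (fs c z) (mo d q / q * (z - ζ))
  have h7 := norm_sub_norm_le (mo d q / q * (z - ζ)) (fs c z)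
  rw [norm_sub_rev] at h7
  constructor <;> linarith

theorem zero_uniq {q : ℂ} {d : ℕ → ℤ} (h : Ext q d) {c : ℕ → ℝ} (hc : ∀ k, |c k| ≤ 1) (hcd : ∀ k ≤ 130, c k = d k)
    {ζ ζ' : ℂ} (h1 : ‖ζ - q‖ ≤ 1 / 10 ^ 20) (h2 : ‖ζ' - q‖ ≤ 1 / 10 ^ 20) (h3 : fs c ζ = 0) (h4 : fs c ζ' = 0) : ζ = ζ' := by
  have h5 := (zero_lin h hc hcd h2 h1 h4).1
  rw [h3, norm_zero] at h5
  have hk := kap h
  have h6 : ‖ζ - ζ'‖ ≤ 0 := by
    by_contra hlt
    push Not at hlt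
    nlinarith
  exact sub_eq_zero.1 (norm_le_zero_iff.1 h6)

/-- zeros of series with coefficients `0, 1, -1` are in the Mandelbrot set -/
theorem zero_mem {q : ℂ} {d : ℕ → ℤ} (h : Ext q d) {c : ℕ → ℝ} (h0 : c 0 = 1) (hc : ∀ k, c k = 0 ∨ c k = 1 ∨ c k = -1)
    {ζ : ℂ} (h1 : ‖ζ - q‖ ≤ 1 / 10 ^ 20) (h3 : fs c ζ = 0) :
    ζ ∈ Pool.Agent.Helper62.Mandel.mandelbrot ∧ 1 / 10 ≤ ζ.re ∧ 1 / 10 ≤ ζ.im ∧ ‖ζ‖ < 1 := by
  have hq := Zr_up h
  have hs : (1 : ℝ) / 10 ^ 20 ≤ 1 / 100 := by norm_num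
  have hζ : ‖ζ‖ < 1 := by
    have h2 := norm_sub_norm_le ζ q
    linarith
  have hab : ∀ k, |c k| ≤ 1 := by
    intro k
    rcases hc k with h4 | h4 | h4 <;> rw [h4] <;> norm_num
  refine ⟨?_, ?_, ?_, hζ⟩
  · rw [Pool.Agent.Helper62.Mandel.mem_mandelbrot_iff]
    refine ⟨hζ, c, h0, hc, ?_⟩
    have h4 := Zr_fs hab hζ
    rw [h3] at h4
    exact h4
  · have h4 := (h.loc).1
    rw [abs_lt] at h4
    have h5 := (abs_le.1 ((Complex.abs_re_le_norm (ζ - q)).trans h1)).1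
    rw [Complex.sub_re] at h5
    have h6 : (2 : ℝ) / 10 ≤ X0 := by
      unfold X0
      norm_num
    have h7 : (1 : ℝ) / 10 ^ 28 ≤ 1 / 100 := by norm_num
    linarith
  · have h4 := (h.loc).2
    rw [abs_lt] at h4
    have h5 := (abs_le.1 ((Complex.abs_im_le_norm (ζ - q)).trans h1)).1
    rw [Complex.sub_im] at h5
    have h6 : (2 : ℝ) / 10 ≤ Y0 := by
      unfold Y0
      norm_num
    have h7 : (1 : ℝ) / 10 ^ 28 ≤ 1 / 100 := by norm_num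
    linarith

end Pool.Agent.RTW
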